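import Pool.Agent.H387R2.MB9

set_option autoImplicit false

/-! # The sieve of `H387R2.MB7`-`MB9` for moduli `W = m₀ V`, `V` squarefree -/

open Finset Filter Topology
open scoped ContDiff

namespace Pool.Agent.TH891.PI

open Pool.Agent.H378R2 Pool.Agent.H387R2.MB

/-- `m₀` times a squarefree number -/
def SqM (m₀ W : ℕ) : Prop := ∃ V : ℕ, W = m₀ * V ∧ Squarefree V

/-- one ramp -/
theorem DAP_sumM (m₀ : ℕ) (hm₀ : 1 ≤ m₀) (K0 A : ℕ) (s : ℝ) (hs0 : 0 ≤ s) : ∀ᶠ X : ℝ in atTop, ∀ W : ℕ, SqM m₀ W →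
    (W : ℝ) ≤ (Real.log X) ^ 3 → ∀ Bc : ℕ → ℕ, (∀ q, 1 ≤ q → (Bc q).Coprime (W * q)) →
    ∑ q ∈ (Icc 1 ⌊X ^ (1 / 100 : ℝ)⌋₊).filter (fun q => Squarefree q ∧ q.Coprime W),
      (q.divisors.card : ℝ) ^ (2 * K0) * |DAP (Real.exp s * X) (W * q) (Bc q)| ≤
      (Real.exp s * X) / (Real.log (Real.exp s * X)) ^ A := by
  obtain ⟨X0, h0⟩ := Pool.Agent.H410R2.bvap m₀ hm₀ ((2 : ℝ) ^ (2 * K0)) (one_le_pow₀ (by norm_num)) (1 / 4) (by norm_num) A
  have e1 : (fun X : ℝ => Real.log X) =o[atTop] (fun X : ℝ => X ^ (1 / 300 : ℝ)) := isLittleO_log_rpow_atTop (by norm_num)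
  filter_upwards [eventually_ge_atTop X0, eventually_ge_atTop 4, e1.def (by norm_num : (0 : ℝ) < 1)] with X h1 h4 hlog
  intro W hWsq hW Bc hBc
  obtain ⟨V, hWV, hVsq⟩ := hWsq
  rw [one_mul, Real.norm_of_nonneg (Real.log_nonneg (by linarith)), Real.norm_of_nonneg (Real.rpow_nonneg (by linarith) _)] at hlog
  have hX0 : 0 < X := by linarith
  have hes : 1 ≤ Real.exp s := Real.one_le_exp hs0
  have hYX : X ≤ Real.exp s * X := by nlinarith
  have hV0 : 0 < V := Nat.pos_of_ne_zero hVsq.ne_zero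
  have hVW : V ≤ W := by rw [hWV]; exact Nat.le_mul_of_pos_left _ hm₀
  have hW' : (V : ℝ) ≤ X ^ (1 / 100 : ℝ) := by
    calc (V : ℝ) ≤ W := by exact_mod_cast hVW
      _ ≤ (Real.log X) ^ 3 := hW
      _ ≤ (X ^ (1 / 300 : ℝ)) ^ 3 := pow_le_pow_left₀ (Real.log_nonneg (by linarith)) hlog 3
      _ = X ^ (1 / 100 : ℝ) := by
          rw [← Real.rpow_natCast, ← Real.rpow_mul hX0.le]
          norm_num
  have k := h0 (Real.exp s * X) (h1.trans hYX) (fun Q => if V ∣ Q ∧ 0 < Q then Bc (Q / V) else 1)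
  refine le_trans ?_ k
  refine le_trans ?_ (sum_le_sum_of_subset_of_nonneg (s := ((Icc 1 ⌊X ^ (1 / 100 : ℝ)⌋₊).filter
    (fun q => Squarefree q ∧ q.Coprime W)).image (fun q => V * q)) ?_ ?_)
  rotate_left
  · intro Q hQ
    rw [mem_image] at hQ
    obtain ⟨q, hq, rfl⟩ := hQ
    rw [mem_filter, mem_Icc] at hq
    obtain ⟨⟨hq1, hq2⟩, hq3, hq4⟩ := hq
    rw [mem_filter, mem_Icc]
    have hWq : 0 < V * q := Nat.mul_pos hV0 hq1
    have hqV : q.Coprime V := by
      rw [hWV] at hq4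
      exact Nat.Coprime.coprime_mul_left_right hq4
    refine ⟨⟨hWq, ?_⟩, ?_, ?_⟩
    · apply Nat.le_floor
      have h5 : (q : ℝ) ≤ X ^ (1 / 100 : ℝ) := (Nat.le_floor_iff (by positivity)).1 hq2
      push_cast
      calc (V : ℝ) * q ≤ X ^ (1 / 100 : ℝ) * X ^ (1 / 100 : ℝ) := by gcongr
        _ = X ^ (1 / 50 : ℝ) := by rw [← Real.rpow_add hX0]; norm_num
        _ ≤ X ^ (1 / 2 - 1 / 4 : ℝ) := by
            apply Real.rpow_le_rpow_of_exponent_le (by linarith); norm_num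
        _ ≤ (Real.exp s * X) ^ (1 / 2 - 1 / 4 : ℝ) := by
            apply Real.rpow_le_rpow hX0.le hYX (by norm_num)
    · exact Nat.squarefree_mul_iff.2 ⟨hqV.symm, hVsq, hq3⟩
    · rw [if_pos ⟨Dvd.intro _ rfl, hWq⟩, Nat.mul_div_cancel_left _ hV0, ← mul_assoc, ← hWV]
      exact hBc q hq1
  · intro Q _ _
    positivity
  · rw [sum_image]
    · apply sum_le_sum
      intro q hq
      rw [mem_filter, mem_Icc] at hq
      obtain ⟨⟨hq1, hq2⟩, hq3, hq4⟩ := hq
      have hWq : 0 < V * q := Nat.mul_pos hV0 hq1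
      rw [if_pos ⟨Dvd.intro _ rfl, hWq⟩, Nat.mul_div_cancel_left _ hV0, ← mul_assoc, ← hWV]
      unfold DAP
      apply mul_le_mul_of_nonneg_right _ (abs_nonneg _)
      rw [card_div_sqf hq3]
      push_cast
      rw [← pow_mul, ← pow_mul]
      apply pow_le_pow_right₀ (by norm_num)
      rw [mul_comm]
      apply Nat.mul_le_mul_left
      apply card_le_card
      apply Nat.primeFactors_mono _ hWq.ne'
      exact Dvd.intro_left _ rfl
    · intro a _ b _ hab
      exact Nat.eq_of_mul_eq_mul_left hV0 hab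

/-- the error term is small -/
theorem BVe_leM (m₀ : ℕ) (hm₀ : 1 ≤ m₀) (K0 A : ℕ) : ∀ᶠ X : ℝ in atTop, ∀ W : ℕ, SqM m₀ W →
    (W : ℝ) ≤ (Real.log X) ^ 3 → ∀ Bc : ℕ → ℕ, (∀ q, 1 ≤ q → (Bc q).Coprime (W * q)) →
    BVe K0 X W Bc ≤ X / (Real.log X) ^ A := by
  filter_upwards [DAP_sumM m₀ hm₀ K0 (A + 1) 1 (by norm_num), DAP_sumM m₀ hm₀ K0 (A + 1) (1 / 2) (by norm_num),
    DAP_sumM m₀ hm₀ K0 (A + 1) 0 le_rfl, eventually_ge_atTop 4, Real.tendsto_log_atTop.eventually_ge_atTop 12] with X h1 h2 h3 h4 h5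
  intro W hWsq hW Bc hBc
  have hX0 : 0 < X := by linarith
  have hl0 : 0 < Real.log X := by linarith
  have key : ∀ s : ℝ, 0 ≤ s → s ≤ 1 → (Real.exp s * X) / (Real.log (Real.exp s * X)) ^ (A + 1) ≤ 3 * X / (Real.log X) ^ (A + 1) := by
    intro s hs0 hs1
    have he : Real.exp s ≤ 3 := (Real.exp_le_exp.2 hs1).trans exp_one_lt_three'.le
    have hes : 1 ≤ Real.exp s := Real.one_le_exp hs0
    apply div_le_div₀ (by positivity) (by gcongr) (by positivity)
    apply pow_le_pow_left₀ hl0.le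
    apply Real.log_le_log hX0
    nlinarith
  have k1 := (h1 W hWsq hW Bc hBc).trans (key 1 (by norm_num) le_rfl)
  have k2 := (h2 W hWsq hW Bc hBc).trans (key (1/2) (by norm_num) (by norm_num))
  have k3 := (h3 W hWsq hW Bc hBc).trans (key 0 le_rfl (by norm_num))
  have k4 : BVe K0 X W Bc ≤ ∑ q ∈ (Icc 1 ⌊X ^ (1 / 100 : ℝ)⌋₊).filter (fun q => Squarefree q ∧ q.Coprime W),
      (q.divisors.card : ℝ) ^ (2 * K0) * |DAP (Real.exp 1 * X) (W * q) (Bc q)| +
      2 * ∑ q ∈ (Icc 1 ⌊X ^ (1 / 100 : ℝ)⌋₊).filter (fun q => Squarefree q ∧ q.Coprime W),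
      (q.divisors.card : ℝ) ^ (2 * K0) * |DAP (Real.exp (1 / 2) * X) (W * q) (Bc q)| +
      ∑ q ∈ (Icc 1 ⌊X ^ (1 / 100 : ℝ)⌋₊).filter (fun q => Squarefree q ∧ q.Coprime W),
      (q.divisors.card : ℝ) ^ (2 * K0) * |DAP (Real.exp 0 * X) (W * q) (Bc q)| := by
    unfold BVe
    rw [mul_sum, ← sum_add_distrib, ← sum_add_distrib]
    apply sum_le_sum
    intro q _
    rw [EPhi_DAP X h4]
    have hτ : 0 ≤ (q.divisors.card : ℝ) ^ (2 * K0) := by positivity
    have habs : |DAP (Real.exp 1 * X) (W * q) (Bc q) - 2 * DAP (Real.exp (1 / 2) * X) (W * q) (Bc q) +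
        DAP (Real.exp 0 * X) (W * q) (Bc q)| ≤ |DAP (Real.exp 1 * X) (W * q) (Bc q)| +
        2 * |DAP (Real.exp (1 / 2) * X) (W * q) (Bc q)| + |DAP (Real.exp 0 * X) (W * q) (Bc q)| := by
      refine (abs_add_le _ _).trans ?_
      have := abs_sub (DAP (Real.exp 1 * X) (W * q) (Bc q)) (2 * DAP (Real.exp (1 / 2) * X) (W * q) (Bc q))
      rw [abs_mul, abs_of_pos (by norm_num : (0:ℝ) < 2)] at this
      linarith
    have := mul_le_mul_of_nonneg_left habs hτ
    linarith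
  have k5 : 12 * X / (Real.log X) ^ (A + 1) ≤ X / (Real.log X) ^ A := by
    rw [div_le_div_iff₀ (by positivity) (by positivity), pow_succ]
    have : 0 < (Real.log X) ^ A := by positivity
    have : 12 * (X * (Real.log X) ^ A) ≤ Real.log X * (X * (Real.log X) ^ A) := by
      apply mul_le_mul_of_nonneg_right h5 (by positivity)
    linarith
  have k6 : 12 * X / (Real.log X) ^ (A + 1) = 4 * (3 * X / (Real.log X) ^ (A + 1)) := by ring
  linarith

open Classical in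
/-- many `n` with several primes and no small prime factor -/
theorem positivityM (k : ℕ) : ∃ (K0 B : ℕ) (f : Fin B → ℝ → ℝ) (A : Finset (Fin (K0 + 1) → Fin B)),
    (∀ l x, |f l x| ≤ 1) ∧ ∃ δ : ℝ, 0 < δ ∧ δ ≤ 1 / 10 ∧ ∃ c0 : ℝ, 0 < c0 ∧ ∃ z : ℕ, ∀ m₀ : ℕ, 1 ≤ m₀ → ∀ᶠ X : ℝ in atTop,
    ∀ (W : ℕ) (E : Finset ℕ) (a0 : ℕ) (t : Fin (K0 + 1) → ℕ), CS X z W E → SqM m₀ W → DT E t →
      (∀ j, (a0 + t j).Coprime W) → (∀ j, (t j : ℝ) ≤ Real.sqrt X) →
      (∑ p ∈ E.filter (fun p => ¬ p ∣ W), (1 : ℝ) / p ≤ δ) → (W.totient : ℝ) ≤ 2 * (W * BE E) →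
      c0 * QQ (K0 + 1) X W E ≤ ∑ n ∈ Icc 1 ⌊3 * X⌋₊, nu X W a0 n *
        (if (k + 1 ≤ (univ.filter (fun j => (n + t j).Prime)).card) ∧ (∀ j, ∀ p ∈ PS δ X, ¬ p ∣ n + t j) then
          sqw E X f A (fun j => (n : ℤ) + t j) ^ 2 else 0) := by
  obtain ⟨K0, B, f, c, A, hsm, hcs, hf0, hc, hA, hf1, hI, hJ⟩ := family (801 + 640000 * k)
  set K : ℝ := (K0 : ℝ) + 1 with hK
  have hKpos : 0 < K := by positivity
  set I := II f A with hIdef
  set ε1 := I / K with hε1
  have hε1pos : 0 < ε1 := by positivity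
  obtain ⟨z1, hS1⟩ := S1up f c A hsm hcs hf0 hc hA hf1 ε1 hε1pos
  obtain ⟨z2, hS2⟩ := S2low f c A hsm hcs hf0 hc hA hf1 ε1 hε1pos
  obtain ⟨C, hC0, z3, hnr⟩ := nonrough f c A hsm hcs hf0 hc hA hf1 hI.le
  set δ : ℝ := min (1 / 10) (I / (1600 * K * (C + 1))) with hδ
  have hδ0 : 0 < δ := lt_min (by norm_num) (by positivity)
  have hδ1 : δ ≤ 1 / 10 := min_le_left _ _
  have hδC : C * δ ≤ I / (1600 * K) := by
    have h1 : δ ≤ I / (1600 * K * (C + 1)) := min_le_right _ _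
    calc C * δ ≤ (C + 1) * (I / (1600 * K * (C + 1))) := by
          apply mul_le_mul (by linarith) h1 hδ0.le (by linarith)
      _ = I / (1600 * K) := by field_simp
  refine ⟨K0, B, f, A, hf1, δ, hδ0, hδ1, I / (1600 * K), by positivity, max z1 (max z2 z3), fun m₀ hm₀ => ?_⟩
  set cE : ℝ := K * (A.card : ℝ) ^ 2 + 5 * k * (A.card : ℝ) ^ 2 with hcE
  filter_upwards [hS1, hS2, hnr δ hδ0 hδ1, BVe_leM m₀ hm₀ K0 (K0 + 1 + 4), err_small (K0 + 1) cE (I / 2) (by positivity) (by positivity),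
    LPhi_ge, eventually_ge_atTop 16, LL_tendsto.eventually_ge_atTop 1, ev_pow_exp 3 (1 / 700) 1 (by norm_num) |>
      (fun h => Real.tendsto_log_atTop.eventually h)] with X h1 h2 h3 h4 h5 h6 h7 h8 h9
  intro W E a0 t hCS hWsq hDT hcop ht hE1 hBW
  have hX0 : 0 < X := by linarith
  have hL0 : 0 < LL X := by linarith
  have hW0 : 0 < W := hCS.pos
  have hWr : (0:ℝ) < W := by exact_mod_cast hW0
  have hφ : 0 < (W.totient : ℝ) := by exact_mod_cast Nat.totient_pos.2 hW0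
  have hBE : 0 < BE E := BE_pos hCS.gs.pr
  have hWle : (W : ℝ) ≤ Real.exp (Real.log X / 700) := by
    refine hCS.le.trans ?_
    rw [one_mul] at h9
    calc Real.log X ^ 3 ≤ Real.exp (1 / 700 * Real.log X) := h9
      _ = _ := by ring_nf
  have hsqrt : Real.sqrt X ≤ X / 2 := sqrt_half h7
  have hCW : ∀ z', z' ≤ max z1 (max z2 z3) → CW X z' W E := fun z' hz' =>
    ⟨(hCS.gs.toGE h8).mono hz', hW0, hWle, hCS.dv⟩
  set Q := QQ (K0 + 1) X W E with hQ
  have hMP : 0 ≤ MPhi X := MPhi_nonneg X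
  have hQ0 : 0 ≤ Q := by rw [hQ]; unfold QQ; positivity
  -- first sum
  have s1 := h1 W E a0 t (hCW z1 (le_max_left _ _)) hDT
  -- second sum
  obtain ⟨Bc, hBc1, hBc2⟩ := Bc_exists X W hW0
  have s2 := h2 W E a0 t (Real.sqrt X) (hCW z2 ((le_max_left _ _).trans (le_max_right _ _))) hDT ht hsqrt hcop Bc hBc2
  have s3 := h4 W hWsq hCS.le Bc hBc1
  have s4 := h5 W E (BVe K0 X W Bc) hW0 hCS.le hCS.gs.pr s3
  have s5 := h3 W E a0 t ⟨hCS.gs.mono ((le_max_right _ _).trans (le_max_right _ _)), hCS.pos, hCS.le, hCS.dv⟩ hDT hcop hE1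
  set w : ℕ → ℝ := fun n => sqw E X f A (fun j => (n : ℤ) + t j) ^ 2 with hw
  have hw0 : ∀ n, 0 ≤ w n := fun n => sq_nonneg _
  set err2 := BVe K0 X W Bc + Real.exp (2 * LL X) *
          ((4 * Real.sqrt X) * Real.log (4 * X) + 4 * Real.sqrt X * Real.log (4 * X)) with herr2
  -- lower bound for the theta sum
  have s6 : (LL X * Q / 800) * ((801 + 640000 * k) * I - I) - K * (A.card : ℝ) ^ 2 * err2 ≤
      ∑ i : Fin (K0 + 1), ∑ n ∈ Icc 1 ⌊3 * X⌋₊, nu X W a0 n * (w n * th (n + t i)) := by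
    refine le_trans ?_ (sum_le_sum fun i _ => s2 i)
    rw [sum_sub_distrib, sum_const, card_univ, Fintype.card_fin, nsmul_eq_mul, ← mul_sum, sum_sub_distrib, sum_const,
      card_univ, Fintype.card_fin, nsmul_eq_mul]
    push_cast
    rw [← hK]
    have e1 : K * ε1 = I := by rw [hε1]; field_simp
    rw [e1]
    have e2 : LL X * Q / 800 ≤ LPhi X * (1 / (W.totient : ℝ)) * (1 / (LL X * BE E) ^ K0) := by
      have e3 : LL X * Q = (MPhi X * (1 / (W * BE E))) * (1 / (LL X * BE E) ^ K0) := by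
        rw [hQ]; unfold QQ
        rw [pow_succ]
        field_simp
      have e4 : MPhi X * (1 / (W * BE E)) ≤ 800 * (LPhi X * (1 / (W.totient : ℝ))) := by
        have e5 : 1 / (W * BE E) ≤ 2 * (1 / (W.totient : ℝ)) := by
          rw [mul_one_div, div_le_div_iff₀ (by positivity) hφ]
          linarith
        have e6 : MPhi X ≤ 400 * LPhi X := by
          have := MPhi_le X (by linarith)
          linarith
        calc MPhi X * (1 / (W * BE E)) ≤ (400 * LPhi X) * (2 * (1 / (W.totient : ℝ))) := by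
              apply mul_le_mul e6 e5 (by positivity)
              linarith
          _ = _ := by ring
      rw [e3]
      have := mul_le_mul_of_nonneg_right e4 (by positivity : 0 ≤ 1 / (LL X * BE E) ^ K0)
      linarith
    have e7 : 0 ≤ ∑ i, JJ f A i - I := by
      have : I ≤ (801 + 640000 * k) * I := by
        have h0 : (0:ℝ) ≤ k := Nat.cast_nonneg k
        have h1' : (1:ℝ) ≤ 801 + 640000 * k := by linarith only [h0]
        exact le_mul_of_one_le_left hI.le h1'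
      linarith only [this, hJ]
    have e8 : (LL X * Q / 800) * ((801 + 640000 * k) * I - I) ≤
        LPhi X * (1 / (W.totient : ℝ)) * (1 / (LL X * BE E) ^ K0) * (∑ i, JJ f A i - I) := by
      calc _ ≤ (LL X * Q / 800) * (∑ i, JJ f A i - I) := by
            apply mul_le_mul_of_nonneg_left _ (by positivity)
            linarith
        _ ≤ _ := mul_le_mul_of_nonneg_right e2 e7
    linarith
  -- upper bound
  have hpt : ∀ n ∈ Icc 1 ⌊3 * X⌋₊, nu X W a0 n * (w n * (∑ i : Fin (K0 + 1), th (n + t i) - k * Real.log (4 * X))) ≤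
      (K * Real.log (4 * X)) * (nu X W a0 n * (if k + 1 ≤ (univ.filter (fun j => (n + t j).Prime)).card then w n else 0)) := by
    intro n hn
    rw [mem_Icc] at hn
    have hnu := nu_nonneg X W a0 n
    have hl : 0 ≤ Real.log (4 * X) := Real.log_nonneg (by linarith)
    have hn3 : (n : ℝ) ≤ 3 * X := (Nat.le_floor_iff (by positivity)).1 hn.2
    have e1 : ∑ i : Fin (K0 + 1), th (n + t i) ≤ Real.log (4 * X) * ((univ.filter (fun j => (n + t j).Prime)).card : ℝ) := by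
      rw [card_filter]
      push_cast
      rw [mul_sum]
      apply sum_le_sum
      intro i _
      unfold th
      split_ifs with hp
      · rw [mul_one]
        apply Real.log_le_log (by exact_mod_cast hp.pos)
        push_cast
        have := ht i
        linarith
      · simp
    have e2 : w n * (∑ i : Fin (K0 + 1), th (n + t i) - k * Real.log (4 * X)) ≤
        (K * Real.log (4 * X)) * (if k + 1 ≤ (univ.filter (fun j => (n + t j).Prime)).card then w n else 0) := by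
      split_ifs with hc
      · have e3 : ((univ.filter (fun j => (n + t j).Prime)).card : ℝ) ≤ K := by
          rw [hK]
          have := card_filter_le (univ : Finset (Fin (K0 + 1))) (fun j => (n + t j).Prime)
          rw [card_univ, Fintype.card_fin] at this
          exact_mod_cast this
        have e4 : ∑ i : Fin (K0 + 1), th (n + t i) - k * Real.log (4 * X) ≤ K * Real.log (4 * X) := by
          have h0 : 0 ≤ (k : ℝ) * Real.log (4 * X) := mul_nonneg (Nat.cast_nonneg _) hl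
          have h1' := mul_le_mul_of_nonneg_left e3 hl
          linarith only [h0, h1', e1]
        calc _ ≤ w n * (K * Real.log (4 * X)) := mul_le_mul_of_nonneg_left e4 (hw0 n)
          _ = _ := by ring
      · rw [mul_zero]
        apply mul_nonpos_of_nonneg_of_nonpos (hw0 n)
        have e3 : ((univ.filter (fun j => (n + t j).Prime)).card : ℝ) ≤ k := by
          exact_mod_cast (by omega : (univ.filter (fun j => (n + t j).Prime)).card ≤ k)
        have h1' := mul_le_mul_of_nonneg_left e3 hl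
        linarith only [h1', e1]
    calc _ ≤ nu X W a0 n * ((K * Real.log (4 * X)) * (if k + 1 ≤ (univ.filter (fun j => (n + t j).Prime)).card then w n else 0)) :=
          mul_le_mul_of_nonneg_left e2 hnu
      _ = _ := by ring
  have s7 := sum_le_sum hpt
  rw [← mul_sum] at s7
  have s8 : ∑ n ∈ Icc 1 ⌊3 * X⌋₊, nu X W a0 n * (w n * (∑ i : Fin (K0 + 1), th (n + t i) - k * Real.log (4 * X))) =
      ∑ i : Fin (K0 + 1), ∑ n ∈ Icc 1 ⌊3 * X⌋₊, nu X W a0 n * (w n * th (n + t i)) -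
        k * Real.log (4 * X) * ∑ n ∈ Icc 1 ⌊3 * X⌋₊, nu X W a0 n * w n := by
    rw [sum_comm, mul_sum, ← sum_sub_distrib]
    apply sum_congr rfl
    intro n _
    rw [← mul_sum, ← mul_sum]
    ring
  rw [s8] at s7
  set S := ∑ n ∈ Icc 1 ⌊3 * X⌋₊, nu X W a0 n * (if k + 1 ≤ (univ.filter (fun j => (n + t j).Prime)).card then w n else 0) with hS
  have hS0 : 0 ≤ S := sum_nonneg fun n _ => mul_nonneg (nu_nonneg _ _ _ _) (by split_ifs; exacts [hw0 n, le_rfl])
  have hl4 := log4X (by linarith : 4 ≤ X)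
  have hl40 : 0 ≤ Real.log (4 * X) := Real.log_nonneg (by linarith)
  have s9 : k * Real.log (4 * X) * ∑ n ∈ Icc 1 ⌊3 * X⌋₊, nu X W a0 n * w n ≤
      800 * k * (LL X * Q) * I + 5 * k * (A.card : ℝ) ^ 2 * (Real.log (4 * X) * Real.exp (2 * LL X)) := by
    have e1 : (∑ n ∈ Icc 1 ⌊3 * X⌋₊, nu X W a0 n * w n) ≤ Q * (2 * I) + (A.card : ℝ) ^ 2 * (5 * Real.exp (2 * LL X)) := by
      refine s1.trans ?_
      rw [← hIdef]
      have : ε1 ≤ I := by
        rw [hε1, div_le_iff₀ hKpos]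
        have : 1 ≤ K := by rw [hK]; have h0 : (0:ℝ) ≤ K0 := Nat.cast_nonneg _; linarith only [h0]
        exact le_mul_of_one_le_right hI.le this
      have h10 : Q * (I + ε1) ≤ Q * (2 * I) := mul_le_mul_of_nonneg_left (by linarith) hQ0
      have h11 : MPhi X * (1 / (W:ℝ)) * (1 / (LL X * BE E) ^ (K0 + 1)) * (I + ε1) = Q * (I + ε1) := rfl
      rw [h11]
      linarith
    have hk0 : (0:ℝ) ≤ k := Nat.cast_nonneg k
    calc k * Real.log (4 * X) * ∑ n ∈ Icc 1 ⌊3 * X⌋₊, nu X W a0 n * w n ≤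
        k * Real.log (4 * X) * (Q * (2 * I) + (A.card : ℝ) ^ 2 * (5 * Real.exp (2 * LL X))) :=
          mul_le_mul_of_nonneg_left e1 (by positivity)
      _ = k * Q * (2 * I) * Real.log (4 * X) + 5 * k * (A.card : ℝ) ^ 2 * (Real.log (4 * X) * Real.exp (2 * LL X)) := by ring
      _ ≤ k * Q * (2 * I) * (400 * LL X) + 5 * k * (A.card : ℝ) ^ 2 * (Real.log (4 * X) * Real.exp (2 * LL X)) := by
          gcongr
      _ = _ := by ring
  have s10 : LL X * Q * (I / 2) ≤ K * Real.log (4 * X) * S := by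
    have e1 : (LL X * Q / 800) * ((801 + 640000 * k) * I - I) = LL X * Q * I + 800 * k * (LL X * Q) * I := by ring
    have e2 : K * (A.card : ℝ) ^ 2 * err2 + 5 * k * (A.card : ℝ) ^ 2 * (Real.log (4 * X) * Real.exp (2 * LL X)) ≤
        I / 2 * (LL X * Q) := by
      refine le_trans ?_ s4
      rw [hcE]
      have hB0 : 0 ≤ BVe K0 X W Bc := BVe_nonneg _ _ _ _
      have h12 : 0 ≤ err2 := by
        rw [herr2]
        apply add_nonneg hB0
        positivity
      exact alg1 (by positivity) (by positivity) h12 (by positivity) rfl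
    rw [e1] at s6
    linarith
  have s11 : Q * (I / (800 * K)) ≤ S := by
    have e1 : LL X * Q * (I / 2) ≤ K * (400 * LL X) * S := by
      refine s10.trans ?_
      gcongr
    have e2 : Q * (I / 2) ≤ K * 400 * S := by
      have : LL X * (Q * (I / 2)) ≤ LL X * (K * 400 * S) := by linarith
      exact le_of_mul_le_mul_left this hL0
    calc Q * (I / (800 * K)) = (Q * (I / 2)) / (400 * K) := by field_simp; ring
      _ ≤ (K * 400 * S) / (400 * K) := by gcongr
      _ = S := by field_simp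
  -- remove the non rough part
  have s12 : S ≤ ∑ n ∈ Icc 1 ⌊3 * X⌋₊, nu X W a0 n *
        (if (k + 1 ≤ (univ.filter (fun j => (n + t j).Prime)).card) ∧ (∀ j, ∀ p ∈ PS δ X, ¬ p ∣ n + t j) then w n else 0) +
      ∑ n ∈ Icc 1 ⌊3 * X⌋₊, ∑ j : Fin (K0 + 1), ∑ p ∈ PS δ X,
        nu X W a0 n * (if (p : ℤ) ∣ (n : ℤ) + t j then w n else 0) := by
    rw [hS, ← sum_add_distrib]
    apply sum_le_sum
    intro n _
    have hnu := nu_nonneg X W a0 n
    have hnn : 0 ≤ ∑ j : Fin (K0 + 1), ∑ p ∈ PS δ X, nu X W a0 n * (if (p : ℤ) ∣ (n : ℤ) + t j then w n else 0) := by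
      apply sum_nonneg; intro j _
      apply sum_nonneg; intro p _
      apply mul_nonneg hnu
      split_ifs
      · exact hw0 n
      · exact le_rfl
    by_cases h10 : k + 1 ≤ (univ.filter (fun j => (n + t j).Prime)).card
    · by_cases h11 : ∀ j, ∀ p ∈ PS δ X, ¬ p ∣ n + t j
      · rw [if_pos h10, if_pos ⟨h10, h11⟩]
        linarith
      · rw [if_pos h10, if_neg (fun h => h11 h.2), mul_zero, zero_add]
        push Not at h11
        obtain ⟨j, p, hp, hpd⟩ := h11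
        have e1 : nu X W a0 n * w n = nu X W a0 n * (if (p : ℤ) ∣ (n : ℤ) + t j then w n else 0) := by
          rw [if_pos]
          have e : ((n + t j : ℕ) : ℤ) = (n : ℤ) + t j := by push_cast; ring
          rw [← e]
          exact Int.natCast_dvd_natCast.2 hpd
        rw [e1]
        have hterm : ∀ (j : Fin (K0 + 1)) (p : ℕ), 0 ≤ nu X W a0 n * (if (p : ℤ) ∣ (n : ℤ) + t j then w n else 0) := by
          intro j p
          apply mul_nonneg hnu
          split_ifs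
          · exact hw0 n
          · exact le_rfl
        refine le_trans (single_le_sum (f := fun p : ℕ => nu X W a0 n * (if (p : ℤ) ∣ (n : ℤ) + t j then w n else 0))
          (fun p _ => hterm j p) hp) ?_
        exact single_le_sum (f := fun j => ∑ p ∈ PS δ X, nu X W a0 n * (if (p : ℤ) ∣ (n : ℤ) + t j then w n else 0))
          (fun j _ => sum_nonneg fun p _ => hterm j p) (mem_univ j)
    · rw [if_neg h10, if_neg (fun h => h10 h.1), mul_zero, zero_add]
      exact hnn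
  have s13 : C * δ * Q ≤ I / (1600 * K) * Q := mul_le_mul_of_nonneg_right hδC hQ0
  have s14 : Q * (I / (800 * K)) = 2 * (I / (1600 * K) * Q) := by field_simp; ring
  have s5' : ∑ n ∈ Icc 1 ⌊3 * X⌋₊, ∑ j : Fin (K0 + 1), ∑ p ∈ PS δ X,
        nu X W a0 n * (if (p : ℤ) ∣ (n : ℤ) + t j then w n else 0) ≤ C * δ * Q := s5
  linarith

open Classical in
/-- many `n` with several primes and no small prime factor, counted without weight -/
theorem pos1M (k : ℕ) : ∃ K : ℕ, 1 ≤ K ∧ ∃ δ : ℝ, 0 < δ ∧ δ ≤ 1 / 10 ∧ ∃ c0 : ℝ, 0 < c0 ∧ ∃ z : ℕ, ∀ m₀ : ℕ, 1 ≤ m₀ → ∀ᶠ X : ℝ in atTop,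
    ∀ (W : ℕ) (E : Finset ℕ) (a0 : ℕ) (t : Fin K → ℕ), CS X z W E → SqM m₀ W → DT E t →
      (∀ j, (a0 + t j).Coprime W) → (∀ j, (t j : ℝ) ≤ Real.sqrt X) →
      (∑ p ∈ E.filter (fun p => ¬ p ∣ W), (1 : ℝ) / p ≤ δ) → (W.totient : ℝ) ≤ 2 * (W * BE E) →
      c0 * QQ K X W E ≤ ∑ n ∈ Icc 1 ⌊3 * X⌋₊, nu X W a0 n *
        (if (k + 1 ≤ (univ.filter (fun j => (n + t j).Prime)).card) ∧ (∀ j, Rg δ X (n + t j)) then 1 else 0) := by
  obtain ⟨K0, B, f, A, hf1, δ, hδ, hδ1, c0, hc0, z, h⟩ := positivityM k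
  set D : ℝ := ((A.card : ℝ) * (2 ^ ⌈400 / δ⌉₊) ^ (K0 + 1)) ^ 2 + 1 with hD
  have hD0 : 0 < D := by positivity
  refine ⟨K0 + 1, by omega, δ, hδ, hδ1, c0 / D, by positivity, z, fun m₀ hm₀ => ?_⟩
  filter_upwards [h m₀ hm₀, eventually_ge_atTop 4, LL_tendsto.eventually_ge_atTop 1] with X h1 h4 h6
  intro W E a0 t hCS hWsq hDT hcop ht hE1 hBW
  have h2 := h1 W E a0 t hCS hWsq hDT hcop ht hE1 hBW
  rw [div_mul_eq_mul_div, div_le_iff₀ hD0, sum_mul]
  refine h2.trans ?_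
  apply sum_le_sum
  intro n hn
  rw [mem_Icc] at hn
  have hn3 : (n : ℝ) ≤ 3 * X := (Nat.le_floor_iff (by linarith)).1 hn.2
  have hnu := nu_nonneg X W a0 n
  rw [mul_assoc]
  apply mul_le_mul_of_nonneg_left _ hnu
  by_cases hc : (k + 1 ≤ (univ.filter (fun j => (n + t j).Prime)).card) ∧ (∀ j, ∀ p ∈ PS δ X, ¬ p ∣ n + t j)
  · have hc' : (k + 1 ≤ (univ.filter (fun j => (n + t j).Prime)).card) ∧ (∀ j, Rg δ X (n + t j)) := hc
    rw [if_pos hc, if_pos hc', one_mul]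
    have hsq : Real.sqrt X ≤ X := by
      rw [Real.sqrt_le_left (by linarith)]
      nlinarith
    have hV : ∀ (j : Fin (K0 + 1)) (l : Fin B), |VVm E (RR X) (LL X) (f l) ((n : ℤ) + t j)| ≤ 2 ^ ⌈400 / δ⌉₊ := by
      intro j l
      have e : (n : ℤ) + t j = ((n + t j : ℕ) : ℤ) := by push_cast; ring
      rw [e]
      apply VV_rg_le hδ h4 h6 (by omega) _ (hc'.2 j) E _ _ (hf1 l)
      push_cast
      have := ht j
      linarith
    have habs : |sqw E X f A (fun j => (n : ℤ) + t j)| ≤ (A.card : ℝ) * (2 ^ ⌈400 / δ⌉₊) ^ (K0 + 1) := by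
      unfold sqw
      refine (abs_sum_le_sum_abs _ _).trans ?_
      rw [← nsmul_eq_mul]
      apply sum_le_card_nsmul
      intro a _
      rw [abs_prod]
      calc ∏ j : Fin (K0 + 1), |VVm E (RR X) (LL X) (f (a j)) ((n : ℤ) + t j)| ≤ ∏ _j : Fin (K0 + 1), (2:ℝ) ^ ⌈400 / δ⌉₊ :=
            Finset.prod_le_prod (fun j _ => abs_nonneg _) (fun j _ => hV j (a j))
        _ = _ := by rw [prod_const, card_univ, Fintype.card_fin]
    have hsqw : sqw E X f A (fun j => (n : ℤ) + t j) ^ 2 ≤ ((A.card : ℝ) * (2 ^ ⌈400 / δ⌉₊) ^ (K0 + 1)) ^ 2 := by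
      rw [← sq_abs]
      exact pow_le_pow_left₀ (abs_nonneg _) habs 2
    rw [hD]
    linarith
  · have hc' : ¬ ((k + 1 ≤ (univ.filter (fun j => (n + t j).Prime)).card) ∧ (∀ j, Rg δ X (n + t j))) := hc
    rw [if_neg hc, if_neg hc', zero_mul]

end Pool.Agent.TH891.PI
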