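import Pool.Agent.TH891.PI.M1

set_option autoImplicit false

/-! # The residue class: `p ≡ c (mod f)`, `g = (c - 1, f)` and `(p - 1) / g` without small prime factors -/

namespace Pool.Agent.TH891.PI

open Finset
open Pool.Agent.H387R2.MB

lemma class2 (f c y : ℕ) (hf : 0 < f) (hf2 : 2 ∣ f) (hc : c.Coprime f) (hc1 : 1 ≤ c) :
    ∃ W1 c2 : ℕ, Squarefree W1 ∧ (∀ q : ℕ, q.Prime → q ≤ y → q ∣ f ^ 2 * W1) ∧
      (∀ q : ℕ, q.Prime → q ∣ f ^ 2 * W1 → q ∣ f ∨ q ≤ y) ∧ c2.Coprime (f ^ 2 * W1) ∧ c2 ≡ c [MOD f] ∧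
      ∀ N : ℕ, N ≡ c2 [MOD f ^ 2 * W1] → 1 ≤ N → Nat.gcd (c - 1) f ∣ N - 1 ∧
        ∀ q : ℕ, q.Prime → q ∣ f ^ 2 * W1 → ¬ q ∣ (N - 1) / Nat.gcd (c - 1) f := by
  classical
  obtain ⟨g, hg⟩ : ∃ g, g = Nat.gcd (c - 1) f := ⟨_, rfl⟩
  rw [← hg]
  have hg0 : 0 < g := by rw [hg]; exact Nat.gcd_pos_of_pos_right _ hf
  obtain ⟨c1, hc1'⟩ : g ∣ c - 1 := by rw [hg]; exact Nat.gcd_dvd_left _ _
  obtain ⟨f1, hf1⟩ : g ∣ f := by rw [hg]; exact Nat.gcd_dvd_right _ _
  have hf10 : 0 < f1 := by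
    rcases Nat.eq_zero_or_pos f1 with h | h
    · rw [h, mul_zero] at hf1; omega
    · exact h
  have hcop1 : Nat.Coprime c1 f1 := by
    have h1 : Nat.gcd (g * c1) (g * f1) = g := by rw [← hc1', ← hf1]; exact hg.symm
    rw [Nat.gcd_mul_left] at h1
    exact Nat.eq_of_mul_eq_mul_left hg0 (by rw [h1, mul_one])
  have : NeZero f1 := ⟨hf10.ne'⟩
  obtain ⟨w, hwf, hwp, hw1⟩ := Nat.forall_exists_prime_gt_and_eq_mod ((ZMod.isUnit_iff_coprime c1 f1).2 hcop1) f
  have hw1' : w ≡ c1 [MOD f1] := (ZMod.natCast_eq_natCast_iff _ _ _).1 hw1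
  -- the class modulo `f ^ 2`
  obtain ⟨c', hc'⟩ : ∃ c' : ℕ, c' = 1 + g * w := ⟨_, rfl⟩
  have hc'c : c' ≡ c [MOD f] := by
    have h1 : g * w ≡ g * c1 [MOD g * f1] := Nat.ModEq.mul_left' g hw1'
    have h2 : 1 + g * w ≡ 1 + g * c1 [MOD f] := by rw [hf1]; exact Nat.ModEq.add_left 1 h1
    rw [hc']
    have h3 : 1 + g * c1 = c := by omega
    rwa [h3] at h2
  have hc'f : c'.Coprime f := by
    rw [Nat.Coprime, hc'c.gcd_eq]
    exact hc
  have hwcop : ∀ q : ℕ, q.Prime → q ∣ f → ¬ q ∣ w := by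
    intro q hq hqf hqw
    have h1 := (Nat.prime_dvd_prime_iff_eq hq hwp).1 hqw
    have h2 := Nat.le_of_dvd hf hqf
    omega
  obtain ⟨W1, hW1⟩ : ∃ W1 : ℕ, W1 = ∏ q ∈ ((y + 1).primesBelow).filter (fun q => ¬ q ∣ f), q := ⟨_, rfl⟩
  have hW1q : ∀ q : ℕ, q.Prime → (q ∣ W1 ↔ q ≤ y ∧ ¬ q ∣ f) := by
    intro q hq
    rw [hW1, Prime.dvd_finsetProd_iff hq.prime]
    constructor
    · rintro ⟨r, hr, hqr⟩
      rw [mem_filter, Nat.mem_primesBelow] at hr
      have := (Nat.prime_dvd_prime_iff_eq hq hr.1.2).1 hqr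
      rw [this]
      exact ⟨by omega, hr.2⟩
    · rintro ⟨h1, h2⟩
      exact ⟨q, mem_filter.2 ⟨Nat.mem_primesBelow.2 ⟨by omega, hq⟩, h2⟩, dvd_rfl⟩
  have hW1sq : Squarefree W1 := by
    rw [hW1]
    apply Finset.squarefree_prod_of_pairwise_isCoprime
    · intro i hi j hj hij
      rw [mem_coe, mem_filter, Nat.mem_primesBelow] at hi hj
      exact Nat.coprime_iff_isRelPrime.1 ((Nat.coprime_primes hi.1.2 hj.1.2).2 hij)
    · intro i hi
      rw [mem_filter, Nat.mem_primesBelow] at hi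
      exact hi.1.2.prime.squarefree
  have hW10 : 0 < W1 := Nat.pos_of_ne_zero hW1sq.ne_zero
  have hcop2 : Nat.Coprime (f ^ 2) W1 := by
    apply Nat.Coprime.pow_left
    apply Nat.Coprime.symm
    rw [hW1]
    apply Nat.Coprime.prod_left
    intro q hq
    rw [mem_filter, Nat.mem_primesBelow] at hq
    exact (Nat.Prime.coprime_iff_not_dvd hq.1.2).2 hq.2
  obtain ⟨c2, h21, h22⟩ := Nat.chineseRemainder hcop2 c' (W1 - 1)
  have hc2W1 : (W1 : ℤ) ∣ (c2 : ℤ) + 1 := by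
    have h1 := Nat.modEq_iff_dvd.1 h22.symm
    rw [Nat.cast_sub (by omega)] at h1
    have e : (c2 : ℤ) + 1 = ((c2 : ℤ) - ((W1 : ℤ) - ((1 : ℕ) : ℤ))) + W1 := by push_cast; ring
    rw [e]
    exact dvd_add h1 dvd_rfl
  have hsplit : ∀ q : ℕ, q.Prime → q ∣ f ^ 2 * W1 → q ∣ f ∨ (q ∣ W1 ∧ q ≤ y ∧ ¬ q ∣ f) := by
    intro q hq hqd
    rcases hq.dvd_mul.1 hqd with h | h
    · left; exact hq.dvd_of_dvd_pow h
    · right; exact ⟨h, (hW1q q hq).1 h⟩
  refine ⟨W1, c2, hW1sq, ?_, ?_, ?_, ?_, ?_⟩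
  · intro q hq hqy
    by_cases h : q ∣ f
    · exact (dvd_pow h two_ne_zero).trans (Dvd.intro _ rfl)
    · exact ((hW1q q hq).2 ⟨hqy, h⟩).trans (Dvd.intro_left _ rfl)
  · intro q hq hqd
    rcases hsplit q hq hqd with h | h
    · left; exact h
    · right; exact h.2.1
  · rw [Nat.coprime_mul_iff_right]
    constructor
    · have h1 : c2 ≡ c' [MOD f] := h21.of_dvd (dvd_pow_self f two_ne_zero)
      apply Nat.Coprime.pow_right
      rw [Nat.Coprime, h1.gcd_eq]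
      exact hc'f
    · apply Nat.Coprime.symm
      by_contra hcop
      obtain ⟨q, hq, hqW, hqc⟩ := Nat.Prime.not_coprime_iff_dvd.1 hcop
      have h1 : (q : ℤ) ∣ 1 := by
        have := dvd_sub ((Int.natCast_dvd_natCast.2 hqW).trans hc2W1) (Int.natCast_dvd_natCast.2 hqc)
        simpa using this
      have h2 : q ∣ 1 := by exact_mod_cast h1
      exact hq.one_lt.ne' (Nat.dvd_one.1 h2)
  · exact (h21.of_dvd (dvd_pow_self f two_ne_zero)).trans hc'c
  · intro N hN hN1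
    have hNf2 : N ≡ c' [MOD f ^ 2] := (hN.of_dvd (Dvd.intro _ rfl)).trans h21
    have hff : f ^ 2 = g * (f * f1) := by
      have : f ^ 2 = f * f := sq f
      rw [this]
      nth_rewrite 2 [hf1]
      ring
    have hgN : g ∣ N - 1 := by
      have h1 : 1 ≡ N [MOD g] := by
        have h2 : N ≡ c' [MOD g] := hNf2.of_dvd (by rw [hff]; exact Dvd.intro _ rfl)
        have h3 : c' ≡ 1 [MOD g] := by
          rw [hc']
          exact (Nat.modEq_iff_dvd' (by omega)).2 (by rw [Nat.add_sub_cancel_left]; exact Dvd.intro _ rfl) |>.symm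
        exact (h2.trans h3).symm
      exact (Nat.modEq_iff_dvd' hN1).1 h1
    refine ⟨hgN, fun q hq hqd hqN => ?_⟩
    obtain ⟨v, hv⟩ := hgN
    rw [hv, Nat.mul_div_cancel_left _ hg0] at hqN
    rcases hsplit q hq hqd with h | h
    · -- `q ∣ f`
      have h1 : g * v ≡ g * w [MOD g * (f * f1)] := by
        rw [← hff]
        have h2 : (N - 1) + 1 ≡ g * w + 1 [MOD f ^ 2] := by
          rw [Nat.sub_add_cancel hN1, add_comm (g * w) 1, ← hc']
          exact hNf2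
        rw [← hv]
        exact Nat.ModEq.add_right_cancel' 1 h2
      have h3 : v ≡ w [MOD f * f1] := Nat.ModEq.mul_left_cancel' hg0.ne' h1
      have h4 : v ≡ w [MOD q] := h3.of_dvd (h.trans (Dvd.intro _ rfl))
      exact hwcop q hq h ((h4.dvd_iff dvd_rfl).1 hqN)
    · -- `q ∣ W1`
      have h1 : (q : ℤ) ∣ (N : ℤ) + 1 := by
        have h2 : N ≡ c2 [MOD q] := hN.of_dvd hqd
        have h3 := Nat.modEq_iff_dvd.1 h2
        have h4 : (q : ℤ) ∣ (c2 : ℤ) + 1 := (Int.natCast_dvd_natCast.2 h.1).trans hc2W1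
        have e : (N : ℤ) + 1 = ((c2 : ℤ) + 1) - (c2 - N) := by ring
        rw [e]
        exact dvd_sub h4 h3
      have h2 : (q : ℤ) ∣ (N : ℤ) - 1 := by
        have h3 : q ∣ N - 1 := by rw [hv]; exact hqN.trans (Dvd.intro_left _ rfl)
        have h4 := Int.natCast_dvd_natCast.2 h3
        rw [Nat.cast_sub hN1] at h4
        exact_mod_cast h4
      have h3 : (q : ℤ) ∣ ((2 : ℕ) : ℤ) := by
        have h4 := dvd_sub h1 h2
        have e : (N : ℤ) + 1 - (N - 1) = ((2 : ℕ) : ℤ) := by push_cast; ring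
        rwa [e] at h4
      have h4 := (Nat.prime_dvd_prime_iff_eq hq Nat.prime_two).1 (Int.natCast_dvd_natCast.1 h3)
      rw [h4] at h
      exact h.2.2 hf2

/-- the properties of modulus, class and shifts -/
structure Cf (f c : ℕ) {K : ℕ} (y W a0 H : ℕ) (t : Fin K → ℕ) : Prop where
  pos : 0 < W
  sqm : SqM (f ^ 2) W
  sm : ∀ q : ℕ, q.Prime → q ≤ y → q ∣ W
  cop : ∀ j, (a0 + t j).Coprime W
  tH : ∀ j, 2 ≤ t j ∧ t j ≤ H
  inj : Function.Injective t
  dt : DT W.primeFactors t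
  pr : ∀ n : ℕ, n ≡ a0 [MOD W] → W < n → ∀ h, 1 ≤ h → h ≤ H → (n + h).Prime → ∃ j, h = t j
  gd : ∀ n : ℕ, n ≡ a0 [MOD W] → ∀ j, Nat.gcd (c - 1) f ∣ n + t j - 1
  pm : ∀ n : ℕ, n ≡ a0 [MOD W] → ∀ j, ∀ q : ℕ, q.Prime → q ∣ W → ¬ q ∣ (n + t j - 1) / Nat.gcd (c - 1) f
  cl : ∀ n : ℕ, n ≡ a0 [MOD W] → ∀ j, n + t j ≡ c [MOD f]

theorem cf_exists (f c : ℕ) (hf : 0 < f) (hf2 : 2 ∣ f) (hc : c.Coprime f) (hc1' : 1 ≤ c) (K y : ℕ) (hyf : f ≤ y)
    (hyK : K ≤ y) : ∃ (W a0 H : ℕ) (t : Fin K → ℕ), Cf f c y W a0 H t := by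
  classical
  have hy : 2 ≤ y := (Nat.le_of_dvd hf hf2).trans hyf
  obtain ⟨W1, c2, hW1sq, hsm, hfac, hc2cop, hc2c, hc2N⟩ := class2 f c y hf hf2 hc hc1'
  obtain ⟨W0, hW0d⟩ : ∃ W0, W0 = f ^ 2 * W1 := ⟨_, rfl⟩
  rw [← hW0d] at hsm hfac hc2cop hc2N
  have hW10 : 0 < W1 := Nat.pos_of_ne_zero hW1sq.ne_zero
  have hW0 : 0 < W0 := by rw [hW0d]; positivity
  have hfW0 : f ∣ W0 := by rw [hW0d]; exact (dvd_pow_self f two_ne_zero).trans (Dvd.intro _ rfl)
  have h2W : 2 ∣ W0 := hf2.trans hfW0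
  have hqW : ∀ q : ℕ, q.Prime → (q ∣ W0 ↔ q ≤ y) := by
    intro q hq
    constructor
    · intro h
      rcases hfac q hq h with h1 | h1
      · exact (Nat.le_of_dvd hf h1).trans hyf
      · exact h1
    · exact hsm q hq
  have hcodd : ¬ 2 ∣ c2 := by
    intro h
    have := Nat.dvd_gcd h h2W
    rw [hc2cop] at this
    omega
  obtain ⟨H, hH⟩ : ∃ H, H = K * W0 := ⟨_, rfl⟩
  obtain ⟨l, hl⟩ : ∃ l : ℕ → ℕ, l = fun h => Nat.nth Nat.Prime (y + H + h) := ⟨_, rfl⟩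
  have hlp : ∀ h, (l h).Prime := fun h => by rw [hl]; exact Nat.prime_nth_prime _
  have hlbig : ∀ h, y + H + h + 2 ≤ l h := fun h => by rw [hl]; exact Nat.add_two_le_nth_prime _
  have hlinj : ∀ h h', l h = l h' → h = h' := by
    intro h h' he
    rw [hl] at he
    have := Nat.nth_injective Nat.infinite_setOfPred_prime he
    omega
  obtain ⟨Hs, hHs⟩ : ∃ Hs : Finset ℕ, Hs = (Icc 1 H).filter (fun h => Even h ∧ ¬ W0 ∣ h) := ⟨_, rfl⟩
  have h0Hs : 0 ∉ Hs := by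
    rw [hHs, mem_filter, mem_Icc]; omega
  obtain ⟨s, hs⟩ : ∃ s : ℕ → ℕ, s = fun i => if i = 0 then W0 else l i := ⟨_, rfl⟩
  obtain ⟨a, ha⟩ : ∃ a : ℕ → ℕ, a = fun i => if i = 0 then c2 else i * (l i - 1) := ⟨_, rfl⟩
  have hs0 : s 0 = W0 := by simp [hs]
  have ha0' : a 0 = c2 := by simp [ha]
  have hspos : ∀ i, s i ≠ 0 := by
    intro i
    rw [hs]
    beta_reduce
    split_ifs
    · omega
    · exact (hlp i).ne_zero
  have hsc : ∀ i, i ≠ 0 → s i = l i := fun i hi => by simp [hs, hi]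
  have hac : ∀ i, i ≠ 0 → a i = i * (l i - 1) := fun i hi => by simp [ha, hi]
  have hW0l : ∀ i, Nat.Coprime W0 (l i) := by
    intro i
    rw [Nat.coprime_comm, Nat.Prime.coprime_iff_not_dvd (hlp i), hqW _ (hlp i)]
    have := hlbig i
    omega
  have hll : ∀ i j, i ≠ j → Nat.Coprime (l i) (l j) := by
    intro i j hij
    rw [Nat.coprime_primes (hlp i) (hlp j)]
    exact fun h => hij (hlinj i j h)
  have hpair : ∀ i j, i ≠ j → Nat.Coprime (s i) (s j) := by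
    intro i j hij
    by_cases hi : i = 0
    · rw [hi, hs0, hsc j (by omega)]; exact hW0l j
    · by_cases hj : j = 0
      · rw [hj, hs0, hsc i hi]; exact (hW0l i).symm
      · rw [hsc i hi, hsc j hj]; exact hll i j hij
  obtain ⟨a0, ha0⟩ := Nat.chineseRemainderOfFinset a s (insert 0 Hs) (fun i _ => hspos i)
    (fun i _ j _ hij => hpair i j hij)
  obtain ⟨W, hW⟩ : ∃ W : ℕ, W = ∏ i ∈ insert 0 Hs, s i := ⟨_, rfl⟩
  have hWeq : W = W0 * ∏ i ∈ Hs, s i := by rw [hW, prod_insert h0Hs, hs0]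
  have hWpos : 0 < W := by
    rw [hW]
    exact prod_pos fun i _ => Nat.pos_of_ne_zero (hspos i)
  have hsW : ∀ i ∈ insert 0 Hs, s i ∣ W := fun i hi => by rw [hW]; exact dvd_prod_of_mem _ hi
  have hW0W : W0 ∣ W := by
    have := hsW 0 (mem_insert_self _ _)
    rwa [hs0] at this
  have hlW : ∀ h ∈ Hs, l h ∣ W := by
    intro h hh
    have := hsW h (mem_insert_of_mem hh)
    rwa [hsc h (fun h0 => h0Hs (h0 ▸ hh))] at this
  have hWfac : ∀ q : ℕ, q.Prime → q ∣ W → q ∣ W0 ∨ ∃ h ∈ Hs, q = l h := by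
    intro q hq hqd
    rw [hWeq] at hqd
    rcases hq.dvd_mul.1 hqd with h1 | h1
    · left; exact h1
    · right
      rw [Prime.dvd_finsetProd_iff hq.prime] at h1
      obtain ⟨h, hh, hqh⟩ := h1
      have hh0 : h ≠ 0 := fun h0 => h0Hs (h0 ▸ hh)
      rw [hsc h hh0] at hqh
      exact ⟨h, hh, (Nat.prime_dvd_prime_iff_eq hq (hlp h)).1 hqh⟩
  have hna : ∀ n : ℕ, n ≡ a0 [MOD W] → ∀ i ∈ insert 0 Hs, n ≡ a i [MOD s i] := by
    intro n hn i hi
    exact (hn.of_dvd (hsW i hi)).trans (ha0 i hi)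
  have hnc : ∀ n : ℕ, n ≡ a0 [MOD W] → n ≡ c2 [MOD W0] := by
    intro n hn
    have := hna n hn 0 (mem_insert_self _ _)
    rwa [ha0', hs0] at this
  have hnl : ∀ n : ℕ, n ≡ a0 [MOD W] → ∀ h ∈ Hs, l h ∣ n + h := by
    intro n hn h hh
    have hh0 : h ≠ 0 := fun h0 => h0Hs (h0 ▸ hh)
    have h1 := hna n hn h (mem_insert_of_mem hh)
    rw [hac h hh0, hsc h hh0] at h1
    have h2 := h1.add_right h
    have e : h * (l h - 1) + h = h * l h := by
      have := (hlp h).one_lt.le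
      obtain ⟨w, hw⟩ := Nat.exists_eq_add_of_le this
      rw [hw, Nat.add_sub_cancel_left]
      ring
    rw [e] at h2
    exact (h2.dvd_iff dvd_rfl).2 (Dvd.intro_left _ rfl)
  obtain ⟨t, ht⟩ : ∃ t : Fin K → ℕ, ∀ j, t j = W0 * ((j : ℕ) + 1) := ⟨_, fun _ => rfl⟩
  have htW : ∀ j, W0 ∣ t j := fun j => by rw [ht]; exact Dvd.intro _ rfl
  have htH : ∀ j, t j ≤ H := by
    intro j
    rw [ht, hH, mul_comm K]
    exact Nat.mul_le_mul_left _ j.2
  have ht2 : ∀ j, 2 ≤ t j := by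
    intro j
    have h1 : W0 ≤ t j := by
      rw [ht]; exact Nat.le_mul_of_pos_right _ (by omega)
    exact (Nat.le_of_dvd hW0 h2W).trans h1
  have htinj : Function.Injective t := by
    intro i j hij
    rw [ht, ht] at hij
    have := Nat.eq_of_mul_eq_mul_left hW0 hij
    exact Fin.ext (by omega)
  have hntc : ∀ n : ℕ, n ≡ a0 [MOD W] → ∀ j, n + t j ≡ c2 [MOD W0] := by
    intro n hn j
    have h3 : t j ≡ 0 [MOD W0] := (Nat.modEq_zero_iff_dvd).2 (htW j)
    exact Nat.ModEq.add (hnc n hn) h3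
  have hsq : SqM (f ^ 2) W := by
    refine ⟨W1 * ∏ i ∈ Hs, s i, ?_, ?_⟩
    · rw [hWeq, hW0d]; ring
    · have hcop : Nat.Coprime W1 (∏ i ∈ Hs, s i) := by
        apply Nat.Coprime.prod_right
        intro i hi
        rw [hsc i (fun h0 => h0Hs (h0 ▸ hi))]
        exact Nat.Coprime.coprime_dvd_left (by rw [hW0d]; exact Dvd.intro_left _ rfl) (hW0l i)
      refine Nat.squarefree_mul_iff.2 ⟨hcop, hW1sq, ?_⟩
      apply Finset.squarefree_prod_of_pairwise_isCoprime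
      · intro i _ j _ hij
        exact Nat.coprime_iff_isRelPrime.1 (hpair i j hij)
      · intro i hi
        rw [hsc i (fun h0 => h0Hs (h0 ▸ hi))]
        exact (hlp i).prime.squarefree
  -- `l h` does not divide `p - 1`
  have hlpm : ∀ n : ℕ, n ≡ a0 [MOD W] → ∀ j, ∀ h ∈ Hs, ¬ l h ∣ n + t j - 1 := by
    intro n hn j h hh hqd
    have hn1 : 1 ≤ n + t j := by have := ht2 j; omega
    have h2 := hnl n hn h hh
    have h3 : (l h : ℤ) ∣ (t j : ℤ) - 1 - h := by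
      have h4 := dvd_sub (Int.natCast_dvd_natCast.2 hqd) (Int.natCast_dvd_natCast.2 h2)
      rw [Nat.cast_sub hn1] at h4
      push_cast at h4
      have e : (n : ℤ) + t j - 1 - (n + h) = t j - 1 - h := by ring
      rwa [e] at h4
    rw [hHs, mem_filter, mem_Icc] at hh
    have h5 : (t j : ℤ) - 1 - h = 0 := by
      apply Int.eq_zero_of_abs_lt_dvd h3
      rw [abs_lt]
      have := hlbig h
      have := htH j
      have := hh.1.2
      constructor <;> omega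
    obtain ⟨v, hv⟩ := hh.2.1
    obtain ⟨w, hw⟩ := h2W.trans (htW j)
    omega
  refine ⟨W, a0, H, t, hWpos, hsq, fun q hq hqy => ((hqW q hq).2 hqy).trans hW0W, ?_, fun j => ⟨ht2 j, htH j⟩, htinj,
    ?_, ?_, ?_, ?_, ?_⟩
  · -- coprime
    intro j
    by_contra hcop
    obtain ⟨q, hq, hqt, hqW'⟩ := Nat.Prime.not_coprime_iff_dvd.1 hcop
    rcases hWfac q hq hqW' with h1 | ⟨h, hh, h1⟩
    · have h2 : a0 + t j ≡ c2 [MOD W0] := hntc a0 (Nat.ModEq.refl _) j
      have h5 := h2.of_dvd h1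
      have h6 := Nat.dvd_gcd ((h5.dvd_iff dvd_rfl).1 hqt) h1
      rw [hc2cop] at h6
      exact hq.one_lt.ne' (Nat.dvd_one.1 h6)
    · have h2 := hnl a0 (Nat.ModEq.refl _) h hh
      rw [← h1] at h2
      have h3 : (q : ℤ) ∣ (t j : ℤ) - h := by
        have h4 := dvd_sub (Int.natCast_dvd_natCast.2 hqt) (Int.natCast_dvd_natCast.2 h2)
        push_cast at h4
        have e : (a0 : ℤ) + t j - (a0 + h) = t j - h := by ring
        rwa [e] at h4
      rw [hHs, mem_filter, mem_Icc] at hh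
      have h5 : (t j : ℤ) - h = 0 := by
        apply Int.eq_zero_of_abs_lt_dvd h3
        rw [abs_lt]
        have := hlbig h
        have := htH j
        have := hh.1.2
        constructor <;> omega
      have h6 : t j = h := by omega
      exact hh.2.2 (h6 ▸ htW j)
  · -- differences
    intro i j hij p hp hpW hpd
    have hpW' : ¬ p ∣ W := fun h => hpW (Nat.mem_primeFactors.2 ⟨hp, h, hWpos.ne'⟩)
    have hpy : y < p := by
      by_contra hle
      exact hpW' (((hqW p hp).2 (by omega)).trans hW0W)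
    rw [ht, ht] at hpd
    have e : ((W0 * ((i : ℕ) + 1) : ℕ) : ℤ) - ((W0 * ((j : ℕ) + 1) : ℕ) : ℤ) = (W0 : ℤ) * ((i : ℕ) - (j : ℕ)) := by
      push_cast; ring
    rw [e] at hpd
    rcases (Nat.prime_iff_prime_int.1 hp).dvd_or_dvd hpd with h1 | h1
    · exact hpW' ((Int.natCast_dvd_natCast.1 h1).trans hW0W)
    · have h2 : ((i : ℕ) : ℤ) - (j : ℕ) = 0 := by
        apply Int.eq_zero_of_abs_lt_dvd h1
        rw [abs_lt]
        have := i.2
        have := j.2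
        constructor <;> omega
      exact hij (Fin.ext (by omega))
  · -- primes in the interval
    intro n hn hWn h h1 h2 hp
    by_cases hWh : W0 ∣ h
    · obtain ⟨u, hu⟩ := hWh
      have hu1 : 1 ≤ u := by
        rcases Nat.eq_zero_or_pos u with h0 | h0
        · rw [h0, mul_zero] at hu; omega
        · exact h0
      have huK : u ≤ K := by
        rw [hu, hH, mul_comm K] at h2
        exact Nat.le_of_mul_le_mul_left h2 hW0
      refine ⟨⟨u - 1, by omega⟩, ?_⟩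
      rw [ht, hu]
      congr 1
      show u = u - 1 + 1
      omega
    · exfalso
      have h2Wn : n ≡ c2 [MOD 2] := (hnc n hn).of_dvd h2W
      have hnodd : ¬ 2 ∣ n := fun h3 => hcodd ((h2Wn.dvd_iff dvd_rfl).1 h3)
      by_cases he : Even h
      · have hh : h ∈ Hs := by
          rw [hHs, mem_filter, mem_Icc]
          exact ⟨⟨h1, h2⟩, he, hWh⟩
        have h3 := hnl n hn h hh
        have h4 := (Nat.prime_dvd_prime_iff_eq (hlp h) hp).1 h3
        have h5 := Nat.le_of_dvd hWpos (hlW h hh)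
        omega
      · have h3 : 2 ∣ n + h := by
          rw [Nat.not_even_iff_odd] at he
          obtain ⟨v, hv⟩ := he
          omega
        have h4 := (Nat.prime_dvd_prime_iff_eq Nat.prime_two hp).1 h3
        omega
  · -- `g ∣ p - 1`
    intro n hn j
    exact (hc2N (n + t j) (hntc n hn j) (by have := ht2 j; omega)).1
  · -- no small prime factor of `(p - 1) / g`
    intro n hn j q hq hqW' hqd
    have h0 := hc2N (n + t j) (hntc n hn j) (by have := ht2 j; omega)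
    rcases hWfac q hq hqW' with h1 | ⟨h, hh, h1⟩
    · exact h0.2 q hq h1 hqd
    · rw [h1] at hqd
      exact hlpm n hn j h hh (hqd.trans (Nat.div_dvd_of_dvd h0.1))
  · -- the class modulo `f`
    intro n hn j
    exact ((hntc n hn j).of_dvd hfW0).trans hc2c

end Pool.Agent.TH891.PI
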