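import Pool.Agent.H771R4.SE.LS2

set_option autoImplicit false

/-! # Products of characters of several prime moduli and the large sieve -/

namespace Pool.Agent.TH891.PI

open Finset Filter Topology
open Pool.Agent.H386R2.Artin.T1 (cc)
open Pool.Agent.H771R4.SE (sum_pow_eqI sum_cc_sqI cc_sup)

/-- a nonprincipal product of characters of distinct prime moduli comes from a primitive character -/
theorem exists_primitive {ι : Type} [Fintype ι] [DecidableEq ι] (p : ι → ℕ) (hp : ∀ i, (p i).Prime)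
    (hinj : Function.Injective p) (χ : ∀ i, DirichletCharacter ℂ (p i)) (hne : ∃ i, χ i ≠ 1) :
    ∃ f : ℕ, 1 < f ∧ f ∣ ∏ i, p i ∧ ∃ ψ : DirichletCharacter ℂ f, ψ.IsPrimitive ∧
      ∀ a : ℕ, (∀ i, Nat.Coprime a (p i)) → ψ (a : ZMod f) = ∏ i, χ i (a : ZMod (p i)) := by
  obtain ⟨Q, hQ⟩ : ∃ Q : ℕ, Q = ∏ i, p i := ⟨_, rfl⟩
  have hQ0 : Q ≠ 0 := by rw [hQ]; exact prod_ne_zero_iff.2 fun i _ => (hp i).ne_zero
  have : NeZero Q := ⟨hQ0⟩
  have hdvd : ∀ i, p i ∣ Q := fun i => by rw [hQ]; exact dvd_prod_of_mem _ (mem_univ i)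
  obtain ⟨χQ, hχQ⟩ : ∃ χQ : DirichletCharacter ℂ Q, χQ = ∏ i, DirichletCharacter.changeLevel (hdvd i) (χ i) := ⟨_, rfl⟩
  have hcopQ : ∀ a : ℕ, (∀ i, Nat.Coprime a (p i)) → Nat.Coprime a Q := by
    intro a ha
    rw [hQ]
    exact Nat.Coprime.prod_right fun i _ => ha i
  have hval : ∀ a : ℕ, (∀ i, Nat.Coprime a (p i)) → χQ (a : ZMod Q) = ∏ i, χ i (a : ZMod (p i)) := by
    intro a ha
    have h1 : IsCoprime (a : ℤ) (Q : ℤ) := Nat.isCoprime_iff_coprime.2 (hcopQ a ha)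
    have e1 : χQ (a : ZMod Q) = ∏ i, (DirichletCharacter.changeLevel (hdvd i) (χ i)) (a : ZMod Q) := by
      rw [hχQ]
      induction (univ : Finset ι) using Finset.induction_on with
      | empty =>
        rw [prod_empty, prod_empty]
        exact MulChar.one_apply ((ZMod.isUnit_iff_coprime a Q).2 (hcopQ a ha))
      | insert j s hj ih => rw [prod_insert hj, prod_insert hj, MulChar.mul_apply, ih]
    rw [e1]
    apply prod_congr rfl
    intro i _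
    have h2 := DirichletCharacter.changeLevel_eq_cast_of_dvd' (χ i) (hdvd i) h1
    push_cast at h2
    exact h2
  have hχQ1 : χQ ≠ 1 := by
    intro h1
    obtain ⟨i0, hi0⟩ := hne
    have : Fact (p i0).Prime := ⟨hp i0⟩
    -- a unit with nontrivial value
    obtain ⟨u, hu⟩ : ∃ u : (ZMod (p i0))ˣ, χ i0 u ≠ 1 := by
      by_contra hcon
      push Not at hcon
      apply hi0
      ext u
      rw [hcon u, MulChar.one_apply_coe]
    obtain ⟨a, ha⟩ := Nat.chineseRemainderOfFinset (fun i => if i = i0 then (u : ZMod (p i0)).val else 1) p univ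
      (fun i _ => (hp i).ne_zero)
      (fun i _ j _ hij => (Nat.coprime_primes (hp i) (hp j)).2 fun h => hij (hinj h))
    have ha0 : (a : ZMod (p i0)) = u := by
      have h2 := ha i0 (mem_univ _)
      rw [if_pos rfl] at h2
      have h3 := (ZMod.natCast_eq_natCast_iff _ _ _).2 h2
      rw [h3, ZMod.natCast_zmod_val]
    have ha1 : ∀ i, i ≠ i0 → (a : ZMod (p i)) = 1 := by
      intro i hi
      have h2 := ha i (mem_univ _)
      rw [if_neg hi] at h2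
      have h3 := (ZMod.natCast_eq_natCast_iff _ _ _).2 h2
      rw [h3, Nat.cast_one]
    have hcop : ∀ i, Nat.Coprime a (p i) := by
      intro i
      rw [← ZMod.isUnit_iff_coprime]
      by_cases hi : i = i0
      · rw [hi, ha0]; exact u.isUnit
      · rw [ha1 i hi]; exact isUnit_one
    have h2 := hval a hcop
    rw [h1, MulChar.one_apply ((ZMod.isUnit_iff_coprime a Q).2 (hcopQ a hcop)), ← mul_prod_erase univ _ (mem_univ i0),
      ha0, prod_eq_one, mul_one] at h2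
    · exact hu h2.symm
    · intro i hi
      rw [ha1 i (ne_of_mem_erase hi), map_one]
  refine ⟨χQ.conductor, ?_, ?_, χQ.primitiveCharacter, χQ.primitiveCharacter_isPrimitive, ?_⟩
  · have h0 := DirichletCharacter.conductor_ne_zero χQ
    have h1 : χQ.conductor ≠ 1 := fun h => hχQ1 (DirichletCharacter.eq_one_iff_conductor_eq_one.2 h)
    omega
  · rw [← hQ]; exact χQ.conductor_dvd_level
  · intro a ha
    have h1 : IsCoprime (a : ℤ) (Q : ℤ) := Nat.isCoprime_iff_coprime.2 (hcopQ a ha)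
    have h2 := DirichletCharacter.primitiveCharacter_apply_of_isCoprime χQ h1
    push_cast at h2
    rw [h2, hval a ha]

open Classical in
/-- the moduli with a primitive character whose sum over `E` is large -/
noncomputable def BadF (E : Finset ℕ) (M : ℝ) (Y : ℕ) : Finset ℕ :=
  (Icc 1 Y).filter (fun f => 1 < f ∧ ∃ ψ : DirichletCharacter ℂ f, ψ.IsPrimitive ∧ M < ‖∑ a ∈ E, ψ (a : ZMod f)‖)

open Classical in
theorem badF_count (E : Finset ℕ) (N Y r : ℕ) (M K : ℝ) (hE : E ⊆ Icc 1 N) (hM : 0 < M)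
    (hK : ∀ n ∈ Icc 1 (N ^ r), (cc E r n : ℝ) ≤ K) :
    (#(BadF E M Y) : ℝ) * M ^ (2 * r) ≤ 6 * ((N : ℝ) ^ r + (Y : ℝ) ^ 2) * (K * (#E : ℝ) ^ r) := by
  have hLS := Helper112.mult_large_sieve (N ^ r) Y (fun n => (cc E r n : ℂ))
  set bad := BadF E M Y with hbad
  have hchoose : ∀ f ∈ bad, 1 ≤ f ∧ ∃ χ : DirichletCharacter ℂ f, χ.IsPrimitive ∧
      M < ‖∑ q ∈ E, χ (q : ZMod f)‖ := by
    intro f hf
    rw [hbad, BadF, mem_filter, mem_Icc] at hf
    exact ⟨hf.1.1, hf.2.2⟩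
  have hsub : bad ⊆ Icc 1 Y := filter_subset _ _
  have hlow : (bad.card : ℝ) * M ^ (2 * r) ≤ ∑ f ∈ Icc 1 Y, ((f : ℝ) / (Nat.totient f : ℝ)) *
      ∑ χ ∈ (univ : Finset (DirichletCharacter ℂ f)).filter (fun χ => χ.IsPrimitive),
        ‖∑ n ∈ Icc 1 (N ^ r), (cc E r n : ℂ) * χ (n : ZMod f)‖ ^ 2 := by
    rw [← nsmul_eq_mul, ← sum_const]
    refine le_trans (sum_le_sum ?_) (sum_le_sum_of_subset_of_nonneg hsub ?_)
    · intro p hp
      obtain ⟨hp1, χ, hprim, hχM⟩ := hchoose p hp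
      have h1 : M ^ (2 * r) ≤ ‖∑ n ∈ Icc 1 (N ^ r), (cc E r n : ℂ) * χ (n : ZMod p)‖ ^ 2 := by
        rw [← sum_pow_eqI E N r hE p χ, norm_pow, ← pow_mul, mul_comm r 2]
        exact pow_le_pow_left₀ hM.le hχM.le _
      have h2 : ‖∑ n ∈ Icc 1 (N ^ r), (cc E r n : ℂ) * χ (n : ZMod p)‖ ^ 2 ≤
          ∑ χ ∈ (univ : Finset (DirichletCharacter ℂ p)).filter (fun χ => χ.IsPrimitive),
            ‖∑ n ∈ Icc 1 (N ^ r), (cc E r n : ℂ) * χ (n : ZMod p)‖ ^ 2 :=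
        single_le_sum (f := fun χ : DirichletCharacter ℂ p =>
          ‖∑ n ∈ Icc 1 (N ^ r), (cc E r n : ℂ) * χ (n : ZMod p)‖ ^ 2)
          (fun _ _ => sq_nonneg _) (mem_filter.mpr ⟨mem_univ _, hprim⟩)
      have h3 : (1 : ℝ) ≤ (p : ℝ) / (Nat.totient p : ℝ) := by
        have h0 : (0 : ℝ) < (Nat.totient p : ℝ) := by
          exact_mod_cast Nat.totient_pos.mpr hp1
        rw [le_div_iff₀ h0, one_mul]
        exact_mod_cast Nat.totient_le p
      calc M ^ (2 * r) ≤ _ := h1.trans h2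
        _ ≤ _ := le_mul_of_one_le_left (sum_nonneg fun _ _ => sq_nonneg _) h3
    · intro f _ _
      exact mul_nonneg (div_nonneg (Nat.cast_nonneg _) (Nat.cast_nonneg _))
        (sum_nonneg fun _ _ => sq_nonneg _)
  calc (bad.card : ℝ) * M ^ (2 * r)
      ≤ 6 * (((N ^ r : ℕ) : ℝ) + (Y : ℝ) ^ 2) *
        ∑ n ∈ Icc 1 (N ^ r), ‖(cc E r n : ℂ)‖ ^ 2 := by
        refine hlow.trans ?_
        convert hLS using 1
    _ ≤ 6 * (((N ^ r : ℕ) : ℝ) + (Y : ℝ) ^ 2) * (K * (#E : ℝ) ^ r) := by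
        apply mul_le_mul_of_nonneg_left (sum_cc_sqI E N r hE K hK) (by positivity)
    _ = _ := by push_cast; ring

/-- few bad moduli for a set with `N ^ θ` elements, `θ` close to `1` -/
theorem fewF (K : ℕ) : ∃ θ c : ℝ, 1 / 2 < θ ∧ θ < 1 ∧ 0 < c ∧ ∃ N₁ : ℕ, ∀ N X : ℕ, N₁ ≤ N → N ≤ X →
    Real.log X ≤ (Real.log N) ^ (1 + c) → ∀ E : Finset ℕ, E ⊆ Icc 1 N → (N : ℝ) ^ θ ≤ (#E : ℝ) →
      (#(BadF E ((#E : ℝ) / Real.log X) ((4 * X) ^ K)) : ℝ) ≤ (X : ℝ) ^ (1 / 2 : ℝ) := by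
  classical
  obtain ⟨σ, hσd⟩ : ∃ σ : ℝ, σ = 1 / (16 * (2 * K + 1)) := ⟨_, rfl⟩
  have hσ0 : 0 < σ := by rw [hσd]; positivity
  have hK0 : (0:ℝ) ≤ K := Nat.cast_nonneg K
  have hσ1 : σ ≤ 1 / 16 := by
    rw [hσd]
    apply one_div_le_one_div_of_le (by norm_num)
    linarith
  have hσK : (2 * K + 1) * (4 * σ) = 1 / 4 := by rw [hσd]; field_simp; norm_num
  obtain ⟨N₂, hN₂⟩ := cc_sup σ hσ0 (by linarith)
  refine ⟨1 - σ, σ / 16, by linarith, by linarith, by positivity, ?_⟩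
  have hlog : Tendsto (fun N : ℕ => Real.log (N : ℝ)) atTop atTop :=
    Real.tendsto_log_atTop.comp tendsto_natCast_atTop_atTop
  have hev1 : ∀ᶠ l : ℝ in atTop, 8 * K * l ^ (σ / 16) + 1 ≤ l ^ (σ / 4) := by
    have h1 := (tendsto_rpow_atTop (show 0 < σ / 8 by positivity)).eventually_ge_atTop (8 * K + 1)
    filter_upwards [h1, eventually_ge_atTop 1] with l h1 h2
    have h3 : l ^ (σ / 4) = l ^ (σ / 8) * l ^ (σ / 8) := by
      rw [← Real.rpow_add (by linarith)]; congr 1; ring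
    have h4 : l ^ (σ / 16) ≤ l ^ (σ / 8) := Real.rpow_le_rpow_of_exponent_le h2 (by linarith)
    have h5 : 1 ≤ l ^ (σ / 8) := Real.one_le_rpow h2 (by positivity)
    rw [h3]
    nlinarith
  have hev2 : ∀ᶠ l : ℝ in atTop, 4 * Real.log l ≤ σ * l := by
    have h1 := Real.isLittleO_log_id_atTop.def (show (0 : ℝ) < σ / 4 by positivity)
    filter_upwards [h1, eventually_ge_atTop 1] with l h1 h2
    rw [Real.norm_eq_abs, abs_of_nonneg (Real.log_nonneg h2), id, Real.norm_eq_abs,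
      abs_of_pos (by linarith)] at h1
    linarith
  obtain ⟨N₁, hN₁⟩ := eventually_atTop.1 (((hlog.eventually (hev1.and hev2)).and
    (hlog.eventually_ge_atTop 16)).and (eventually_ge_atTop (max 4 N₂)))
  refine ⟨N₁, fun N X hN hNX hx2 E hE hEc => ?_⟩
  obtain ⟨⟨⟨v1, v2⟩, v3⟩, v4⟩ := hN₁ N hN
  have hN2 : 4 ≤ N := (le_max_left _ _).trans v4
  have hNN2 : N₂ ≤ N := (le_max_right _ _).trans v4
  have hN0 : (0 : ℝ) < N := by exact_mod_cast (by omega : 0 < N)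
  have hN1 : (1 : ℝ) < N := by exact_mod_cast (by omega : 1 < N)
  have hXN : (N : ℝ) ≤ X := by exact_mod_cast hNX
  have hX0 : (0 : ℝ) < X := by linarith
  obtain ⟨lN, hlN⟩ : ∃ l : ℝ, l = Real.log N := ⟨_, rfl⟩
  obtain ⟨lx, hlx⟩ : ∃ l : ℝ, l = Real.log X := ⟨_, rfl⟩
  rw [← hlN] at v1 v2 v3
  rw [← hlN, ← hlx] at hx2
  rw [← hlx]
  have hlN0 : 0 < lN := by linarith
  have h1 : lN ≤ lx := by rw [hlN, hlx]; exact Real.log_le_log hN0 hXN
  have hlx0 : 0 < lx := by linarith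
  have hl4X : Real.log (4 * X) ≤ 2 * lx := by
    rw [Real.log_mul (by norm_num) hX0.ne', ← hlx]
    have h4 : Real.log 4 ≤ lx := by
      rw [hlx]
      apply Real.log_le_log (by norm_num)
      have : (4:ℝ) ≤ N := by exact_mod_cast hN2
      linarith
    linarith
  have h4X1 : (1:ℝ) ≤ 4 * X := by linarith
  have hl4X0 : 0 ≤ Real.log (4 * X) := Real.log_nonneg h4X1
  -- r
  obtain ⟨t, ht⟩ : ∃ t : ℝ, t = 2 * K * Real.log (4 * X) / lN := ⟨_, rfl⟩
  have ht0 : 0 ≤ t := by rw [ht]; positivity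
  obtain ⟨r, hr⟩ : ∃ r : ℕ, r = ⌈t⌉₊ := ⟨_, rfl⟩
  have hr1 : t ≤ r := by rw [hr]; exact Nat.le_ceil _
  have hr2 : (r : ℝ) < t + 1 := by rw [hr]; exact Nat.ceil_lt_add_one ht0
  have htl : t * lN = 2 * K * Real.log (4 * X) := by rw [ht]; field_simp
  have hrs : (r : ℝ) ≤ lN ^ (σ / 4) := by
    refine le_trans ?_ v1
    have h2 : t ≤ 8 * K * lN ^ (σ / 16) := by
      rw [ht, div_le_iff₀ hlN0]
      have e1 : lx ≤ lN ^ (σ / 16) * lN := by
        refine hx2.trans (le_of_eq ?_)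
        rw [Real.rpow_add hlN0, Real.rpow_one, mul_comm]
      have e2 : 0 < lN ^ (σ / 16) * lN := by positivity
      calc 2 * K * Real.log (4 * X) ≤ 2 * K * (2 * lx) := by gcongr
        _ ≤ 2 * K * (2 * (lN ^ (σ / 16) * lN)) := by gcongr
        _ ≤ 8 * K * lN ^ (σ / 16) * lN := by nlinarith
    linarith
  -- sizes
  have hNr1 : ((4 * X) ^ K : ℝ) ^ 2 ≤ (N : ℝ) ^ r := by
    have e1 : ((4 * X) ^ K : ℝ) ^ 2 = Real.exp (2 * K * Real.log (4 * X)) := by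
      rw [← pow_mul, ← Real.exp_log (show (0:ℝ) < (4 * X) ^ (K * 2) by positivity), Real.log_pow]
      congr 1
      push_cast
      ring
    have e2 : (N : ℝ) ^ r = Real.exp (r * lN) := by
      rw [← Real.exp_log (show (0:ℝ) < (N : ℝ) ^ r by positivity), Real.log_pow, ← hlN]
    rw [e1, e2, ← htl]
    apply Real.exp_le_exp.2
    exact mul_le_mul_of_nonneg_right hr1 hlN0.le
  have hNr2 : (N : ℝ) ^ r ≤ ((4 : ℝ) * X) ^ (2 * K + 1) := by
    have e1 : ((4 : ℝ) * X) ^ (2 * K + 1) = Real.exp ((2 * K + 1) * Real.log (4 * X)) := by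
      rw [← Real.exp_log (show (0:ℝ) < (4 * (X:ℝ)) ^ (2 * K + 1) by positivity), Real.log_pow]
      congr 1
      push_cast
      ring
    have e2 : (N : ℝ) ^ r = Real.exp (r * lN) := by
      rw [← Real.exp_log (show (0:ℝ) < (N : ℝ) ^ r by positivity), Real.log_pow, ← hlN]
    rw [e1, e2]
    apply Real.exp_le_exp.2
    have e3 : (r : ℝ) * lN ≤ (t + 1) * lN := mul_le_mul_of_nonneg_right hr2.le hlN0.le
    have e4 : lN ≤ Real.log (4 * X) := by
      rw [hlN]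
      apply Real.log_le_log hN0
      linarith
    nlinarith
  have hE0 : (0 : ℝ) < #E := lt_of_lt_of_le (by positivity) hEc
  have hcc : ∀ n ∈ Icc 1 (N ^ r), (cc E r n : ℝ) ≤ (N : ℝ) ^ (2 * σ * r) := hN₂ N hNN2 r (by rw [← hlN]; exact hrs) E hE
  have hbad := badF_count E N ((4 * X) ^ K) r ((#E : ℝ) / lx) ((N : ℝ) ^ (2 * σ * r)) hE (by positivity) hcc
  obtain ⟨b, hb⟩ : ∃ b : ℝ, b = (#(BadF E ((#E : ℝ) / lx) ((4 * X) ^ K)) : ℝ) := ⟨_, rfl⟩
  rw [← hb] at hbad ⊢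
  have hb0 : 0 ≤ b := by rw [hb]; exact Nat.cast_nonneg _
  obtain ⟨G, hG⟩ : ∃ G : ℝ, G = (N : ℝ) ^ r := ⟨_, rfl⟩
  have hG0 : 0 < G := by rw [hG]; positivity
  have hG1 : 1 ≤ G := by rw [hG]; exact one_le_pow₀ hN1.le
  have hGr : ∀ s : ℝ, G ^ s = (N : ℝ) ^ (s * r) := by
    intro s
    rw [hG, ← Real.rpow_natCast, ← Real.rpow_mul hN0.le, mul_comm]
  have h3 : b * (#E : ℝ) ^ r ≤ 12 * G * G ^ (2 * σ) * lx ^ (2 * r) := by
    have e1 : ((#E : ℝ) / lx) ^ (2 * r) = (#E : ℝ) ^ r * (#E : ℝ) ^ r / lx ^ (2 * r) := by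
      rw [div_pow]
      congr 1
      rw [two_mul, pow_add]
    rw [e1] at hbad
    have hEr : (0 : ℝ) < (#E : ℝ) ^ r := by positivity
    have hTr : (0 : ℝ) < lx ^ (2 * r) := by positivity
    have h4 : b * ((#E : ℝ) ^ r * (#E : ℝ) ^ r / lx ^ (2 * r)) * (lx ^ (2 * r) / (#E : ℝ) ^ r) ≤
        6 * ((N : ℝ) ^ r + (((4 * X) ^ K : ℕ) : ℝ) ^ 2) * ((N : ℝ) ^ (2 * σ * r) * (#E : ℝ) ^ r) * (lx ^ (2 * r) / (#E : ℝ) ^ r) :=
      mul_le_mul_of_nonneg_right hbad (by positivity)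
    have e2 : b * ((#E : ℝ) ^ r * (#E : ℝ) ^ r / lx ^ (2 * r)) * (lx ^ (2 * r) / (#E : ℝ) ^ r) =
        b * (#E : ℝ) ^ r := by field_simp
    have e3 : 6 * ((N : ℝ) ^ r + (((4 * X) ^ K : ℕ) : ℝ) ^ 2) * ((N : ℝ) ^ (2 * σ * r) * (#E : ℝ) ^ r) *
        (lx ^ (2 * r) / (#E : ℝ) ^ r) =
        6 * ((N : ℝ) ^ r + (((4 * X) ^ K : ℕ) : ℝ) ^ 2) * (N : ℝ) ^ (2 * σ * r) * lx ^ (2 * r) := by field_simp
    rw [e2, e3, ← hGr, ← hG] at h4
    refine h4.trans ?_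
    have e4 : (((4 * X) ^ K : ℕ) : ℝ) ^ 2 ≤ G := by
      rw [hG]; push_cast; exact hNr1
    have e5 : 0 < G ^ (2 * σ) := Real.rpow_pos_of_pos hG0 _
    calc 6 * (G + (((4 * X) ^ K : ℕ) : ℝ) ^ 2) * G ^ (2 * σ) * lx ^ (2 * r) ≤
        6 * (G + G) * G ^ (2 * σ) * lx ^ (2 * r) := by gcongr
      _ = _ := by ring
  have hTR : lx ^ (2 * r) ≤ G ^ σ := by
    have e1 : lx ^ 2 ≤ (N : ℝ) ^ σ := by
      have e2 : Real.log (lx ^ 2) ≤ σ * lN := by
        rw [Real.log_pow]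
        have e3 : Real.log lx ≤ 2 * Real.log lN := by
          have := Real.log_le_log hlx0 hx2
          rw [Real.log_rpow hlN0] at this
          have e4 : 0 ≤ Real.log lN := Real.log_nonneg (by linarith)
          have e5 : (1 + σ / 16) * Real.log lN ≤ 2 * Real.log lN := by
            apply mul_le_mul_of_nonneg_right _ e4
            linarith
          linarith
        push_cast
        linarith
      rw [Real.rpow_def_of_pos hN0, ← hlN, mul_comm lN σ]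
      rw [← Real.log_le_iff_le_exp (by positivity)]
      exact e2
    calc lx ^ (2 * r) = (lx ^ 2) ^ r := by rw [pow_mul]
      _ ≤ ((N : ℝ) ^ σ) ^ r := pow_le_pow_left₀ (by positivity) e1 _
      _ = G ^ σ := by rw [hGr, ← Real.rpow_natCast, ← Real.rpow_mul hN0.le]
  have hEr : G ^ (1 - σ) ≤ (#E : ℝ) ^ r := by
    have : G ^ (1 - σ) = ((N : ℝ) ^ (1 - σ)) ^ r := by
      rw [hGr, ← Real.rpow_natCast, ← Real.rpow_mul hN0.le]
    rw [this]
    exact pow_le_pow_left₀ (by positivity) hEc _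
  have h5 : b * G ^ (1 - σ) ≤ 12 * G ^ (1 + 3 * σ) := by
    calc b * G ^ (1 - σ) ≤ b * (#E : ℝ) ^ r := mul_le_mul_of_nonneg_left hEr hb0
      _ ≤ 12 * G * G ^ (2 * σ) * lx ^ (2 * r) := h3
      _ ≤ 12 * G * G ^ (2 * σ) * G ^ σ := by
          apply mul_le_mul_of_nonneg_left hTR
          have := Real.rpow_pos_of_pos hG0 (2 * σ)
          positivity
      _ = 12 * G ^ (1 + 3 * σ) := by
          have : G ^ (1 + 3 * σ) = G * G ^ (2 * σ) * G ^ σ := by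
            rw [mul_assoc, ← Real.rpow_add hG0]
            nth_rewrite 2 [← Real.rpow_one G]
            rw [← Real.rpow_add hG0]
            congr 1
            ring
          rw [this]; ring
  have h6 : b ≤ 12 * G ^ (4 * σ) := by
    have hpos : 0 < G ^ (1 - σ) := Real.rpow_pos_of_pos hG0 _
    have e1 : 12 * G ^ (1 + 3 * σ) = 12 * G ^ (4 * σ) * G ^ (1 - σ) := by
      rw [mul_assoc, ← Real.rpow_add hG0]
      congr 2
      ring
    rw [e1] at h5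
    exact le_of_mul_le_mul_right h5 hpos
  have h7 : G ^ (4 * σ) ≤ ((4 : ℝ) * X) ^ (1 / 4 : ℝ) := by
    have e1 : G ^ (4 * σ) ≤ (((4 : ℝ) * X) ^ (2 * K + 1)) ^ (4 * σ) :=
      Real.rpow_le_rpow hG0.le (by rw [hG]; exact hNr2) (by positivity)
    refine e1.trans (le_of_eq ?_)
    rw [← Real.rpow_natCast, ← Real.rpow_mul (by positivity)]
    congr 1
    push_cast
    exact hσK
  have h8 : 12 * ((4 : ℝ) * X) ^ (1 / 4 : ℝ) ≤ (X : ℝ) ^ (1 / 2 : ℝ) := by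
    have e0 : (X : ℝ) = Real.exp lx := by rw [hlx, Real.exp_log hX0]
    have e1 : ((4 : ℝ) * X) ^ (1 / 4 : ℝ) ≤ 4 * (X : ℝ) ^ (1 / 4 : ℝ) := by
      rw [Real.mul_rpow (by norm_num) hX0.le]
      apply mul_le_mul_of_nonneg_right _ (by positivity)
      calc (4:ℝ) ^ (1 / 4 : ℝ) ≤ (4:ℝ) ^ (1:ℝ) := Real.rpow_le_rpow_of_exponent_le (by norm_num) (by norm_num)
        _ = 4 := Real.rpow_one 4
    have e2 : (X : ℝ) ^ (1 / 2 : ℝ) = (X : ℝ) ^ (1 / 4 : ℝ) * (X : ℝ) ^ (1 / 4 : ℝ) := by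
      rw [← Real.rpow_add hX0]; norm_num
    have e3 : 48 ≤ (X : ℝ) ^ (1 / 4 : ℝ) := by
      rw [e0, ← Real.exp_mul]
      have e4 : (16:ℝ) * (1 / 4) ≤ lx * (1 / 4) := by linarith
      have e5 : (48:ℝ) ≤ Real.exp 4 := by
        have h1 : Real.exp 4 = (Real.exp 1) ^ 4 := by rw [← Real.exp_nat_mul]; norm_num
        have h2 : (2.7 : ℝ) ≤ Real.exp 1 := by have := Real.exp_one_gt_d9; linarith
        rw [h1]
        calc (48 : ℝ) ≤ 2.7 ^ 4 := by norm_num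
          _ ≤ _ := pow_le_pow_left₀ (by norm_num) h2 4
      refine e5.trans (Real.exp_le_exp.2 ?_)
      linarith
    have e6 : 0 < (X : ℝ) ^ (1 / 4 : ℝ) := by positivity
    rw [e2]
    nlinarith
  calc b ≤ 12 * G ^ (4 * σ) := h6
    _ ≤ 12 * ((4 : ℝ) * X) ^ (1 / 4 : ℝ) := by gcongr
    _ ≤ _ := h8

end Pool.Agent.TH891.PI
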