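import Pool.Agent.H386R2.Artin.LocalCount

set_option autoImplicit false

/-! # Power residue conditions modulo several primes -/

namespace Pool.Agent.TH891.PI

open Finset
open Pool.Agent.H386R2.Artin (Hd mem_Hd card_Hd Hd_ne_zero T_nonneg indicator_Hd sum_T LC_pos)

section

variable {ι : Type} [Fintype ι] [DecidableEq ι] (p : ι → ℕ)

/-- all nonprincipal products of characters have small sums over `E` -/
def GoodT (E : Finset ℕ) (M : ℝ) (p : ι → ℕ) : Prop :=
  ∀ χ : ∀ i, DirichletCharacter ℂ (p i), (∃ i, χ i ≠ 1) → ‖∑ a ∈ E, ∏ i, χ i (a : ZMod (p i))‖ ≤ M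

variable [hp : ∀ i, Fact (p i).Prime]

open Classical in
theorem prod_residue (E : Finset ℕ) (M : ℝ) (hM : 0 ≤ M) (hG : GoodT E M p)
    (hE : ∀ a ∈ E, ∀ i, (a : ZMod (p i)) ≠ 0) (e : ι → ℕ) (he : ∀ i, e i ∣ p i - 1) :
    |(#(E.filter fun a : ℕ => ∀ i, (a : ZMod (p i)) ^ ((p i - 1) / e i) = 1) : ℝ) -
      #E * ∏ i, (1 / (e i : ℝ))| ≤ M := by
  have hp1 : ∀ i, 0 < p i - 1 := fun i => LC_pos
  have he0 : ∀ i, 0 < e i := fun i => Nat.pos_of_dvd_of_pos (he i) (hp1 i)
  obtain ⟨d, hd⟩ : ∃ d : ι → ℕ, d = fun i => (p i - 1) / e i := ⟨_, rfl⟩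
  have hdd : ∀ i, (p i - 1) / e i = d i := fun i => by rw [hd]
  simp only [hdd]
  have hde : ∀ i, d i * e i = p i - 1 := fun i => by rw [hd]; exact Nat.div_mul_cancel (he i)
  have hd0 : ∀ i, 0 < d i := by
    intro i
    rcases Nat.eq_zero_or_pos (d i) with h | h
    · have := hde i
      rw [h] at this
      have := hp1 i
      omega
    · exact h
  have hdp : ∀ i, d i ∣ p i - 1 := fun i => ⟨e i, (hde i).symm⟩
  choose t ht using fun (i : ι) (χ : DirichletCharacter ℂ (p i)) => T_nonneg χ (hd0 i)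
  have hind : ∀ i (b : ZMod (p i)), ∑ χ : DirichletCharacter ℂ (p i), (t i χ : ℂ) * χ b =
      if b ^ d i = 1 then ((p i - 1 : ℕ) : ℂ) else 0 := by
    intro i b
    have h1 := indicator_Hd (p := p i) (hd0 i) b
    simp only [(ht i _).2] at h1
    rw [h1]
    simp only [mem_Hd]
  have ht1 : ∀ i, (t i 1 : ℂ) = d i := by
    intro i
    rw [← (ht i 1).2]
    have : ∀ h ∈ Hd (p i) (d i), (1 : DirichletCharacter ℂ (p i)) h⁻¹ = 1 := by
      intro h hh
      exact MulChar.one_apply (inv_ne_zero (Hd_ne_zero (hd0 i) hh)).isUnit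
    rw [Finset.sum_congr rfl this]
    simp [card_Hd (hdp i)]
  have hsum : ∀ i, ∑ χ : DirichletCharacter ℂ (p i), t i χ = ((p i - 1 : ℕ) : ℝ) := by
    intro i
    have := sum_T (p := p i) (hd0 i)
    simp only [(ht i _).2] at this
    exact_mod_cast this
  obtain ⟨P, hP⟩ : ∃ P : ℝ, P = ∏ i, ((p i - 1 : ℕ) : ℝ) := ⟨_, rfl⟩
  have hP0 : 0 < P := by
    rw [hP]
    exact prod_pos fun i _ => by exact_mod_cast hp1 i
  obtain ⟨Nf, hNf⟩ : ∃ Nf : ℕ, Nf = #(E.filter fun a : ℕ => ∀ i, (a : ZMod (p i)) ^ d i = 1) := ⟨_, rfl⟩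
  rw [← hNf]
  obtain ⟨Sχ, hSχ⟩ : ∃ S : (∀ i, DirichletCharacter ℂ (p i)) → ℂ, S = fun χ => ∑ a ∈ E, ∏ i, χ i (a : ZMod (p i)) := ⟨_, rfl⟩
  have key : (P : ℂ) * Nf = ∑ χ : (∀ i, DirichletCharacter ℂ (p i)), (∏ i, (t i (χ i) : ℂ)) * Sχ χ := by
    have h1 : (P : ℂ) * Nf = ∑ a ∈ E, ∏ i, (if (a : ZMod (p i)) ^ d i = 1 then ((p i - 1 : ℕ) : ℂ) else 0) := by
      have h2 : ∀ a ∈ E, ∏ i, (if (a : ZMod (p i)) ^ d i = 1 then ((p i - 1 : ℕ) : ℂ) else 0) =
          if ∀ i, (a : ZMod (p i)) ^ d i = 1 then (P : ℂ) else 0 := by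
        intro a _
        split_ifs with h
        · rw [hP]
          push_cast
          apply prod_congr rfl
          intro i _
          rw [if_pos (h i)]
        · push Not at h
          obtain ⟨i, hi⟩ := h
          exact prod_eq_zero (mem_univ i) (if_neg hi)
      rw [sum_congr rfl h2, ← sum_filter, sum_const, nsmul_eq_mul, ← hNf, mul_comm]
    rw [h1]
    have h3 : ∀ a ∈ E, ∏ i, (if (a : ZMod (p i)) ^ d i = 1 then ((p i - 1 : ℕ) : ℂ) else 0) =
        ∑ χ : (∀ i, DirichletCharacter ℂ (p i)), (∏ i, (t i (χ i) : ℂ)) * ∏ i, χ i (a : ZMod (p i)) := by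
      intro a _
      rw [prod_congr rfl fun i _ => (hind i (a : ZMod (p i))).symm, Finset.prod_univ_sum, Fintype.piFinset_univ]
      apply sum_congr rfl
      intro χ _
      rw [prod_mul_distrib]
    rw [sum_congr rfl h3, sum_comm]
    apply sum_congr rfl
    intro χ _
    rw [hSχ, mul_sum]
  -- the principal term
  have hone : Sχ 1 = #E := by
    rw [hSχ]
    beta_reduce
    rw [sum_congr rfl (g := fun _ => (1:ℂ))]
    · simp
    · intro a ha
      apply prod_eq_one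
      intro i _
      exact MulChar.one_apply (hE a ha i).isUnit
  have h7 : (P : ℂ) * Nf - (∏ i, (d i : ℂ)) * #E =
      ∑ χ ∈ (univ : Finset (∀ i, DirichletCharacter ℂ (p i))).erase 1, (∏ i, (t i (χ i) : ℂ)) * Sχ χ := by
    rw [key, ← Finset.add_sum_erase _ _ (Finset.mem_univ (1 : ∀ i, DirichletCharacter ℂ (p i))), hone]
    have : ∏ i, (t i ((1 : ∀ i, DirichletCharacter ℂ (p i)) i) : ℂ) = ∏ i, (d i : ℂ) :=
      prod_congr rfl fun i _ => ht1 i
    rw [this]
    ring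
  have h8 : ‖(P : ℂ) * Nf - (∏ i, (d i : ℂ)) * #E‖ ≤ P * M := by
    rw [h7]
    calc _ ≤ ∑ χ ∈ (univ : Finset (∀ i, DirichletCharacter ℂ (p i))).erase 1, ‖(∏ i, (t i (χ i) : ℂ)) * Sχ χ‖ :=
          norm_sum_le _ _
      _ ≤ ∑ χ ∈ (univ : Finset (∀ i, DirichletCharacter ℂ (p i))).erase 1, (∏ i, t i (χ i)) * M := by
          apply sum_le_sum
          intro χ hχ
          have e1 : ‖∏ i, (t i (χ i) : ℂ)‖ = ∏ i, t i (χ i) := by
            rw [norm_prod]
            apply prod_congr rfl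
            intro i _
            rw [Complex.norm_real, Real.norm_of_nonneg (ht i _).1]
          rw [norm_mul, e1]
          apply mul_le_mul_of_nonneg_left _ (prod_nonneg fun i _ => (ht i _).1)
          rw [hSχ]
          apply hG
          by_contra hcon
          push Not at hcon
          exact ne_of_mem_erase hχ (funext hcon)
      _ = (∑ χ ∈ (univ : Finset (∀ i, DirichletCharacter ℂ (p i))).erase 1, ∏ i, t i (χ i)) * M := by
          rw [sum_mul]
      _ ≤ (∑ χ : (∀ i, DirichletCharacter ℂ (p i)), ∏ i, t i (χ i)) * M := by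
          apply mul_le_mul_of_nonneg_right _ hM
          exact sum_le_sum_of_subset_of_nonneg (erase_subset _ _) fun χ _ _ => prod_nonneg fun i _ => (ht i _).1
      _ = P * M := by
          congr 1
          rw [hP, ← prod_congr rfl fun i _ => hsum i, Finset.prod_univ_sum, Fintype.piFinset_univ]
  have h9 : (P : ℂ) * Nf - (∏ i, (d i : ℂ)) * #E = ((P * (Nf - #E * ∏ i, (1 / (e i : ℝ))) : ℝ) : ℂ) := by
    have h10 : P * ∏ i, (1 / (e i : ℝ)) = ∏ i, (d i : ℝ) := by
      rw [hP, ← prod_mul_distrib]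
      apply prod_congr rfl
      intro i _
      have : (e i : ℝ) ≠ 0 := by exact_mod_cast (he0 i).ne'
      rw [← hde i]
      push_cast
      field_simp
    have h11 : P * (Nf - #E * ∏ i, (1 / (e i : ℝ))) = P * Nf - (∏ i, (d i : ℝ)) * #E := by
      rw [← h10]; ring
    rw [h11]
    push_cast
    ring
  rw [h9, Complex.norm_real, Real.norm_eq_abs, abs_mul, abs_of_pos hP0] at h8
  exact le_of_mul_le_mul_left h8 hP0

end

/-- powers with several prime divisors -/
lemma pow_div_prod_iff {G : Type*} [Monoid G] (a : G) (n : ℕ) (hn : 0 < n) (U : Finset ℕ) (hU : ∀ l ∈ U, l.Prime)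
    (hUn : ∏ l ∈ U, l ∣ n) : (a ^ n = 1 ∧ ∀ l ∈ U, a ^ (n / l) = 1) ↔ a ^ (n / ∏ l ∈ U, l) = 1 := by
  classical
  constructor
  · rintro ⟨h0, h⟩
    induction U using Finset.induction_on with
    | empty => rw [prod_empty, Nat.div_one]; exact h0
    | insert l K hl ih =>
      rw [prod_insert hl] at hUn ⊢
      have h1 := ih (fun x hx => hU x (mem_insert_of_mem hx)) (dvd_of_mul_left_dvd hUn)
        (fun x hx => h x (mem_insert_of_mem hx))
      have h2 := h l (mem_insert_self _ _)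
      obtain ⟨A, hA⟩ : ∃ A, A = ∏ x ∈ K, x := ⟨_, rfl⟩
      rw [← hA] at h1 hUn ⊢
      obtain ⟨c, hc⟩ := hUn
      have hlp := hU l (mem_insert_self _ _)
      have hcop : Nat.Coprime l A := by
        rw [hA]
        apply Nat.Coprime.prod_right
        intro x hx
        refine (Nat.coprime_primes hlp (hU x (mem_insert_of_mem hx))).mpr ?_
        rintro rfl
        exact hl hx
      have hl0 : 0 < l := hlp.pos
      have hA0 : 0 < A := by
        rw [hA]
        exact prod_pos fun x hx => (hU x (mem_insert_of_mem hx)).pos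
      have e1 : n / A = l * c := by
        rw [hc, mul_comm l A, mul_assoc]
        exact Nat.mul_div_cancel_left _ hA0
      have e2 : n / l = A * c := by
        rw [hc, mul_assoc]
        exact Nat.mul_div_cancel_left _ hl0
      have e3 : n / (l * A) = c := by
        rw [hc]
        exact Nat.mul_div_cancel_left _ (Nat.mul_pos hl0 hA0)
      rw [e1] at h1
      rw [e2] at h2
      rw [e3]
      have h5 := Nat.dvd_gcd (orderOf_dvd_of_pow_eq_one h1) (orderOf_dvd_of_pow_eq_one h2)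
      rw [Nat.gcd_mul_right, hcop.gcd_eq_one, one_mul] at h5
      exact orderOf_dvd_iff_pow_eq_one.mp h5
  · intro h
    obtain ⟨e, he⟩ := hUn
    have hpos : 0 < ∏ l ∈ U, l := prod_pos fun x hx => (hU x hx).pos
    rw [he, Nat.mul_div_cancel_left _ hpos] at h
    constructor
    · rw [he, mul_comm, pow_mul, h, one_pow]
    · intro l hl
      obtain ⟨c, hc⟩ : l ∣ ∏ l ∈ U, l := dvd_prod_of_mem _ hl
      have hl0 : 0 < l := (hU l hl).pos
      rw [he, hc, mul_assoc, Nat.mul_div_cancel_left _ hl0, mul_comm c e, pow_mul, h, one_pow]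

/-- the local condition for the index: `a` is an `e`-th power but not an `e l`-th power for `l ∈ Λ` -/
def IndP (p e : ℕ) (L : Finset ℕ) (a : ZMod p) : Prop :=
  a ^ ((p - 1) / e) = 1 ∧ ∀ l ∈ L, a ^ ((p - 1) / (e * l)) ≠ 1

open Classical in
lemma indP_expand {p e : ℕ} (hp1 : 0 < p - 1) (L : Finset ℕ) (hL : ∀ l ∈ L, l.Prime) (he : e * ∏ l ∈ L, l ∣ p - 1) (a : ZMod p) :
    (if IndP p e L a then (1 : ℝ) else 0) =
      ∑ U ∈ L.powerset, (-1 : ℝ) ^ #U * (if a ^ ((p - 1) / (e * ∏ l ∈ U, l)) = 1 then 1 else 0) := by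
  have hed : e ∣ p - 1 := dvd_of_mul_right_dvd he
  have he0 : 0 < e := Nat.pos_of_dvd_of_pos hed hp1
  obtain ⟨n, hn⟩ := hed
  have hn0 : 0 < n := by
    rcases Nat.eq_zero_or_pos n with h | h
    · rw [h, mul_zero] at hn; omega
    · exact h
  have hLn : ∏ l ∈ L, l ∣ n := by
    rw [hn] at he
    exact Nat.dvd_of_mul_dvd_mul_left he0 he
  have hdiv : ∀ m : ℕ, (p - 1) / (e * m) = n / m := by
    intro m
    rw [hn]
    exact Nat.mul_div_mul_left _ _ he0
  have hdiv1 : (p - 1) / e = n := by rw [hn]; exact Nat.mul_div_cancel_left _ he0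
  unfold IndP
  simp only [hdiv, hdiv1]
  by_cases h0 : a ^ n = 1
  · have h1 : (if a ^ n = 1 ∧ ∀ l ∈ L, a ^ (n / l) ≠ 1 then (1 : ℝ) else 0)
        = ∏ l ∈ L, (-(if a ^ (n / l) = 1 then (1 : ℝ) else 0) + 1) := by
      by_cases h : ∀ l ∈ L, a ^ (n / l) ≠ 1
      · rw [if_pos ⟨h0, h⟩]
        symm
        refine Finset.prod_eq_one fun l hl => ?_
        rw [if_neg (h l hl)]
        norm_num
      · rw [if_neg (fun h' => h h'.2)]
        push Not at h
        obtain ⟨l, hl, hl1⟩ := h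
        symm
        refine Finset.prod_eq_zero hl ?_
        rw [if_pos hl1]
        norm_num
    rw [h1, Finset.prod_add]
    refine Finset.sum_congr rfl fun U hU => ?_
    rw [Finset.prod_const_one, mul_one, Finset.prod_neg]
    congr 1
    have hUL := Finset.mem_powerset.mp hU
    have h2 := pow_div_prod_iff a n hn0 U (fun l hl => hL l (hUL hl)) ((prod_dvd_prod_of_subset _ _ _ hUL).trans hLn)
    by_cases h : ∀ l ∈ U, a ^ (n / l) = 1
    · rw [if_pos (h2.mp ⟨h0, h⟩)]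
      refine Finset.prod_eq_one fun l hl => ?_
      rw [if_pos (h l hl)]
    · rw [if_neg (fun h' => h (h2.mpr h').2)]
      push Not at h
      obtain ⟨l, hl, hl1⟩ := h
      exact Finset.prod_eq_zero hl (if_neg hl1)
  · rw [if_neg (fun h => h0 h.1)]
    symm
    apply sum_eq_zero
    intro U hU
    have hUL := Finset.mem_powerset.mp hU
    have h2 := pow_div_prod_iff a n hn0 U (fun l hl => hL l (hUL hl)) ((prod_dvd_prod_of_subset _ _ _ hUL).trans hLn)
    rw [if_neg (fun h => h0 (h2.mpr h).1), mul_zero]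

section

variable {ι : Type} [Fintype ι] [DecidableEq ι] (p : ι → ℕ) [hp : ∀ i, Fact (p i).Prime]

open Classical in
/-- the number of elements with prescribed local indices -/
theorem pattern_count (E : Finset ℕ) (M : ℝ) (hM : 0 ≤ M) (hG : GoodT E M p)
    (hE : ∀ a ∈ E, ∀ i, (a : ZMod (p i)) ≠ 0) (e : ι → ℕ) (L : ι → Finset ℕ) (hL : ∀ i, ∀ l ∈ L i, l.Prime)
    (he : ∀ i, e i * ∏ l ∈ L i, l ∣ p i - 1) :
    |(#(E.filter fun a : ℕ => ∀ i, IndP (p i) (e i) (L i) (a : ZMod (p i))) : ℝ) -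
      #E * ∏ i, ((1 / (e i : ℝ)) * ∏ l ∈ L i, (1 - 1 / (l : ℝ)))| ≤ M * ∏ i, (2 : ℝ) ^ #(L i) := by
  have hp1 : ∀ i, 0 < p i - 1 := fun i => LC_pos
  have h1 : (#(E.filter fun a : ℕ => ∀ i, IndP (p i) (e i) (L i) (a : ZMod (p i))) : ℝ) =
      ∑ U ∈ Fintype.piFinset (fun i => (L i).powerset), (∏ i, (-1 : ℝ) ^ #(U i)) *
        (#(E.filter fun a : ℕ => ∀ i, (a : ZMod (p i)) ^ ((p i - 1) / (e i * ∏ l ∈ U i, l)) = 1) : ℝ) := by
    rw [card_filter]
    push_cast
    have h2 : ∀ a ∈ E, (if ∀ i, IndP (p i) (e i) (L i) (a : ZMod (p i)) then (1 : ℝ) else 0) =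
        ∑ U ∈ Fintype.piFinset (fun i => (L i).powerset), (∏ i, (-1 : ℝ) ^ #(U i)) *
          (if ∀ i, (a : ZMod (p i)) ^ ((p i - 1) / (e i * ∏ l ∈ U i, l)) = 1 then 1 else 0) := by
      intro a _
      have h3 : (if ∀ i, IndP (p i) (e i) (L i) (a : ZMod (p i)) then (1 : ℝ) else 0) =
          ∏ i, (if IndP (p i) (e i) (L i) (a : ZMod (p i)) then (1 : ℝ) else 0) := by
        split_ifs with h
        · symm
          exact prod_eq_one fun i _ => if_pos (h i)
        · push Not at h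
          obtain ⟨i, hi⟩ := h
          exact (prod_eq_zero (mem_univ i) (if_neg hi)).symm
      rw [h3, prod_congr rfl fun i _ => indP_expand (hp1 i) (L i) (hL i) (he i) (a : ZMod (p i)), Finset.prod_univ_sum]
      apply sum_congr rfl
      intro U _
      rw [prod_mul_distrib]
      congr 1
      split_ifs with h
      · exact prod_eq_one fun i _ => if_pos (h i)
      · push Not at h
        obtain ⟨i, hi⟩ := h
        exact prod_eq_zero (mem_univ i) (if_neg hi)
    rw [sum_congr rfl h2, sum_comm]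
    apply sum_congr rfl
    intro U _
    rw [← mul_sum, card_filter]
    push_cast
    rfl
  have h4 : ∏ i, ((1 / (e i : ℝ)) * ∏ l ∈ L i, (1 - 1 / (l : ℝ))) =
      ∑ U ∈ Fintype.piFinset (fun i => (L i).powerset), (∏ i, (-1 : ℝ) ^ #(U i)) *
        ∏ i, (1 / ((e i * ∏ l ∈ U i, l : ℕ) : ℝ)) := by
    have h5 : ∀ i, (1 / (e i : ℝ)) * ∏ l ∈ L i, (1 - 1 / (l : ℝ)) =
        ∑ U ∈ (L i).powerset, (-1 : ℝ) ^ #U * (1 / ((e i * ∏ l ∈ U, l : ℕ) : ℝ)) := by
      intro i
      have h6 : ∏ l ∈ L i, (1 - 1 / (l : ℝ)) = ∏ l ∈ L i, (-(1 / (l : ℝ)) + 1) :=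
        prod_congr rfl fun l _ => by ring
      rw [h6, Finset.prod_add, mul_sum]
      apply sum_congr rfl
      intro U _
      rw [Finset.prod_const_one, mul_one, Finset.prod_neg]
      push_cast
      rw [prod_div_distrib, prod_const_one]
      have h7 : (1:ℝ) / (e i * ∏ l ∈ U, (l:ℝ)) = 1 / e i * (1 / ∏ l ∈ U, (l : ℝ)) := by
        rw [one_div_mul_one_div]
      rw [h7]
      ring
    rw [prod_congr rfl fun i _ => h5 i, Finset.prod_univ_sum]
    apply sum_congr rfl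
    intro U _
    rw [prod_mul_distrib]
  rw [h1, h4, mul_sum, ← sum_sub_distrib]
  refine (abs_sum_le_sum_abs _ _).trans ?_
  have h8 : ∀ U ∈ Fintype.piFinset (fun i => (L i).powerset),
      |(∏ i, (-1 : ℝ) ^ #(U i)) * (#(E.filter fun a : ℕ => ∀ i, (a : ZMod (p i)) ^ ((p i - 1) / (e i * ∏ l ∈ U i, l)) = 1) : ℝ) -
        #E * ((∏ i, (-1 : ℝ) ^ #(U i)) * ∏ i, (1 / ((e i * ∏ l ∈ U i, l : ℕ) : ℝ)))| ≤ M := by
    intro U hU
    rw [Fintype.mem_piFinset] at hU
    have h9 := prod_residue p E M hM hG hE (fun i => e i * ∏ l ∈ U i, l) (fun i => by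
      refine dvd_trans ?_ (he i)
      exact Nat.mul_dvd_mul_left _ (prod_dvd_prod_of_subset _ _ _ (mem_powerset.1 (hU i))))
    have h10 : (∏ i, (-1 : ℝ) ^ #(U i)) * (#(E.filter fun a : ℕ => ∀ i, (a : ZMod (p i)) ^ ((p i - 1) / (e i * ∏ l ∈ U i, l)) = 1) : ℝ) -
        #E * ((∏ i, (-1 : ℝ) ^ #(U i)) * ∏ i, (1 / ((e i * ∏ l ∈ U i, l : ℕ) : ℝ))) =
        (∏ i, (-1 : ℝ) ^ #(U i)) * ((#(E.filter fun a : ℕ => ∀ i, (a : ZMod (p i)) ^ ((p i - 1) / (e i * ∏ l ∈ U i, l)) = 1) : ℝ) -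
          #E * ∏ i, (1 / ((e i * ∏ l ∈ U i, l : ℕ) : ℝ))) := by ring
    rw [h10, abs_mul]
    have h11 : |∏ i, (-1 : ℝ) ^ #(U i)| = 1 := by
      rw [abs_prod]
      apply prod_eq_one
      intro i _
      rw [abs_pow, abs_neg, abs_one, one_pow]
    rw [h11, one_mul]
    exact h9
  refine (sum_le_sum h8).trans (le_of_eq ?_)
  rw [sum_const, Fintype.card_piFinset, nsmul_eq_mul, mul_comm]
  congr 1
  push_cast
  apply prod_congr rfl
  intro i _
  rw [card_powerset]
  push_cast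
  rfl

end

end Pool.Agent.TH891.PI
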