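import Pool.Agent.TH891.PI.M2
import Pool.Agent.TH891.PI.M3
import Pool.Agent.TH891.PI.M4
import Pool.Agent.TH891.PR.P4

set_option autoImplicit false

/-! # Sums over a set of multipliers: lower bound for the pattern, upper bound for large prime factors -/

namespace Pool.Agent.TH891.PI

open Finset Filter Topology
open Pool.Agent.H378R2 Pool.Agent.H387R2.MB
open Pool.Agent.H386R2.Artin (Good)
open Pool.Agent.TH891.PR (RA residue_count weight_sum)

/-- the indices of the primes among `n + t j` -/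
def Pn {K : ℕ} (t : Fin K → ℕ) (n : ℕ) : Finset (Fin K) := univ.filter (fun j => (n + t j).Prime)

/-- the family of these primes -/
def fam {K : ℕ} (t : Fin K → ℕ) (n : ℕ) : {j // j ∈ Pn t n} → ℕ := fun j => n + t j.1

lemma fam_prime {K : ℕ} (t : Fin K → ℕ) (n : ℕ) (j : {j // j ∈ Pn t n}) : (fam t n j).Prime :=
  (mem_filter.1 j.2).2

lemma fam_inj {K : ℕ} {t : Fin K → ℕ} (ht : Function.Injective t) (n : ℕ) : Function.Injective (fam t n) := by
  intro i j hij
  have h1 : n + t i.1 = n + t j.1 := hij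
  exact Subtype.ext (ht (by omega))

/-- few `n` with a large product character sum -/
lemma bad_n_count {K : ℕ} {t : Fin K → ℕ} (ht : Function.Injective t) (E : Finset ℕ) (M : ℝ) (X : ℕ) (hX : 1 ≤ X)
    (hE : ∀ a ∈ E, 1 ≤ a ∧ a ≤ X) (htX : ∀ j, t j ≤ X) (S : Finset ℕ)
    (hS : ∀ n ∈ S, X < n ∧ n ≤ 3 * X ∧ ¬ GoodT E M (fam t n)) : #S ≤ K * #(BadF E M ((4 * X) ^ K)) := by
  classical
  have hsub : S ⊆ (BadF E M ((4 * X) ^ K) ×ˢ (univ : Finset (Fin K))).image (fun fj => fj.1.minFac - t fj.2) := by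
    intro n hn
    obtain ⟨hn1, hn2, hbad⟩ := hS n hn
    unfold GoodT at hbad
    push Not at hbad
    obtain ⟨χ, hχ, hsum⟩ := hbad
    obtain ⟨f, hf1, hfd, ψ, hψ, hval⟩ := exists_primitive (fam t n) (fam_prime t n) (fam_inj ht n) χ hχ
    have hQ0 : 0 < ∏ j, fam t n j := prod_pos fun j _ => (fam_prime t n j).pos
    have hfY : f ≤ (4 * X) ^ K := by
      refine (Nat.le_of_dvd hQ0 hfd).trans ?_
      calc ∏ j, fam t n j ≤ ∏ _j : {j // j ∈ Pn t n}, (4 * X) := by
            apply prod_le_prod'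
            intro j _
            have := htX j.1
            show n + t j.1 ≤ 4 * X
            omega
        _ = (4 * X) ^ (#(Pn t n)) := by rw [prod_const, card_univ, Fintype.card_coe]
        _ ≤ (4 * X) ^ K := by
            apply Nat.pow_le_pow_right (by omega)
            have := card_filter_le (univ : Finset (Fin K)) (fun j => (n + t j).Prime)
            rw [card_univ, Fintype.card_fin] at this
            exact this
    have hfB : f ∈ BadF E M ((4 * X) ^ K) := by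
      unfold BadF
      rw [mem_filter, mem_Icc]
      refine ⟨⟨by omega, hfY⟩, hf1, ψ, hψ, ?_⟩
      have : ∑ a ∈ E, ψ (a : ZMod f) = ∑ a ∈ E, ∏ j, χ j (a : ZMod (fam t n j)) := by
        apply sum_congr rfl
        intro a ha
        apply hval
        intro j
        apply Nat.Coprime.symm
        rw [Nat.Prime.coprime_iff_not_dvd (fam_prime t n j)]
        intro hd
        have h1 := Nat.le_of_dvd (hE a ha).1 hd
        have h2 := (hE a ha).2
        have h3 : fam t n j = n + t j.1 := rfl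
        omega
      rw [this]
      exact hsum
    have hmp : f.minFac.Prime := Nat.minFac_prime (by omega)
    have hmd : f.minFac ∣ ∏ j, fam t n j := (Nat.minFac_dvd f).trans hfd
    rw [Prime.dvd_finsetProd_iff hmp.prime] at hmd
    obtain ⟨j, _, hj⟩ := hmd
    have h1 := (Nat.prime_dvd_prime_iff_eq hmp (fam_prime t n j)).1 hj
    rw [mem_image]
    refine ⟨(f, j.1), mem_product.2 ⟨hfB, mem_univ _⟩, ?_⟩
    show f.minFac - t j.1 = n
    rw [h1]
    show n + t j.1 - t j.1 = n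
    omega
  calc #S ≤ _ := card_le_card hsub
    _ ≤ _ := card_image_le
    _ = _ := by rw [card_product, card_univ, Fintype.card_fin, mul_comm]

lemma good_of_goodT {ι : Type} [Fintype ι] [DecidableEq ι] {p : ι → ℕ} (hp : ∀ i, (p i).Prime) {E : Finset ℕ} {M : ℝ}
    (hE : ∀ a ∈ E, ∀ i, (a : ZMod (p i)) ≠ 0) (hG : GoodT E M p) (i : ι) : Good E M (p i) := by
  intro χ hχ
  have hF : ∀ i, Fact (p i).Prime := fun i => ⟨hp i⟩
  have h1 := hG (Function.update (fun _ => 1) i χ) ⟨i, by rw [Function.update_self]; exact hχ⟩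
  have h2 : ∑ a ∈ E, ∏ j, (Function.update (fun _ => (1 : DirichletCharacter ℂ _)) i χ j) (a : ZMod (p j)) =
      ∑ a ∈ E, χ (a : ZMod (p i)) := by
    apply sum_congr rfl
    intro a ha
    rw [← mul_prod_erase univ _ (mem_univ i), Function.update_self, prod_eq_one, mul_one]
    intro j hj
    rw [Function.update_of_ne (ne_of_mem_erase hj)]
    exact MulChar.one_apply (hE a ha j).isUnit
  rw [← h2]
  exact h1

/-- a prime factor `q ∤ W` of `p - 1` for which `B a^r` is a `q`-th power residue -/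
def BadL (W : ℕ) (Bs : Finset (ℤ × ℕ)) (p a : ℕ) : Prop :=
  ∃ Br ∈ Bs, ∃ q : ℕ, q.Prime ∧ q ∣ p - 1 ∧ ¬ q ∣ W ∧ ((Br.1 * (a : ℤ) ^ Br.2 : ℤ) : ZMod p) ^ ((p - 1) / q) = 1

open Classical in
theorem badL_total {p : ℕ} (hp : p.Prime) (E : Finset ℕ) (M : ℝ) (hM : 0 ≤ M) (hG : Good E M p) (W : ℕ)
    (Bs : Finset (ℤ × ℕ)) (hB : ∀ Br ∈ Bs, ¬ (p : ℤ) ∣ Br.1) (hr : ∀ Br ∈ Bs, ∀ q : ℕ, q.Prime → ¬ q ∣ W → ¬ q ∣ Br.2)
    (hE : ∀ a ∈ E, (a : ZMod p) ≠ 0) :
    (#(E.filter fun a : ℕ => BadL W Bs p a) : ℝ) ≤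
      #Bs * ∑ q ∈ (p - 1).primeFactors.filter (fun q => ¬ q ∣ W), (#E / q + M) := by
  have : Fact p.Prime := ⟨hp⟩
  have hsub : E.filter (fun a : ℕ => BadL W Bs p a) ⊆
      Bs.biUnion (fun Br => ((p - 1).primeFactors.filter (fun q => ¬ q ∣ W)).biUnion (fun q =>
        E.filter (fun a : ℕ => ((Br.1 * (a : ℤ) ^ Br.2 : ℤ) : ZMod p) ^ ((p - 1) / q) = 1))) := by
    intro a ha
    rw [mem_filter] at ha
    obtain ⟨haE, Br, hBr, q, hq, hqd, hqW, h1⟩ := ha
    rw [mem_biUnion]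
    refine ⟨Br, hBr, ?_⟩
    rw [mem_biUnion]
    have hp1 : p - 1 ≠ 0 := by have := hp.two_le; omega
    exact ⟨q, mem_filter.2 ⟨Nat.mem_primeFactors.2 ⟨hq, hqd, hp1⟩, hqW⟩, mem_filter.2 ⟨haE, h1⟩⟩
  have h1 : (#(E.filter fun a : ℕ => BadL W Bs p a) : ℝ) ≤
      ∑ Br ∈ Bs, ∑ q ∈ (p - 1).primeFactors.filter (fun q => ¬ q ∣ W),
        (#(E.filter (fun a : ℕ => ((Br.1 * (a : ℤ) ^ Br.2 : ℤ) : ZMod p) ^ ((p - 1) / q) = 1)) : ℝ) := by
    have := (card_le_card hsub).trans (card_biUnion_le.trans (sum_le_sum fun r _ => card_biUnion_le))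
    exact_mod_cast this
  refine h1.trans ?_
  have h2 : ∀ Br ∈ Bs, ∑ q ∈ (p - 1).primeFactors.filter (fun q => ¬ q ∣ W),
        (#(E.filter (fun a : ℕ => ((Br.1 * (a : ℤ) ^ Br.2 : ℤ) : ZMod p) ^ ((p - 1) / q) = 1)) : ℝ) ≤
        ∑ q ∈ (p - 1).primeFactors.filter (fun q => ¬ q ∣ W), ((#E : ℝ) / q + M) := by
    intro Br hBr
    apply sum_le_sum
    intro q hq
    rw [mem_filter, Nat.mem_primeFactors] at hq
    exact residue_count E M hM hG Br.1 (hB Br hBr) hE hq.1.1 hq.1.2.1 (hr Br hBr q hq.1.1 hq.2)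
  refine (sum_le_sum h2).trans ?_
  rw [sum_const, nsmul_eq_mul]

/-- the rank of `n + t j` among the primes `n + t i` -/
def rk {K : ℕ} (t : Fin K → ℕ) (n : ℕ) (j : Fin K) : ℕ := #((Pn t n).filter (fun i => t i < t j))

/-- the set of primes for the index condition -/
def La (g e : ℕ) : Finset ℕ := (g / e).primeFactors

/-- the pattern condition at `n` -/
def TT {K : ℕ} (t : Fin K → ℕ) (g : ℕ) (I : ℕ → ℕ) (n a : ℕ) : Prop :=
  ∀ j : {j // j ∈ Pn t n}, IndP (fam t n j) (I (rk t n j.1)) (La g (I (rk t n j.1))) (a : ZMod (fam t n j))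

lemma tau_ge {g e : ℕ} (hg : 0 < g) (he : e ∣ g) :
    1 / ((g : ℝ) * 2 ^ g) ≤ (1 / (e : ℝ)) * ∏ l ∈ La g e, (1 - 1 / (l : ℝ)) := by
  have he0 : 0 < e := Nat.pos_of_dvd_of_pos he hg
  have hcard : #(La g e) ≤ g := by
    unfold La
    have h1 : (g / e).primeFactors ⊆ Icc 1 g := by
      intro l hl
      have h2 := Nat.prime_of_mem_primeFactors hl
      have h3 := Nat.dvd_of_mem_primeFactors hl
      rw [mem_Icc]
      exact ⟨h2.one_lt.le, (Nat.le_of_dvd (Nat.div_pos (Nat.le_of_dvd hg he) he0) h3).trans (Nat.div_le_self _ _)⟩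
    have := card_le_card h1
    rwa [Nat.card_Icc, Nat.add_sub_cancel] at this
  have h1 : (1 / 2 : ℝ) ^ #(La g e) ≤ ∏ l ∈ La g e, (1 - 1 / (l : ℝ)) := by
    rw [← prod_const]
    apply Finset.prod_le_prod
    · intro _ _; norm_num
    · intro l hl
      have h2 := (Nat.prime_of_mem_primeFactors hl).two_le
      have h3 : (1:ℝ) / l ≤ 1 / 2 := one_div_le_one_div_of_le (by norm_num) (by exact_mod_cast h2)
      linarith
  have h2 : (1 / 2 : ℝ) ^ g ≤ (1 / 2 : ℝ) ^ #(La g e) := pow_le_pow_of_le_one (by norm_num) (by norm_num) hcard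
  have h3 : (1 : ℝ) / g ≤ 1 / e := by
    apply one_div_le_one_div_of_le (by exact_mod_cast he0)
    exact_mod_cast Nat.le_of_dvd hg he
  calc 1 / ((g : ℝ) * 2 ^ g) = (1 / g) * (1 / 2 : ℝ) ^ g := by
        rw [one_div_pow, one_div_mul_one_div]
    _ ≤ _ := mul_le_mul h3 (h2.trans h1) (by positivity) (by positivity)

lemma La_card {g e : ℕ} (hg : 0 < g) (he : e ∣ g) : #(La g e) ≤ g := by
  have he0 : 0 < e := Nat.pos_of_dvd_of_pos he hg
  unfold La
  have h1 : (g / e).primeFactors ⊆ Icc 1 g := by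
    intro l hl
    have h2 := Nat.prime_of_mem_primeFactors hl
    have h3 := Nat.dvd_of_mem_primeFactors hl
    rw [mem_Icc]
    exact ⟨h2.one_lt.le, (Nat.le_of_dvd (Nat.div_pos (Nat.le_of_dvd hg he) he0) h3).trans (Nat.div_le_self _ _)⟩
  have := card_le_card h1
  rwa [Nat.card_Icc, Nat.add_sub_cancel] at this

open Classical in
/-- many elements of `E` satisfy the pattern condition, for good `n` -/
theorem TT_count {K : ℕ} {t : Fin K → ℕ} {g : ℕ} (hg : 0 < g) {I : ℕ → ℕ} (hI : ∀ l, I l ∣ g) (n : ℕ) (E : Finset ℕ) (M : ℝ)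
    (hM : 0 ≤ M) (hG : GoodT E M (fam t n)) (hE : ∀ a ∈ E, ∀ j, (a : ZMod (fam t n j)) ≠ 0)
    (hgd : ∀ j, g ∣ fam t n j - 1) :
    #E * (1 / ((g : ℝ) * 2 ^ g)) ^ K - M * (2 ^ g) ^ K ≤ (#(E.filter (fun a => TT t g I n a)) : ℝ) := by
  have hF : ∀ j, Fact (fam t n j).Prime := fun j => ⟨fam_prime t n j⟩
  have h1 := pattern_count (fam t n) E M hM hG hE (fun j => I (rk t n j.1)) (fun j => La g (I (rk t n j.1)))
    (fun j l hl => Nat.prime_of_mem_primeFactors hl) (fun j => by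
      refine dvd_trans ?_ (hgd j)
      have h2 : ∏ l ∈ La g (I (rk t n j.1)), l ∣ g / I (rk t n j.1) := Nat.prod_primeFactors_dvd _
      have h3 : I (rk t n j.1) * (g / I (rk t n j.1)) = g := Nat.mul_div_cancel' (hI _)
      calc I (rk t n j.1) * ∏ l ∈ La g (I (rk t n j.1)), l ∣ I (rk t n j.1) * (g / I (rk t n j.1)) :=
            Nat.mul_dvd_mul_left _ h2
        _ = g := h3)
  have hcard : Fintype.card {j // j ∈ Pn t n} ≤ K := by
    rw [Fintype.card_coe]
    have := card_filter_le (univ : Finset (Fin K)) (fun j => (n + t j).Prime)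
    rw [card_univ, Fintype.card_fin] at this
    exact this
  have hτ0 : (0:ℝ) < 1 / ((g : ℝ) * 2 ^ g) := by
    have : (0:ℝ) < g := by exact_mod_cast hg
    positivity
  have hτ1 : (1:ℝ) / ((g : ℝ) * 2 ^ g) ≤ 1 := by
    rw [div_le_one (by have : (0:ℝ) < g := by exact_mod_cast hg
                       positivity)]
    have h2 : (1:ℝ) ≤ g := by exact_mod_cast hg
    have h3 : (1:ℝ) ≤ 2 ^ g := one_le_pow₀ (by norm_num)
    nlinarith
  have h2 : (1 / ((g : ℝ) * 2 ^ g)) ^ K ≤ ∏ j : {j // j ∈ Pn t n}, ((1 / ((I (rk t n j.1) : ℕ) : ℝ)) * ∏ l ∈ La g (I (rk t n j.1)), (1 - 1 / (l : ℝ))) := by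
    calc (1 / ((g : ℝ) * 2 ^ g)) ^ K ≤ (1 / ((g : ℝ) * 2 ^ g)) ^ (Fintype.card {j // j ∈ Pn t n}) :=
          pow_le_pow_of_le_one hτ0.le hτ1 hcard
      _ = ∏ _j : {j // j ∈ Pn t n}, (1 / ((g : ℝ) * 2 ^ g)) := by rw [prod_const, card_univ]
      _ ≤ _ := by
          apply Finset.prod_le_prod
          · intro _ _; exact hτ0.le
          · intro j _; exact tau_ge hg (hI _)
  have h3 : ∏ j : {j // j ∈ Pn t n}, (2 : ℝ) ^ #(La g (I (rk t n j.1))) ≤ (2 ^ g) ^ K := by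
    calc ∏ j : {j // j ∈ Pn t n}, (2 : ℝ) ^ #(La g (I (rk t n j.1))) ≤ ∏ _j : {j // j ∈ Pn t n}, (2 : ℝ) ^ g := by
          apply Finset.prod_le_prod
          · intro _ _; positivity
          · intro j _
            exact pow_le_pow_right₀ (by norm_num) (La_card hg (hI _))
      _ = (2 ^ g) ^ (Fintype.card {j // j ∈ Pn t n}) := by rw [prod_const, card_univ]
      _ ≤ _ := pow_le_pow_right₀ (one_le_pow₀ (by norm_num)) hcard
  have h4 := (abs_le.1 h1).1
  have h5 : (#E : ℝ) * (1 / ((g : ℝ) * 2 ^ g)) ^ K ≤ #E * ∏ j : {j // j ∈ Pn t n}, ((1 / ((I (rk t n j.1) : ℕ) : ℝ)) * ∏ l ∈ La g (I (rk t n j.1)), (1 - 1 / (l : ℝ))) :=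
    mul_le_mul_of_nonneg_left h2 (Nat.cast_nonneg _)
  have h6 := mul_le_mul_of_nonneg_left h3 hM
  have h7 : E.filter (fun a => TT t g I n a) = (E.filter fun a : ℕ => ∀ i : {j // j ∈ Pn t n}, IndP (fam t n i) (I (rk t n i.1)) (La g (I (rk t n i.1))) (a : ZMod (fam t n i))) := by
    ext a
    rw [mem_filter, mem_filter]
    exact Iff.rfl
  rw [h7]
  linarith

end Pool.Agent.TH891.PI
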