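import Pool.Agent.TH891.PI.M5

set_option autoImplicit false

/-! # One scale -/

namespace Pool.Agent.TH891.PI

open Finset Filter Topology
open Pool.Agent.H378R2 Pool.Agent.H387R2.MB
open Pool.Agent.H386R2.Artin (Good)
open Pool.Agent.TH891.PR (RA weight_sum cs_fix omega_small QQ_nonneg)

/-- at least `k + 1` primes in `(n, n + H]`, all `≡ c (mod f)`, with the local conditions -/
def GnI (k H f c : ℕ) (I : ℕ → ℕ) (Bs : Finset (ℤ × ℕ)) (n a : ℕ) : Prop :=
  k + 1 ≤ #{p ∈ Ioc n (n + H) | p.Prime} ∧ ∀ p ∈ Ioc n (n + H), p.Prime → p ≡ c [MOD f] ∧ Nat.gcd (c - 1) f ∣ p - 1 ∧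
    IndP p (I #{q ∈ Ioo n p | q.Prime}) (La (Nat.gcd (c - 1) f) (I #{q ∈ Ioo n p | q.Prime})) (a : ZMod p) ∧
    ∀ Br ∈ Bs, ∀ q : ℕ, q.Prime → q ∣ (p - 1) / Nat.gcd (c - 1) f → ((Br.1 * (a : ℤ) ^ Br.2 : ℤ) : ZMod p) ^ ((p - 1) / q) ≠ 1

/-- the event at `n` -/
def EV {K : ℕ} (k : ℕ) (δ X : ℝ) (t : Fin K → ℕ) (n : ℕ) : Prop := k + 1 ≤ #(Pn t n) ∧ RA δ X t n

open Classical in
/-- the weighted number of `n` with the pattern condition -/
noncomputable def Sg {K : ℕ} (k : ℕ) (δ : ℝ) (X W a0 : ℕ) (t : Fin K → ℕ) (g : ℕ) (I : ℕ → ℕ) (a : ℕ) : ℝ :=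
  ∑ n ∈ Icc 1 (3 * X), nu X W a0 n * (if EV k δ X t n ∧ TT t g I n a then 1 else 0)

open Classical in
/-- the weighted number of `n` with a bad prime -/
noncomputable def SbI {K : ℕ} (δ : ℝ) (X W a0 : ℕ) (t : Fin K → ℕ) (Bs : Finset (ℤ × ℕ)) (a : ℕ) : ℝ :=
  ∑ n ∈ Icc 1 (3 * X), nu X W a0 n * (if RA δ X t n ∧ ∃ j, (n + t j).Prime ∧ BadL W Bs (n + t j) a then 1 else 0)

lemma nu_le_one (X : ℝ) (W a n : ℕ) : nu X W a n ≤ 1 := by
  unfold nu
  split_ifs
  · exact Phi_le_one _
  · norm_num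

lemma nu_ne {X W a0 n : ℕ} (hX : 0 < X) (h : nu X W a0 n ≠ 0) : n ≡ a0 [MOD W] ∧ X < n := by
  have hX0 : (0:ℝ) < X := by exact_mod_cast hX
  constructor
  · by_contra hc
    apply h
    unfold nu
    rw [if_neg hc]
  · by_contra hle
    push Not at hle
    apply h
    unfold nu
    rw [Phi_eq_zero_of_le (by positivity) (by rw [div_le_one hX0]; exact_mod_cast hle), ite_self]

open Classical in
theorem sumSg_lower {f c : ℕ} {K : ℕ} {δ c0 : ℝ} {X y W a0 H k : ℕ} {t : Fin K → ℕ} (hc : Cf f c y W a0 H t)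
    (hg : 0 < Nat.gcd (c - 1) f) {I : ℕ → ℕ} (hI : ∀ l, I l ∣ Nat.gcd (c - 1) f)
    (hpos : c0 * QQ K X W W.primeFactors ≤ ∑ n ∈ Icc 1 (3 * X), nu X W a0 n * (if EV k δ X t n then 1 else 0))
    (hX : 0 < X) (hHX : H ≤ X) (E : Finset ℕ) (hE : ∀ a ∈ E, 1 ≤ a ∧ a ≤ X) {M : ℝ} (hM : 0 ≤ M)
    (hA : 0 ≤ #E * (1 / (((Nat.gcd (c - 1) f : ℕ) : ℝ) * 2 ^ Nat.gcd (c - 1) f)) ^ K - M * (2 ^ Nat.gcd (c - 1) f) ^ K) :
    (#E * (1 / (((Nat.gcd (c - 1) f : ℕ) : ℝ) * 2 ^ Nat.gcd (c - 1) f)) ^ K - M * (2 ^ Nat.gcd (c - 1) f) ^ K) *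
      (c0 * QQ K X W W.primeFactors - K * #(BadF E M ((4 * X) ^ K))) ≤
      ∑ a ∈ E, Sg k δ X W a0 t (Nat.gcd (c - 1) f) I a := by
  obtain ⟨g, hgd⟩ : ∃ g, g = Nat.gcd (c - 1) f := ⟨_, rfl⟩
  obtain ⟨A, hAd⟩ : ∃ A : ℝ, A = #E * (1 / (((Nat.gcd (c - 1) f : ℕ) : ℝ) * 2 ^ Nat.gcd (c - 1) f)) ^ K -
    M * (2 ^ Nat.gcd (c - 1) f) ^ K := ⟨_, rfl⟩
  rw [← hAd] at hA ⊢
  have h1 : ∑ a ∈ E, Sg k δ X W a0 t (Nat.gcd (c - 1) f) I a = ∑ n ∈ Icc 1 (3 * X), nu X W a0 n *
      (if EV k δ X t n then (#(E.filter (fun a => TT t (Nat.gcd (c - 1) f) I n a)) : ℝ) else 0) := by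
    unfold Sg
    rw [sum_comm]
    apply sum_congr rfl
    intro n _
    rw [← mul_sum]
    congr 1
    by_cases h : EV k δ X t n
    · rw [if_pos h, card_filter]
      push_cast
      apply sum_congr rfl
      intro a _
      by_cases h2 : TT t (Nat.gcd (c - 1) f) I n a
      · rw [if_pos ⟨h, h2⟩, if_pos h2]
      · rw [if_neg (fun h3 => h2 h3.2), if_neg h2]
    · rw [if_neg h]
      apply sum_eq_zero
      intro a _
      rw [if_neg (fun h3 => h h3.1)]
  rw [h1]
  obtain ⟨S, hS⟩ : ∃ S : Finset ℕ, S = (Icc 1 (3 * X)).filter (fun n => X < n ∧ ¬ GoodT E M (fam t n)) := ⟨_, rfl⟩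
  have hScard : #S ≤ K * #(BadF E M ((4 * X) ^ K)) := by
    apply bad_n_count hc.inj E M X hX hE (fun j => (hc.tH j).2.trans hHX) S
    intro n hn
    rw [hS, mem_filter, mem_Icc] at hn
    exact ⟨hn.2.1, hn.1.2, hn.2.2⟩
  have hpt : ∀ n ∈ Icc 1 (3 * X), A * (nu X W a0 n * (if EV k δ X t n then 1 else 0) - (if n ∈ S then 1 else 0)) ≤
      nu X W a0 n * (if EV k δ X t n then (#(E.filter (fun a => TT t (Nat.gcd (c - 1) f) I n a)) : ℝ) else 0) := by
    intro n hn
    have hnu := nu_nonneg X W a0 n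
    have hnu1 := nu_le_one X W a0 n
    have hr0 : 0 ≤ nu X W a0 n * (if EV k δ X t n then (#(E.filter (fun a => TT t (Nat.gcd (c - 1) f) I n a)) : ℝ) else 0) := by
      apply mul_nonneg hnu
      split_ifs <;> positivity
    by_cases hz : nu X W a0 n = 0
    · rw [hz, zero_mul, zero_mul]
      apply mul_nonpos_of_nonneg_of_nonpos hA
      split_ifs <;> norm_num
    · obtain ⟨hmod, hnX⟩ := nu_ne hX hz
      by_cases hnS : n ∈ S
      · refine le_trans ?_ hr0
        apply mul_nonpos_of_nonneg_of_nonpos hA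
        rw [if_pos hnS]
        split_ifs
        · linarith
        · linarith
      · rw [if_neg hnS, sub_zero]
        by_cases hev : EV k δ X t n
        · rw [if_pos hev, if_pos hev, mul_one, mul_comm A]
          apply mul_le_mul_of_nonneg_left _ hnu
          have hG : GoodT E M (fam t n) := by
            by_contra hb
            apply hnS
            rw [hS, mem_filter]
            exact ⟨hn, hnX, hb⟩
          rw [hAd]
          apply TT_count hg hI n E M hM hG
          · intro a ha j h0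
            have h2 : fam t n j ∣ a := by rwa [ZMod.natCast_eq_zero_iff] at h0
            have h3 := Nat.le_of_dvd (hE a ha).1 h2
            have h4 := (hE a ha).2
            have h5 : fam t n j = n + t j.1 := rfl
            omega
          · intro j
            exact hc.gd n hmod j.1
        · rw [if_neg hev, if_neg hev, mul_zero, mul_zero]
  refine le_trans ?_ (sum_le_sum hpt)
  rw [← mul_sum, sum_sub_distrib]
  apply mul_le_mul_of_nonneg_left _ hA
  have h2 : ∑ n ∈ Icc 1 (3 * X), (if n ∈ S then (1:ℝ) else 0) ≤ K * #(BadF E M ((4 * X) ^ K)) := by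
    rw [← sum_filter, sum_const, nsmul_eq_mul, mul_one]
    have h3 : #((Icc 1 (3 * X)).filter (fun n => n ∈ S)) ≤ #S := card_le_card (by
      intro n hn
      exact (mem_filter.1 hn).2)
    exact_mod_cast h3.trans hScard
  linarith

open Classical in
theorem sumSb_upper {f c : ℕ} {K : ℕ} {δ C1 ε L : ℝ} {X z y W a0 H J : ℕ} {t : Fin K → ℕ} (hc : Cf f c y W a0 H t)
    (hC1 : 0 ≤ C1) (hy : 1 ≤ y)
    (hup : ∀ (W : ℕ) (E : Finset ℕ) (a0 : ℕ) (t : Fin K → ℕ), CS X z W E → DT E t →
      ∑ n ∈ Icc 1 ⌊3 * (X : ℝ)⌋₊, nu X W a0 n * (if RA δ X t n then 1 else 0) ≤ C1 * QQ K X W E)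
    (hcs : CS X z W W.primeFactors ∧ ∀ q : ℕ, q.Prime → ¬ q ∣ W → (q : ℝ) ≤ Real.log X →
      CS X z (W * q) (insert q W.primeFactors))
    (hom : ∀ u : ℕ, u ≠ 0 → (u : ℝ) ≤ 4 * X →
      (#(u.primeFactors.filter (fun q => ⌊Real.log X⌋₊ < q)) : ℝ) / ⌊Real.log X⌋₊ + #u.primeFactors / Real.log X ≤ ε)
    (hLL : 0 < LL X) (hlog : 2 ≤ Real.log X) (hL : Real.log X ≤ L) (hX : 0 < X) (hHX : H ≤ X)
    (Bs : Finset (ℤ × ℕ)) (hJ : #Bs ≤ J) (hB : ∀ Br ∈ Bs, ∀ p : ℕ, p.Prime → X < p → ¬ (p : ℤ) ∣ Br.1)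
    (hr : ∀ Br ∈ Bs, ∀ q : ℕ, q.Prime → ¬ q ∣ W → ¬ q ∣ Br.2)
    (E : Finset ℕ) (hE : ∀ a ∈ E, 1 ≤ a ∧ a ≤ X) :
    ∑ a ∈ E, SbI δ X W a0 t Bs a ≤
      #E * (K * #(BadF E ((#E : ℝ) / L) ((4 * X) ^ K)) + J * K * (C1 * QQ K X W W.primeFactors * (2 ^ K / y + ε))) := by
  have hlog0 : 0 < Real.log X := by linarith
  have hL0 : 0 < L := by linarith
  have hX0 : (0:ℝ) < X := by exact_mod_cast hX
  have hfl : ⌊3 * (X : ℝ)⌋₊ = 3 * X := by
    have : 3 * (X : ℝ) = ((3 * X : ℕ) : ℝ) := by push_cast; ring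
    rw [this, Nat.floor_natCast]
  set w : ℕ → ℝ := fun n => nu X W a0 n * (if RA δ X t n then 1 else 0) with hw
  have hw0 : ∀ n, 0 ≤ w n := by
    intro n
    apply mul_nonneg (nu_nonneg _ _ _ _)
    split_ifs <;> norm_num
  have hw1 : ∀ n, w n ≤ 1 := by
    intro n
    have h1 := nu_le_one X W a0 n
    have h2 : (if RA δ X t n then (1:ℝ) else 0) ≤ 1 := by split_ifs <;> norm_num
    have h3 : (0:ℝ) ≤ (if RA δ X t n then (1:ℝ) else 0) := by split_ifs <;> norm_num
    calc w n ≤ 1 * 1 := mul_le_mul h1 h2 h3 zero_le_one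
      _ = 1 := one_mul 1
  obtain ⟨M, hM⟩ : ∃ M : ℝ, M = (#E : ℝ) / L := ⟨_, rfl⟩
  have hM0 : 0 ≤ M := by rw [hM]; positivity
  rw [← hM]
  obtain ⟨S, hS⟩ : ∃ S : Finset ℕ, S = (Icc 1 (3 * X)).filter (fun n => X < n ∧ ¬ GoodT E M (fam t n)) := ⟨_, rfl⟩
  have hScard : #S ≤ K * #(BadF E M ((4 * X) ^ K)) := by
    apply bad_n_count hc.inj E M X hX hE (fun j => (hc.tH j).2.trans hHX) S
    intro n hn
    rw [hS, mem_filter, mem_Icc] at hn
    exact ⟨hn.2.1, hn.1.2, hn.2.2⟩
  have h1 : ∑ a ∈ E, SbI δ X W a0 t Bs a =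
      ∑ n ∈ Icc 1 (3 * X), w n * (#(E.filter (fun a => ∃ j, (n + t j).Prime ∧ BadL W Bs (n + t j) a)) : ℝ) := by
    unfold SbI
    rw [sum_comm]
    apply sum_congr rfl
    intro n _
    rw [card_filter]
    push_cast
    rw [mul_sum]
    apply sum_congr rfl
    intro a _
    simp only [hw]
    rw [mul_assoc]
    congr 1
    by_cases hc1 : RA δ X t n
    · by_cases hc2 : ∃ j, (n + t j).Prime ∧ BadL W Bs (n + t j) a
      · rw [if_pos hc1, if_pos ⟨hc1, hc2⟩, one_mul, if_pos hc2]
      · rw [if_pos hc1, if_neg (show ¬ (RA δ X t n ∧ ∃ j, (n + t j).Prime ∧ BadL W Bs (n + t j) a) from fun h => hc2 h.2),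
          if_neg hc2, mul_zero]
    · rw [if_neg hc1, if_neg (show ¬ (RA δ X t n ∧ ∃ j, (n + t j).Prime ∧ BadL W Bs (n + t j) a) from fun h => hc1 h.1),
        zero_mul]
  rw [h1]
  have h2 : ∀ n ∈ Icc 1 (3 * X), w n * (#(E.filter (fun a => ∃ j, (n + t j).Prime ∧ BadL W Bs (n + t j) a)) : ℝ) ≤
      (#E : ℝ) * (if n ∈ S then 1 else 0) + ∑ j, J * #E *
        (w n * ∑ q ∈ (n + t j - 1).primeFactors.filter (fun q => ¬ q ∣ W), ((1 : ℝ) / q + 1 / L)) := by
    intro n hn
    have hG0 : 0 ≤ ∑ j, J * #E * (w n * ∑ q ∈ (n + t j - 1).primeFactors.filter (fun q => ¬ q ∣ W), ((1 : ℝ) / q + 1 / L)) := by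
      apply sum_nonneg
      intro j _
      have := hw0 n
      positivity
    have hcardE : (#(E.filter (fun a => ∃ j, (n + t j).Prime ∧ BadL W Bs (n + t j) a)) : ℝ) ≤ #E := by
      exact_mod_cast card_le_card (filter_subset _ _)
    by_cases hn0 : nu X W a0 n = 0
    · have hwn : w n = 0 := by simp only [hw]; rw [hn0, zero_mul]
      rw [hwn, zero_mul]
      rw [hwn] at hG0
      have : (0:ℝ) ≤ (#E : ℝ) * (if n ∈ S then 1 else 0) := by split_ifs <;> positivity
      linarith
    · obtain ⟨hmod, hnX⟩ := nu_ne hX hn0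
      by_cases hnS : n ∈ S
      · rw [if_pos hnS, mul_one]
        have : w n * (#(E.filter (fun a => ∃ j, (n + t j).Prime ∧ BadL W Bs (n + t j) a)) : ℝ) ≤ 1 * #E :=
          mul_le_mul (hw1 n) hcardE (Nat.cast_nonneg _) zero_le_one
        linarith
      · rw [if_neg hnS, mul_zero, zero_add]
        have hG : GoodT E M (fam t n) := by
          by_contra hb
          apply hnS
          rw [hS, mem_filter]
          exact ⟨hn, hnX, hb⟩
        have hEp : ∀ a ∈ E, ∀ j, (a : ZMod (fam t n j)) ≠ 0 := by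
          intro a ha j h0
          have h2 : fam t n j ∣ a := by rwa [ZMod.natCast_eq_zero_iff] at h0
          have h3 := Nat.le_of_dvd (hE a ha).1 h2
          have h4 := (hE a ha).2
          have h5 : fam t n j = n + t j.1 := rfl
          omega
        have h3 : (#(E.filter (fun a => ∃ j, (n + t j).Prime ∧ BadL W Bs (n + t j) a)) : ℝ) ≤
            ∑ j, (#(E.filter (fun a => (n + t j).Prime ∧ BadL W Bs (n + t j) a)) : ℝ) := by
          have hsub : E.filter (fun a => ∃ j, (n + t j).Prime ∧ BadL W Bs (n + t j) a) ⊆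
              univ.biUnion (fun j => E.filter (fun a => (n + t j).Prime ∧ BadL W Bs (n + t j) a)) := by
            intro m hm
            rw [mem_filter] at hm
            obtain ⟨hmE, j, hj⟩ := hm
            rw [mem_biUnion]
            exact ⟨j, mem_univ j, mem_filter.2 ⟨hmE, hj⟩⟩
          exact_mod_cast (card_le_card hsub).trans card_biUnion_le
        have h4 : ∀ j : Fin K, (#(E.filter (fun a => (n + t j).Prime ∧ BadL W Bs (n + t j) a)) : ℝ) ≤
            J * #E * ∑ q ∈ (n + t j - 1).primeFactors.filter (fun q => ¬ q ∣ W), ((1 : ℝ) / q + 1 / L) := by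
          intro j
          by_cases hp : (n + t j).Prime
          · have hjP : j ∈ Pn t n := mem_filter.2 ⟨mem_univ _, hp⟩
            have hgood : Good E M (n + t j) := good_of_goodT (fam_prime t n) hEp hG ⟨j, hjP⟩
            have h5 := badL_total hp E M hM0 hgood W Bs (fun Br hBr => hB Br hBr _ hp (by omega)) hr
              (fun a ha => hEp a ha ⟨j, hjP⟩)
            have h6 : E.filter (fun a => (n + t j).Prime ∧ BadL W Bs (n + t j) a) = E.filter (fun a => BadL W Bs (n + t j) a) := by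
              apply filter_congr
              intro m _
              exact ⟨fun h => h.2, fun h => ⟨hp, h⟩⟩
            rw [h6]
            refine h5.trans ?_
            have h7 : ∑ q ∈ (n + t j - 1).primeFactors.filter (fun q => ¬ q ∣ W), ((#E : ℝ) / q + M) =
                #E * ∑ q ∈ (n + t j - 1).primeFactors.filter (fun q => ¬ q ∣ W), ((1 : ℝ) / q + 1 / L) := by
              rw [mul_sum]
              apply sum_congr rfl
              intro q _
              rw [hM]; ring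
            rw [h7, ← mul_assoc]
            have hBJ : (#Bs : ℝ) ≤ J := by exact_mod_cast hJ
            have h8 : 0 ≤ ∑ q ∈ (n + t j - 1).primeFactors.filter (fun q => ¬ q ∣ W), ((1 : ℝ) / q + 1 / L) := by positivity
            gcongr
          · have : E.filter (fun a => (n + t j).Prime ∧ BadL W Bs (n + t j) a) = ∅ := by
              apply filter_eq_empty_iff.2
              intro m _ h
              exact hp h.1
            rw [this, card_empty]
            push_cast
            positivity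
        calc _ ≤ w n * ∑ j, (#(E.filter (fun a => (n + t j).Prime ∧ BadL W Bs (n + t j) a)) : ℝ) :=
              mul_le_mul_of_nonneg_left h3 (hw0 n)
          _ ≤ w n * ∑ j : Fin K, J * #E * ∑ q ∈ (n + t j - 1).primeFactors.filter (fun q => ¬ q ∣ W), ((1 : ℝ) / q + 1 / L) :=
              mul_le_mul_of_nonneg_left (sum_le_sum fun j _ => h4 j) (hw0 n)
          _ = _ := by
              rw [mul_sum]
              apply sum_congr rfl
              intro j _
              ring
  refine (sum_le_sum h2).trans ?_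
  rw [sum_add_distrib, ← mul_sum, sum_comm]
  have h5 : ∑ n ∈ Icc 1 (3 * X), (if n ∈ S then (1:ℝ) else 0) ≤ K * #(BadF E M ((4 * X) ^ K)) := by
    rw [← sum_filter, sum_const, nsmul_eq_mul, mul_one]
    have h3 : #((Icc 1 (3 * X)).filter (fun n => n ∈ S)) ≤ #S := card_le_card (by
      intro n hn
      exact (mem_filter.1 hn).2)
    exact_mod_cast h3.trans hScard
  have h6 : ∀ j : Fin K, ∑ n ∈ Icc 1 (3 * X), J * #E *
        (w n * ∑ q ∈ (n + t j - 1).primeFactors.filter (fun q => ¬ q ∣ W), ((1 : ℝ) / q + 1 / L)) ≤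
      J * #E * (C1 * QQ K X W W.primeFactors * (2 ^ K / y + ε)) := by
    intro j
    rw [← mul_sum]
    apply mul_le_mul_of_nonneg_left _ (by positivity)
    have h7 := weight_sum hC1 hy hup hcs hom hLL hlog hL hc.sm hc.dt (a0 := a0) (fun i => (hc.tH i).1)
      (fun i => by exact_mod_cast (hc.tH i).2.trans hHX) hX0 j
    rw [hfl] at h7
    exact h7
  calc _ ≤ (#E : ℝ) * (K * #(BadF E M ((4 * X) ^ K))) +
        ∑ _j : Fin K, J * #E * (C1 * QQ K X W W.primeFactors * (2 ^ K / y + ε)) :=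
        add_le_add (mul_le_mul_of_nonneg_left h5 (Nat.cast_nonneg _)) (sum_le_sum fun j _ => h6 j)
    _ = _ := by
        rw [sum_const, card_univ, Fintype.card_fin, nsmul_eq_mul]
        ring

open Classical in
/-- elements outside the exceptional set have many strings -/
theorem lower_one {f c : ℕ} {K : ℕ} {δ : ℝ} {X y W a0 H k : ℕ} {t : Fin K → ℕ} (hc : Cf f c y W a0 H t)
    (I : ℕ → ℕ) (Bs : Finset (ℤ × ℕ)) (hX : 0 < X) (hWX : W ≤ X) (a : ℕ) :
    Sg k δ X W a0 t (Nat.gcd (c - 1) f) I a - SbI δ X W a0 t Bs a ≤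
      (#((Ioc X (3 * X)).filter (fun n => GnI k H f c I Bs n a)) : ℝ) := by
  have hpt : ∀ n ∈ Icc 1 (3 * X), nu X W a0 n * (if EV k δ X t n ∧ TT t (Nat.gcd (c - 1) f) I n a then 1 else 0) -
      nu X W a0 n * (if RA δ X t n ∧ ∃ j, (n + t j).Prime ∧ BadL W Bs (n + t j) a then 1 else 0) ≤
      if X < n ∧ GnI k H f c I Bs n a then 1 else 0 := by
    intro n hn
    have hnu := nu_nonneg X W a0 n
    have hnu1 := nu_le_one X W a0 n
    have hr0 : (0:ℝ) ≤ if X < n ∧ GnI k H f c I Bs n a then 1 else 0 := by split_ifs <;> norm_num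
    by_cases hz : nu X W a0 n = 0
    · rw [hz, zero_mul, zero_mul, sub_zero]; exact hr0
    obtain ⟨hmod, hnX⟩ := nu_ne hX hz
    have hWn : W < n := by omega
    by_cases hev : EV k δ X t n ∧ TT t (Nat.gcd (c - 1) f) I n a
    · by_cases hbad : ∃ j, (n + t j).Prime ∧ BadL W Bs (n + t j) a
      · rw [if_pos hev, if_pos ⟨hev.1.2, hbad⟩, sub_self]
        exact hr0
      · have hprime : ∀ p ∈ Ioc n (n + H), p.Prime → ∃ j, p = n + t j := by
          intro p hp hpp
          rw [mem_Ioc] at hp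
          obtain ⟨h, rfl⟩ := Nat.exists_eq_add_of_lt hp.1
          obtain ⟨j, hj⟩ := hc.pr n hmod hWn (h + 1) (by omega) (by omega) (by rw [← add_assoc]; exact hpp)
          exact ⟨j, by omega⟩
        have hG : GnI k H f c I Bs n a := by
          constructor
          · refine hev.1.1.trans ?_
            apply card_le_card_of_injOn (fun j => n + t j)
            · intro j hj
              have h3 : (n + t j).Prime := (mem_filter.1 (mem_coe.1 hj)).2
              have := hc.tH j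
              have h2 : n + t j ∈ Ioc n (n + H) := mem_Ioc.2 ⟨by omega, by omega⟩
              exact mem_filter.2 ⟨h2, h3⟩
            · intro i _ j _ hij
              beta_reduce at hij
              exact hc.inj (by omega)
          · intro p hp hpp
            obtain ⟨j, hj⟩ := hprime p hp hpp
            have hjp : (n + t j).Prime := hj ▸ hpp
            have hjP : j ∈ Pn t n := mem_filter.2 ⟨mem_univ _, hjp⟩
            have hrk : #{q ∈ Ioo n p | q.Prime} = rk t n j := by
              symm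
              unfold rk
              apply card_bij (fun i _ => n + t i)
              · intro i hi
                rw [mem_filter] at hi
                have h3 : (n + t i).Prime := (mem_filter.1 hi.1).2
                rw [mem_filter, mem_Ioo]
                have := hc.tH i
                refine ⟨⟨by omega, by omega⟩, h3⟩
              · intro i _ i' _ hii
                exact hc.inj (by omega)
              · intro q hq
                rw [mem_filter, mem_Ioo] at hq
                rw [mem_Ioc] at hp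
                obtain ⟨i, hi⟩ := hprime q (mem_Ioc.2 ⟨hq.1.1, by omega⟩) hq.2
                refine ⟨i, ?_, hi.symm⟩
                rw [mem_filter]
                refine ⟨mem_filter.2 ⟨mem_univ _, hi ▸ hq.2⟩, by omega⟩
            rw [hrk]
            refine ⟨?_, ?_, ?_, ?_⟩
            · rw [hj]; exact hc.cl n hmod j
            · rw [hj]; exact hc.gd n hmod j
            · have h4 := hev.2 ⟨j, hjP⟩
              subst hj
              exact h4
            · intro Br hBr q hq hqd h5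
              apply hbad
              refine ⟨j, hjp, Br, hBr, q, hq, ?_, ?_, ?_⟩
              · rw [← hj]
                exact hqd.trans (Nat.div_dvd_of_dvd (by rw [hj]; exact hc.gd n hmod j))
              · intro hqW
                exact hc.pm n hmod j q hq hqW (by rw [← hj]; exact hqd)
              · rw [← hj]; exact h5
        rw [if_pos hev, if_pos (show X < n ∧ GnI k H f c I Bs n a from ⟨hnX, hG⟩), mul_one]
        have : 0 ≤ nu X W a0 n * (if RA δ X t n ∧ ∃ j, (n + t j).Prime ∧ BadL W Bs (n + t j) a then (1:ℝ) else 0) := by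
          apply mul_nonneg hnu
          split_ifs <;> norm_num
        linarith
    · rw [if_neg hev, mul_zero]
      have : 0 ≤ nu X W a0 n * (if RA δ X t n ∧ ∃ j, (n + t j).Prime ∧ BadL W Bs (n + t j) a then (1:ℝ) else 0) := by
        apply mul_nonneg hnu
        split_ifs <;> norm_num
      linarith
  unfold Sg SbI
  rw [← sum_sub_distrib]
  refine (sum_le_sum hpt).trans ?_
  rw [← sum_filter, sum_const, nsmul_eq_mul, mul_one]
  have : (Icc 1 (3 * X)).filter (fun n => X < n ∧ GnI k H f c I Bs n a) ⊆ (Ioc X (3 * X)).filter (fun n => GnI k H f c I Bs n a) := by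
    intro n hn
    rw [mem_filter, mem_Icc] at hn
    rw [mem_filter, mem_Ioc]
    exact ⟨⟨hn.2.1, hn.1.2⟩, hn.2.2⟩
  exact_mod_cast card_le_card this

end Pool.Agent.TH891.PI
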