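import Pool.Agent.TH891.PI.M6

set_option autoImplicit false

/-! # The exceptional set: one scale and all scales -/

namespace Pool.Agent.TH891.PI

open Finset Filter Topology
open Pool.Agent.H378R2 Pool.Agent.H387R2.MB
open Pool.Agent.H386R2.Artin (Good)
open Pool.Agent.TH891.PR (RA weight_sum cs_fix omega_small QQ_nonneg)

open Classical in
/-- few exceptions at one scale -/
theorem few_at_scaleI (k : ℕ) : ∃ K : ℕ, ∀ f c : ℕ, 0 < f → 2 ∣ f → c.Coprime f → 1 ≤ c → ∀ R J : ℕ, ∃ H : ℕ,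
    ∀ᶠ X : ℕ in atTop, ∀ I : ℕ → ℕ, (∀ l, I l ∣ Nat.gcd (c - 1) f) → ∀ Bs : Finset (ℤ × ℕ), #Bs ≤ J →
      (∀ Br ∈ Bs, 1 ≤ Br.2 ∧ Br.2 ≤ R ∧ ∀ p : ℕ, p.Prime → X < p → ¬ (p : ℤ) ∣ Br.1) → ∀ N : ℕ, N ≤ X →
      ∃ Z ⊆ Icc 1 N,
        ((#(BadF Z ((#Z : ℝ) / Real.log X) ((4 * X) ^ K)) : ℝ) ≤ (X : ℝ) ^ (1 / 2 : ℝ) → Z = ∅) ∧
        ∀ a ∈ Icc 1 N, a ∉ Z → (X : ℝ) / Real.log X ^ (K + 4) ≤
          (#((Ioc X (3 * X)).filter (fun n => GnI k H f c I Bs n a)) : ℝ) := by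
  obtain ⟨K, hK1, δ, hδ, hδ1, c0, hc0, z, hpos⟩ := pos1M k
  obtain ⟨C1, hC1, z1, hup⟩ := rough_up K hδ
  refine ⟨K, fun f c hf hf2 hcf hc1 R J => ?_⟩
  obtain ⟨g, hg⟩ : ∃ g, g = Nat.gcd (c - 1) f := ⟨_, rfl⟩
  have hg0 : 0 < g := by rw [hg]; exact Nat.gcd_pos_of_pos_right _ hf
  have hg0' : (0:ℝ) < g := by exact_mod_cast hg0
  obtain ⟨τ, hτ⟩ : ∃ τ : ℝ, τ = (1 / ((g : ℝ) * 2 ^ g)) ^ K := ⟨_, rfl⟩
  have hτ0 : 0 < τ := by rw [hτ]; positivity
  have hτ1 : τ ≤ 1 := by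
    rw [hτ]
    apply pow_le_one₀ (by positivity)
    rw [div_le_one (by positivity)]
    have h2 : (1:ℝ) ≤ g := by exact_mod_cast hg0
    have h3 : (1:ℝ) ≤ 2 ^ g := one_le_pow₀ (by norm_num)
    nlinarith
  obtain ⟨A, hA⟩ : ∃ A : ℝ, A = τ * c0 / 32 := ⟨_, rfl⟩
  have hA0 : 0 < A := by rw [hA]; positivity
  obtain ⟨G, hG⟩ : ∃ G : ℝ, G = J * K * C1 + 1 := ⟨_, rfl⟩
  have hG0 : 0 < G := by rw [hG]; positivity
  obtain ⟨y0, hy0⟩ : ∃ y0 : ℕ, y0 = ⌈G * 2 ^ K / A⌉₊ := ⟨_, rfl⟩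
  obtain ⟨y, hy⟩ : ∃ y : ℕ, y = 2 + f + K + R + z + z1 + y0 := ⟨_, rfl⟩
  have hyA : G * 2 ^ K / A ≤ y := by
    have h1 : G * 2 ^ K / A ≤ y0 := by rw [hy0]; exact Nat.le_ceil _
    have h2 : (y0:ℝ) ≤ y := by exact_mod_cast (by omega : y0 ≤ y)
    linarith
  obtain ⟨W, a0, H, t, hcfg⟩ := cf_exists f c hf hf2 hcf hc1 K y (by omega) (by omega)
  refine ⟨H, ?_⟩
  have hy0' : (0:ℝ) < y := by exact_mod_cast (by omega : 0 < y)
  have hWpos := hcfg.pos
  obtain ⟨ε, hε⟩ : ∃ ε : ℝ, ε = A / G := ⟨_, rfl⟩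
  have hε0 : 0 < ε := by rw [hε]; positivity
  -- the eventual facts
  have ev1 : ∀ᶠ X : ℝ in atTop, K * X ^ (1 / 2 : ℝ) ≤ 2 * A * (X / (20 * Real.log X ^ (3 + K))) := by
    have h1 : ∀ᶠ l : ℝ in atTop, (K * 20 / (2 * A)) * l ^ (3 + K) ≤ Real.exp ((1 / 2) * l) :=
      ev_pow_exp (3 + K) (1 / 2) (K * 20 / (2 * A)) (by norm_num)
    filter_upwards [Real.tendsto_log_atTop.eventually h1, Real.tendsto_log_atTop.eventually_ge_atTop 1, eventually_gt_atTop 1] with X h1 h2 h3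
    have hX0 : 0 < X := by linarith
    have hl0 : 0 < Real.log X := by linarith
    have e1 : Real.exp ((1 / 2) * Real.log X) = X ^ (1 / 2 : ℝ) := by
      rw [Real.rpow_def_of_pos hX0, mul_comm]
    rw [e1] at h1
    have hXd : 0 < X ^ (1 / 2 : ℝ) := Real.rpow_pos_of_pos hX0 _
    have e2 : X = X ^ (1 / 2 : ℝ) * X ^ (1 / 2 : ℝ) := by
      rw [← Real.rpow_add hX0]; norm_num
    rw [div_mul_eq_mul_div, div_le_iff₀ (by positivity)] at h1
    rw [mul_div_assoc', le_div_iff₀ (by positivity)]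
    calc K * X ^ (1 / 2 : ℝ) * (20 * Real.log X ^ (3 + K)) = X ^ (1 / 2 : ℝ) * (K * 20 * Real.log X ^ (3 + K)) := by ring
      _ ≤ X ^ (1 / 2 : ℝ) * (X ^ (1 / 2 : ℝ) * (2 * A)) := by gcongr
      _ = 2 * A * (X ^ (1 / 2 : ℝ) * X ^ (1 / 2 : ℝ)) := by ring
      _ = 2 * A * X := by rw [← e2]
  have tl := Real.tendsto_log_atTop
  have tN : Tendsto (fun X : ℕ => (X : ℝ)) atTop atTop := tendsto_natCast_atTop_atTop
  have hf2pos : 1 ≤ f ^ 2 := Nat.one_le_pow _ _ hf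
  have hall : ∀ᶠ X : ℝ in atTop, _ := (hpos (f ^ 2) hf2pos).and (hup.and ((cs_fix (z + z1) W hWpos (fun q hq hqz => hcfg.sm q hq (by omega))).and
    ((omega_small hε0).and ((QQ_ge K).and (ev1.and ((LL_tendsto.eventually_ge_atTop 1).and ((tl.eventually_ge_atTop 2).and
    ((tl.eventually_ge_atTop (20 / A)).and ((tl.eventually_ge_atTop (2 * (2 ^ g) ^ K / τ)).and
    (eventually_ge_atTop (max 4 (max (W:ℝ) ((H:ℝ) ^ 2)))))))))))))
  filter_upwards [tN.eventually hall] with X hall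
  obtain ⟨hpos, hup, hcs, hom, hQge, hev, hLL, hlog2, hlogc, hlogτ, hXbig⟩ := hall
  intro I hI Bs hBJ hBs N hNX
  have hX4 : (4:ℝ) ≤ X := (le_max_left _ _).trans hXbig
  have hWX : (W:ℝ) ≤ X := (le_max_left _ _).trans ((le_max_right _ _).trans hXbig)
  have hH2 : (H:ℝ) ^ 2 ≤ X := (le_max_right _ _).trans ((le_max_right _ _).trans hXbig)
  have hX0 : (0:ℝ) < X := by linarith
  have hX0' : 0 < X := by exact_mod_cast hX0
  have hl0 : 0 < Real.log X := by linarith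
  have hfl : ⌊3 * (X : ℝ)⌋₊ = 3 * X := by
    have : 3 * (X : ℝ) = ((3 * X : ℕ) : ℝ) := by push_cast; ring
    rw [this, Nat.floor_natCast]
  have hpr : ∀ p ∈ W.primeFactors, p.Prime := fun p hp => Nat.prime_of_mem_primeFactors hp
  obtain ⟨Q, hQd⟩ : ∃ Q : ℝ, Q = QQ K X W W.primeFactors := ⟨_, rfl⟩
  have hQ : 0 ≤ Q := by rw [hQd]; exact QQ_nonneg K (by linarith) hpr
  have hsqH : (H:ℝ) ≤ Real.sqrt X := Real.le_sqrt_of_sq_le hH2
  have hsqX : Real.sqrt X ≤ X := by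
    rw [Real.sqrt_le_left (by linarith)]
    nlinarith
  have hHX : (H:ℝ) ≤ X := hsqH.trans hsqX
  have hHX' : H ≤ X := by exact_mod_cast hHX
  have hWX' : W ≤ X := by exact_mod_cast hWX
  have hcsz : CS X z W W.primeFactors := ⟨hcs.1.gs.mono (by omega), hcs.1.pos, hcs.1.le, hcs.1.dv⟩
  have hcsz1 : CS X z1 W W.primeFactors ∧ ∀ q : ℕ, q.Prime → ¬ q ∣ W → (q : ℝ) ≤ Real.log X →
      CS X z1 (W * q) (insert q W.primeFactors) := by
    refine ⟨⟨hcs.1.gs.mono (by omega), hcs.1.pos, hcs.1.le, hcs.1.dv⟩, fun q hq hqW hql => ?_⟩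
    have h := hcs.2 q hq hqW hql
    exact ⟨h.gs.mono (by omega), h.pos, h.le, h.dv⟩
  have hQX : (X:ℝ) / (20 * Real.log X ^ (3 + K)) ≤ Q := by
    rw [hQd]; exact hQge W W.primeFactors hWpos hcs.1.le hpr
  have hQpos : 0 < Q := lt_of_lt_of_le (by positivity) hQX
  -- positivity
  have hpos' : c0 * QQ K X W W.primeFactors ≤ ∑ n ∈ Icc 1 (3 * X), nu X W a0 n * (if EV k δ X t n then 1 else 0) := by
    have h1 := hpos W W.primeFactors a0 t hcsz hcfg.sqm hcfg.dt hcfg.cop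
      (fun j => (by exact_mod_cast (hcfg.tH j).2 : ((t j : ℕ) : ℝ) ≤ H).trans hsqH)
      (by
        have : W.primeFactors.filter (fun p => ¬ p ∣ W) = ∅ := by
          apply filter_eq_empty_iff.2
          intro p hp h
          exact h (Nat.dvd_of_mem_primeFactors hp)
        rw [this, sum_empty]
        exact hδ.le)
      (by
        have h2 : (W.totient : ℝ) = W * BE W.primeFactors := by
          unfold BE
          have h3 := Nat.totient_eq_mul_prod_factors W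
          have h4 : ((W.totient : ℚ) : ℝ) = ((W * ∏ p ∈ W.primeFactors, (1 - (p : ℚ)⁻¹) : ℚ) : ℝ) := by rw [h3]
          push_cast at h4
          rw [h4]
          congr 1
          apply prod_congr rfl
          intro p _
          rw [one_div]
        rw [h2]
        have h3 : 0 < BE W.primeFactors := BE_pos hpr
        have h4 : (0:ℝ) < W := by exact_mod_cast hWpos
        have : 0 < (W:ℝ) * BE W.primeFactors := by positivity
        linarith)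
    rw [hfl] at h1
    refine h1.trans (le_of_eq (sum_congr rfl fun n _ => ?_))
    congr 1
    exact if_congr Iff.rfl rfl rfl
  have hup' : ∀ (W : ℕ) (E : Finset ℕ) (a0 : ℕ) (t : Fin K → ℕ), CS X z1 W E → DT E t →
      ∑ n ∈ Icc 1 ⌊3 * (X:ℝ)⌋₊, nu X W a0 n * (if RA δ X t n then 1 else 0) ≤ C1 * QQ K X W E := by
    intro W E a0 t h1 h2
    refine le_trans (le_of_eq (sum_congr rfl fun n _ => ?_)) (hup W E a0 t h1 h2)
    congr 1
    exact if_congr Iff.rfl rfl rfl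
  have hBsr : ∀ Br ∈ Bs, ∀ q : ℕ, q.Prime → ¬ q ∣ W → ¬ q ∣ Br.2 := by
    intro Br hBr q hq hqW hqd
    obtain ⟨h1, h2, -⟩ := hBs Br hBr
    have h3 := Nat.le_of_dvd (by omega) hqd
    exact hqW (hcfg.sm q hq (by omega))
  -- the exceptional set
  refine ⟨(Icc 1 N).filter (fun a => Sg k δ X W a0 t (Nat.gcd (c - 1) f) I a - SbI δ X W a0 t Bs a < 2 * A * Q),
    filter_subset _ _, ?_, ?_⟩
  · obtain ⟨Z, hZ⟩ : ∃ Z : Finset ℕ, Z = (Icc 1 N).filter (fun a => Sg k δ X W a0 t (Nat.gcd (c - 1) f) I a - SbI δ X W a0 t Bs a < 2 * A * Q) := ⟨_, rfl⟩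
    rw [← hZ]
    intro hF
    by_contra hne
    have hZne : Z.Nonempty := nonempty_iff_ne_empty.2 hne
    have hZc : (0:ℝ) < #Z := by exact_mod_cast card_pos.2 hZne
    have hZE : ∀ a ∈ Z, 1 ≤ a ∧ a ≤ X := by
      intro a ha
      rw [hZ, mem_filter, mem_Icc] at ha
      omega
    obtain ⟨bF, hbF⟩ : ∃ b : ℝ, b = (#(BadF Z ((#Z : ℝ) / Real.log X) ((4 * X) ^ K)) : ℝ) := ⟨_, rfl⟩
    rw [← hbF] at hF
    have hKF : K * bF ≤ 2 * A * Q := by
      calc K * bF ≤ K * (X : ℝ) ^ (1 / 2 : ℝ) := mul_le_mul_of_nonneg_left hF (Nat.cast_nonneg _)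
        _ ≤ 2 * A * (X / (20 * Real.log X ^ (3 + K))) := hev
        _ ≤ 2 * A * Q := mul_le_mul_of_nonneg_left hQX (by positivity)
    -- lower bound
    have hAτ : (#Z : ℝ) * τ / 2 ≤ #Z * (1 / (((Nat.gcd (c - 1) f : ℕ) : ℝ) * 2 ^ Nat.gcd (c - 1) f)) ^ K -
        ((#Z : ℝ) / Real.log X) * (2 ^ Nat.gcd (c - 1) f) ^ K := by
      rw [← hg, ← hτ]
      have h1 : ((#Z : ℝ) / Real.log X) * (2 ^ g) ^ K ≤ #Z * τ / 2 := by
        rw [div_mul_eq_mul_div, div_le_iff₀ hl0]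
        rw [div_le_iff₀ hτ0] at hlogτ
        have : (#Z : ℝ) * (2 * (2 ^ g) ^ K) ≤ #Z * (Real.log X * τ) := mul_le_mul_of_nonneg_left hlogτ hZc.le
        linarith
      linarith
    have hlow := sumSg_lower (f := f) (c := c) hcfg (by rw [← hg]; exact hg0) hI hpos' hX0' hHX' Z hZE
      (M := (#Z : ℝ) / Real.log X) (by positivity) (le_trans (by positivity) hAτ)
    rw [← hbF, ← hQd] at hlow
    have hlow2 : (#Z : ℝ) * τ / 2 * (c0 / 2 * Q) ≤ ∑ a ∈ Z, Sg k δ X W a0 t (Nat.gcd (c - 1) f) I a := by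
      refine le_trans ?_ hlow
      have h1 : c0 / 2 * Q ≤ c0 * Q - K * bF := by
        have h2 : 2 * A * Q ≤ c0 / 2 * Q := by
          apply mul_le_mul_of_nonneg_right _ hQ
          rw [hA]
          nlinarith
        linarith
      exact mul_le_mul hAτ h1 (by positivity) (le_trans (by positivity) hAτ)
    -- upper bound
    have hupp := sumSb_upper (f := f) (c := c) hcfg hC1.le (by omega) hup' hcsz1 hom (by linarith) hlog2 le_rfl hX0' hHX'
      Bs hBJ (fun Br hBr => (hBs Br hBr).2.2) hBsr Z hZE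
    rw [← hbF, ← hQd] at hupp
    have h7 : (J:ℝ) * K * (C1 * Q * (2 ^ K / y + ε)) ≤ 2 * A * Q := by
      have h8 : 2 ^ K / (y:ℝ) ≤ ε := by
        rw [hε, div_le_div_iff₀ hy0' hG0]
        rw [div_le_iff₀ hA0] at hyA
        linarith
      have h9 : (J:ℝ) * K * C1 * ε ≤ A := by
        have h10 : (J:ℝ) * K * C1 ≤ G := by rw [hG]; linarith
        calc (J:ℝ) * K * C1 * ε ≤ G * ε := mul_le_mul_of_nonneg_right h10 hε0.le
          _ = A := by rw [hε]; field_simp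
      calc (J:ℝ) * K * (C1 * Q * (2 ^ K / y + ε)) ≤ (J:ℝ) * K * (C1 * Q * (ε + ε)) := by gcongr
        _ = 2 * ((J:ℝ) * K * C1 * ε) * Q := by ring
        _ ≤ 2 * A * Q := by gcongr
    have hupp2 : ∑ a ∈ Z, SbI δ X W a0 t Bs a ≤ #Z * (4 * A * Q) := by
      refine hupp.trans (mul_le_mul_of_nonneg_left ?_ hZc.le)
      linarith
    -- the definition of the exceptional set
    have hZlt : ∑ a ∈ Z, (Sg k δ X W a0 t (Nat.gcd (c - 1) f) I a - SbI δ X W a0 t Bs a) ≤ #Z * (2 * A * Q) := by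
      rw [← nsmul_eq_mul]
      apply sum_le_card_nsmul
      intro a ha
      rw [hZ] at ha
      exact (mem_filter.1 ha).2.le
    rw [sum_sub_distrib] at hZlt
    have h12 : (#Z : ℝ) * τ / 2 * (c0 / 2 * Q) = #Z * (8 * A * Q) := by rw [hA]; ring
    rw [h12] at hlow2
    have h13 : (#Z : ℝ) * (8 * A * Q) ≤ #Z * (6 * A * Q) := by linarith
    have h14 := le_of_mul_le_mul_left h13 hZc
    have h15 : 0 < A * Q := by positivity
    linarith
  · intro a haN haZ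
    have h1 := lower_one (δ := δ) (k := k) hcfg I Bs hX0' hWX' a
    refine le_trans ?_ h1
    have h2 : 2 * A * Q ≤ Sg k δ X W a0 t (Nat.gcd (c - 1) f) I a - SbI δ X W a0 t Bs a := by
      by_contra hlt
      push Not at hlt
      exact haZ (mem_filter.2 ⟨haN, hlt⟩)
    refine le_trans ?_ h2
    calc (X:ℝ) / Real.log X ^ (K + 4) ≤ 2 * A * (X / (20 * Real.log X ^ (3 + K))) := by
          rw [mul_div_assoc', div_le_div_iff₀ (by positivity) (by positivity)]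
          have h4 : 20 ≤ Real.log X * A := by rwa [div_le_iff₀ hA0] at hlogc
          calc (X:ℝ) * (20 * Real.log X ^ (3 + K)) = 20 * (X * Real.log X ^ (3 + K)) := by ring
            _ ≤ (Real.log X * A) * (X * Real.log X ^ (3 + K)) := by gcongr
            _ ≤ 2 * ((Real.log X * A) * (X * Real.log X ^ (3 + K))) := by
                have : 0 ≤ (Real.log X * A) * (X * Real.log X ^ (3 + K)) := by positivity
                linarith
            _ = 2 * A * X * Real.log X ^ (K + 4) := by ring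
      _ ≤ _ := mul_le_mul_of_nonneg_left hQX (by positivity)

open Classical in
/-- all scales, all patterns -/
theorem mainI (k : ℕ) : ∃ θ c : ℝ, θ < 1 ∧ 0 < c ∧ ∃ κ : ℕ, ∀ f b : ℕ, 0 < f → 2 ∣ f → b.Coprime f → 1 ≤ b →
    ∀ R J : ℕ, ∃ H N₀ : ℕ, ∀ N : ℕ, N₀ ≤ N → ∀ Bs : Finset (ℤ × ℕ), #Bs ≤ J →
      (∀ Br ∈ Bs, 1 ≤ Br.2 ∧ Br.2 ≤ R ∧ ∀ p : ℕ, p.Prime → N < p → ¬ (p : ℤ) ∣ Br.1) →
      ∃ Z ⊆ Icc 1 N, (#Z : ℝ) ≤ (N : ℝ) ^ θ ∧ ∀ a ∈ Icc 1 N, a ∉ Z →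
        ∀ i : Fin k → ℕ, (∀ j, i j ∣ Nat.gcd (b - 1) f) → ∀ x : ℕ, N ≤ x → Real.log x ≤ (Real.log N) ^ (1 + c) →
          (x : ℝ) / Real.log x ^ κ ≤
            (#((Ioc x (6 * x)).filter (fun n => GnI k H f b (fun l => if h : l < k then i ⟨l, h⟩ else 1) Bs n a)) : ℝ) := by
  obtain ⟨K, hscale⟩ := few_at_scaleI k
  obtain ⟨θ₀, c, h12, h01, hc, N₁, hfew⟩ := fewF K
  refine ⟨(1 + θ₀) / 2, c / 2, by linarith, by positivity, K + 5, fun f b hf hf2 hbf hb1 R J => ?_⟩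
  obtain ⟨H, hH⟩ := hscale f b hf hf2 hbf hb1 R J
  obtain ⟨X₁, hX₁⟩ := eventually_atTop.1 hH
  obtain ⟨g, hg⟩ : ∃ g, g = Nat.gcd (b - 1) f := ⟨_, rfl⟩
  obtain ⟨PT, hPT⟩ : ∃ P : Finset (Fin k → ℕ), P = Fintype.piFinset (fun _ : Fin k => g.divisors) := ⟨_, rfl⟩
  have hg0 : 0 < g := by rw [hg]; exact Nat.gcd_pos_of_pos_right _ hf
  have tN : Tendsto (fun N : ℕ => (N : ℝ)) atTop atTop := tendsto_natCast_atTop_atTop
  have tL : Tendsto (fun N : ℕ => Real.log (N : ℝ)) atTop atTop := Real.tendsto_log_atTop.comp tN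
  have e1 : ∀ᶠ l : ℝ in atTop, l ^ (1 + c / 2) + 3 ≤ l ^ (1 + c) := by
    have h1 := (tendsto_rpow_atTop (show 0 < c / 2 by positivity)).eventually_ge_atTop 4
    filter_upwards [h1, eventually_ge_atTop 1] with l h1 h2
    have h3 : l ^ (1 + c) = l ^ (1 + c / 2) * l ^ (c / 2) := by
      rw [← Real.rpow_add (by linarith)]; congr 1; ring
    have h4 : 1 ≤ l ^ (1 + c / 2) := Real.one_le_rpow h2 (by positivity)
    rw [h3]
    nlinarith
  have e2 : ∀ᶠ l : ℝ in atTop, #PT * (2 * l ^ (1 + c) + 1) ≤ Real.exp (((1 - θ₀) / 2) * l) := by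
    obtain ⟨m, hm⟩ := exists_nat_ge (1 + c)
    have h1 : ∀ᶠ l : ℝ in atTop, (#PT * 3) * l ^ m ≤ Real.exp (((1 - θ₀) / 2) * l) :=
      ev_pow_exp m ((1 - θ₀) / 2) (#PT * 3) (by linarith)
    filter_upwards [h1, eventually_ge_atTop 1] with l h1 h2
    have h3 : l ^ (1 + c) ≤ l ^ m := by
      rw [← Real.rpow_natCast]
      exact Real.rpow_le_rpow_of_exponent_le h2 hm
    have h4 : 1 ≤ l ^ m := one_le_pow₀ h2
    calc #PT * (2 * l ^ (1 + c) + 1) ≤ #PT * (3 * l ^ m) := by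
          apply mul_le_mul_of_nonneg_left _ (Nat.cast_nonneg _)
          linarith
      _ = (#PT * 3) * l ^ m := by ring
      _ ≤ _ := h1
  obtain ⟨N₂, hN₂⟩ := eventually_atTop.1 ((((tL.eventually e1).and (tL.eventually e2)).and
    (tL.eventually_ge_atTop (2 ^ (K + 4) : ℝ))).and (eventually_ge_atTop (max 2 (max N₁ X₁))))
  refine ⟨H, N₂, fun N hN Bs hBJ hBs => ?_⟩
  obtain ⟨⟨⟨g1, g2⟩, g3⟩, g5⟩ := hN₂ N hN
  have hN2 : 2 ≤ N := (le_max_left _ _).trans g5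
  have hNN₁ : N₁ ≤ N := (le_max_left _ _).trans ((le_max_right _ _).trans g5)
  have hNX₁ : X₁ ≤ N := (le_max_right _ _).trans ((le_max_right _ _).trans g5)
  have hN0 : (0 : ℝ) < N := by exact_mod_cast (by omega : 0 < N)
  have hN1 : (1 : ℝ) ≤ N := by exact_mod_cast (by omega : 1 ≤ N)
  have hl1 : 1 ≤ Real.log N := by
    refine le_trans ?_ g3
    exact one_le_pow₀ (by norm_num)
  obtain ⟨l, hl⟩ : ∃ l : ℝ, l = Real.log (N : ℝ) := ⟨_, rfl⟩
  rw [← hl] at g1 g2 g3 hl1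
  have hl0 : 0 < l := by linarith
  obtain ⟨U, hU⟩ : ∃ U : ℝ, U = l ^ (1 + c) := ⟨_, rfl⟩
  have hU0 : 0 < U := by rw [hU]; exact Real.rpow_pos_of_pos hl0 _
  obtain ⟨Is, hI⟩ : ∃ I : Finset ℕ, I = (range (⌊2 * U⌋₊ + 1)).filter (fun i => N ≤ 2 ^ i ∧ Real.log ((2 ^ i : ℕ) : ℝ) ≤ U) := ⟨_, rfl⟩
  -- the set at one scale, for one pattern
  have hone : ∀ (s : ℕ) (i : Fin k → ℕ), ∃ Z : Finset ℕ, s ∈ Is → i ∈ PT → Z ⊆ Icc 1 N ∧ (#Z : ℝ) ≤ (N : ℝ) ^ θ₀ ∧
      ∀ a ∈ Icc 1 N, a ∉ Z → ((2 ^ s : ℕ) : ℝ) / Real.log ((2 ^ s : ℕ) : ℝ) ^ (K + 4) ≤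
          (#((Ioc (2 ^ s) (3 * 2 ^ s)).filter (fun n => GnI k H f b (fun l => if h : l < k then i ⟨l, h⟩ else 1) Bs n a)) : ℝ) := by
    intro s i
    by_cases hs : s ∈ Is
    swap
    · exact ⟨∅, fun h => absurd h hs⟩
    by_cases hi : i ∈ PT
    swap
    · exact ⟨∅, fun _ h => absurd h hi⟩
    rw [hI, mem_filter] at hs
    obtain ⟨-, hs1, hs2⟩ := hs
    rw [hPT, Fintype.mem_piFinset] at hi
    obtain ⟨Z, hZN, hZ1, hZ2⟩ := hX₁ (2 ^ s) (by omega) (fun l => if h : l < k then i ⟨l, h⟩ else 1) (fun l => by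
      beta_reduce
      split_ifs with h
      · rw [← hg]; exact Nat.dvd_of_mem_divisors (hi _)
      · exact one_dvd _) Bs hBJ (fun Br hBr => ⟨(hBs Br hBr).1, (hBs Br hBr).2.1, fun p hp hpX => (hBs Br hBr).2.2 p hp (by omega)⟩)
      N hs1
    refine ⟨Z, fun _ _ => ⟨hZN, ?_, hZ2⟩⟩
    by_contra hlt
    push Not at hlt
    have h1 := hfew N (2 ^ s) hNN₁ hs1 (by rw [← hl, ← hU]; exact hs2) Z hZN hlt.le
    have h3 := hZ1 h1
    rw [h3, card_empty] at hlt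
    have h4 : 0 < (N : ℝ) ^ θ₀ := Real.rpow_pos_of_pos hN0 _
    norm_num at hlt
    linarith
  choose Z hZ using hone
  refine ⟨PT.biUnion (fun i => Is.biUnion (fun s => Z s i)), ?_, ?_, ?_⟩
  · intro m hm
    rw [mem_biUnion] at hm
    obtain ⟨i, hi, hm⟩ := hm
    rw [mem_biUnion] at hm
    obtain ⟨s, hs, hm⟩ := hm
    exact (hZ s i hs hi).1 hm
  · have h1 : (#(PT.biUnion (fun i => Is.biUnion (fun s => Z s i))) : ℝ) ≤ #PT * (#Is * (N : ℝ) ^ θ₀) := by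
      have h2 : (#(PT.biUnion (fun i => Is.biUnion (fun s => Z s i))) : ℝ) ≤ ∑ i ∈ PT, (∑ s ∈ Is, (#(Z s i) : ℝ)) := by
        have := card_biUnion_le.trans (sum_le_sum fun i (_ : i ∈ PT) => card_biUnion_le (s := Is) (t := fun s => Z s i))
        exact_mod_cast this
      refine h2.trans ?_
      rw [← nsmul_eq_mul (#PT)]
      apply sum_le_card_nsmul
      intro i hi
      rw [← nsmul_eq_mul]
      exact sum_le_card_nsmul _ _ _ fun s hs => (hZ s i hs hi).2.1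
    refine h1.trans ?_
    have h2 : (#Is : ℝ) ≤ 2 * U + 1 := by
      have h3 : #Is ≤ ⌊2 * U⌋₊ + 1 := by
        rw [hI]
        refine (card_le_card (filter_subset _ _)).trans ?_
        rw [card_range]
      have h4 : (⌊2 * U⌋₊ : ℝ) ≤ 2 * U := Nat.floor_le (by positivity)
      have h5 : (#Is : ℝ) ≤ ⌊2 * U⌋₊ + 1 := by exact_mod_cast h3
      linarith
    have h3 : Real.exp (((1 - θ₀) / 2) * l) = (N : ℝ) ^ ((1 - θ₀) / 2) := by
      rw [Real.rpow_def_of_pos hN0, ← hl, mul_comm]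
    rw [← hU, h3] at g2
    have h4 : (N : ℝ) ^ ((1 + θ₀) / 2) = (N : ℝ) ^ ((1 - θ₀) / 2) * (N : ℝ) ^ θ₀ := by
      rw [← Real.rpow_add hN0]; congr 1; ring
    rw [h4]
    calc #PT * (#Is * (N : ℝ) ^ θ₀) ≤ #PT * ((2 * U + 1) * (N : ℝ) ^ θ₀) := by gcongr
      _ = (#PT * (2 * U + 1)) * (N : ℝ) ^ θ₀ := by ring
      _ ≤ _ := mul_le_mul_of_nonneg_right g2 (Real.rpow_nonneg hN0.le _)
  · intro a haN haZ i hi x hx1 hx2
    rw [← hl] at hx2
    have hxN : (N : ℝ) ≤ x := by exact_mod_cast hx1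
    have hx2' : 2 ≤ x := by omega
    have hx0 : (0 : ℝ) < x := by linarith
    obtain ⟨s, hs⟩ : ∃ s : ℕ, s = Nat.clog 2 x := ⟨_, rfl⟩
    have hi1 : x ≤ 2 ^ s := by rw [hs]; exact Nat.le_pow_clog (by norm_num) x
    have hi2 : 2 ^ s < 2 * x := by
      have h1 : 1 ≤ s := by
        rcases Nat.eq_zero_or_pos s with h0 | h0
        · rw [h0] at hi1; omega
        · exact h0
      have h2 : 2 ^ (s - 1) < x := by
        rw [hs] at h1 ⊢
        exact Nat.pow_pred_clog_lt_self (by norm_num) (by omega)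
      have h3 : 2 ^ s = 2 * 2 ^ (s - 1) := by
        rw [← pow_succ']
        congr 1
        omega
      omega
    have hi1' : (x : ℝ) ≤ ((2 ^ s : ℕ) : ℝ) := by exact_mod_cast hi1
    have hi2' : ((2 ^ s : ℕ) : ℝ) ≤ 2 * x := by exact_mod_cast hi2.le
    have hpow0 : (0:ℝ) < ((2 ^ s : ℕ) : ℝ) := by positivity
    have hlog2 : Real.log 2 ≤ 1 := by
      have := Real.log_two_lt_d9
      linarith
    have hlogi : Real.log ((2 ^ s : ℕ) : ℝ) ≤ U := by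
      have h2 := Real.log_le_log hpow0 hi2'
      rw [Real.log_mul (by norm_num) hx0.ne'] at h2
      rw [hU]
      linarith
    have hsI : s ∈ Is := by
      rw [hI, mem_filter, mem_range]
      refine ⟨?_, by omega, hlogi⟩
      have h1 : (s : ℝ) ≤ 2 * U := by
        have h3 : Real.log ((2 ^ s : ℕ) : ℝ) = s * Real.log 2 := by
          push_cast
          rw [Real.log_pow]
        have h4 := Real.log_two_gt_d9
        rw [h3] at hlogi
        have h5 : (0:ℝ) ≤ s := Nat.cast_nonneg s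
        nlinarith
      have h2 := Nat.le_floor h1
      omega
    have hiPT : i ∈ PT := by
      rw [hPT, Fintype.mem_piFinset]
      intro j
      exact Nat.mem_divisors.2 ⟨by rw [hg]; exact hi j, hg0.ne'⟩
    obtain ⟨-, -, hZ3⟩ := hZ s i hsI hiPT
    have haZi : a ∉ Z s i := by
      intro h
      exact haZ (mem_biUnion.2 ⟨i, hiPT, mem_biUnion.2 ⟨s, hsI, h⟩⟩)
    have h1 := hZ3 a haN haZi
    have h2 : (#((Ioc (2 ^ s) (3 * 2 ^ s)).filter (fun n => GnI k H f b (fun l => if h : l < k then i ⟨l, h⟩ else 1) Bs n a)) : ℝ) ≤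
        (#((Ioc x (6 * x)).filter (fun n => GnI k H f b (fun l => if h : l < k then i ⟨l, h⟩ else 1) Bs n a)) : ℝ) := by
      have : (Ioc (2 ^ s) (3 * 2 ^ s)).filter (fun n => GnI k H f b (fun l => if h : l < k then i ⟨l, h⟩ else 1) Bs n a) ⊆
          (Ioc x (6 * x)).filter (fun n => GnI k H f b (fun l => if h : l < k then i ⟨l, h⟩ else 1) Bs n a) := by
        intro n hn
        rw [mem_filter, mem_Ioc] at hn ⊢
        exact ⟨⟨by omega, by omega⟩, hn.2⟩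
      exact_mod_cast card_le_card this
    refine le_trans ?_ (h1.trans h2)
    have hlx : 2 ^ (K + 4) ≤ Real.log x := by
      refine g3.trans ?_
      rw [hl]
      exact Real.log_le_log hN0 hxN
    have hlx0 : 0 < Real.log x := lt_of_lt_of_le (by positivity) hlx
    have hlX : Real.log ((2 ^ s : ℕ) : ℝ) ≤ 2 * Real.log x := by
      have h3 := Real.log_le_log hpow0 hi2'
      rw [Real.log_mul (by norm_num) hx0.ne'] at h3
      have h4 : Real.log 2 ≤ Real.log x := Real.log_le_log (by norm_num) (by exact_mod_cast hx2')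
      linarith
    have hlX0 : 0 < Real.log ((2 ^ s : ℕ) : ℝ) := lt_of_lt_of_le hlx0 (Real.log_le_log hx0 hi1')
    calc (x : ℝ) / Real.log x ^ (K + 5) ≤ x / Real.log ((2 ^ s : ℕ) : ℝ) ^ (K + 4) := by
          apply div_le_div_of_nonneg_left hx0.le (by positivity)
          calc Real.log ((2 ^ s : ℕ) : ℝ) ^ (K + 4) ≤ (2 * Real.log x) ^ (K + 4) :=
                pow_le_pow_left₀ hlX0.le hlX _
            _ = 2 ^ (K + 4) * Real.log x ^ (K + 4) := by rw [mul_pow]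
            _ ≤ Real.log x * Real.log x ^ (K + 4) := by gcongr
            _ = _ := by ring
      _ ≤ _ := by gcongr

end Pool.Agent.TH891.PI
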