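import Pool.Agent.TH891.PI.M7

set_option autoImplicit false

/-! # From the points `n` to consecutive primes `p_s, p_{s+1}, ...` -/

namespace Pool.Agent.TH891.PI

open Finset

lemma card_primes_Ioc (n H : ℕ) : #{p ∈ Ioc n (n + H) | p.Prime} + Nat.count Nat.Prime (n + 1) = Nat.count Nat.Prime (n + H + 1) := by
  rw [Nat.count_eq_card_filter_range, Nat.count_eq_card_filter_range, ← card_union_of_disjoint]
  · congr 1
    ext p
    simp only [mem_union, mem_filter, mem_Ioc, mem_range]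
    constructor
    · rintro (⟨h1, h2⟩ | ⟨h1, h2⟩)
      · exact ⟨by omega, h2⟩
      · exact ⟨by omega, h2⟩
    · rintro ⟨h1, h2⟩
      by_cases h : n < p
      · left; exact ⟨⟨h, by omega⟩, h2⟩
      · right; exact ⟨by omega, h2⟩
  · rw [disjoint_left]
    intro p h1 h2
    rw [mem_filter, mem_Ioc] at h1
    rw [mem_filter, mem_range] at h2
    omega

lemma nth_mem {k H n : ℕ} (h : k + 1 ≤ #{p ∈ Ioc n (n + H) | p.Prime}) {j : ℕ} (hj : j ≤ k) :
    Nat.nth Nat.Prime (Nat.count Nat.Prime (n + 1) + j) ∈ Ioc n (n + H) ∧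
    #{q ∈ Ioo n (Nat.nth Nat.Prime (Nat.count Nat.Prime (n + 1) + j)) | q.Prime} = j := by
  have hinf : (Set.ofPred Nat.Prime).Infinite := Nat.infinite_setOfPred_prime
  obtain ⟨s, hs⟩ : ∃ s, s = Nat.count Nat.Prime (n + 1) := ⟨_, rfl⟩
  rw [← hs]
  obtain ⟨p, hp⟩ : ∃ p, p = Nat.nth Nat.Prime (s + j) := ⟨_, rfl⟩
  rw [← hp]
  have h1 : n + 1 ≤ p := by
    have h2 : n + 1 ≤ Nat.nth Nat.Prime s := by rw [hs]; exact Nat.le_nth_count hinf (n + 1)
    have h3 : Nat.nth Nat.Prime s ≤ p := by rw [hp]; exact (Nat.nth_monotone hinf) (by omega)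
    omega
  have h2 : p < n + H + 1 := by
    rw [hp]
    apply Nat.nth_lt_of_lt_count
    have := card_primes_Ioc n H
    omega
  refine ⟨mem_Ioc.2 ⟨by omega, by omega⟩, ?_⟩
  have h3 : Nat.count Nat.Prime p = s + j := by rw [hp]; exact Nat.count_nth_of_infinite hinf _
  have h4 := card_primes_Ioc n (p - (n + 1))
  have h5 : n + (p - (n + 1)) + 1 = p := by omega
  rw [h5, h3] at h4
  have h6 : Ioc n (n + (p - (n + 1))) = Ioo n p := by
    ext q
    simp only [mem_Ioc, mem_Ioo]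
    omega
  rw [h6] at h4
  omega

open Classical in
/-- from `n` to the index `s` of the first prime after `n` -/
theorem to_nth (k H x : ℕ) (hx : H ≤ x) (G P : ℕ → Prop) (hG : ∀ n, G n → k + 1 ≤ #{p ∈ Ioc n (n + H) | p.Prime})
    (hGP : ∀ n, G n → P (Nat.count Nat.Prime (n + 1))) :
    #((Ioc x (6 * x)).filter G) ≤
      H * #((range (7 * x)).filter (fun s => x < Nat.nth Nat.Prime s ∧ Nat.nth Nat.Prime s ≤ 7 * x ∧ P s)) := by
  apply card_le_mul_card_image_of_maps_to (f := fun n => Nat.count Nat.Prime (n + 1))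
  · intro n hn
    rw [mem_filter, mem_Ioc] at hn
    obtain ⟨h1, -⟩ := nth_mem (hG n hn.2) (Nat.zero_le k)
    rw [add_zero, mem_Ioc] at h1
    rw [mem_filter, mem_range]
    have h2 := Nat.add_two_le_nth_prime (Nat.count Nat.Prime (n + 1))
    exact ⟨by omega, by omega, by omega, hGP n hn.2⟩
  · intro s _
    have hsub : (((Ioc x (6 * x)).filter G).filter (fun n => Nat.count Nat.Prime (n + 1) = s)) ⊆
        Ico (Nat.nth Nat.Prime s - H) (Nat.nth Nat.Prime s) := by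
      intro n hn
      rw [mem_filter, mem_filter] at hn
      obtain ⟨h1, -⟩ := nth_mem (hG n hn.1.2) (Nat.zero_le k)
      rw [add_zero, hn.2, mem_Ioc] at h1
      rw [mem_Ico]
      omega
    refine (card_le_card hsub).trans ?_
    rw [Nat.card_Ico]
    omega

/-- the local conditions at the primes `p_s, ..., p_{s+k-1}` -/
def LC (k H f b : ℕ) (i : Fin k → ℕ) (Bs : Finset (ℤ × ℕ)) (a s : ℕ) : Prop :=
  ∀ j : Fin k, Nat.nth Nat.Prime (s + j) ≤ Nat.nth Nat.Prime s + H ∧ Nat.nth Nat.Prime (s + j) ≡ b [MOD f] ∧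
    Nat.gcd (b - 1) f ∣ Nat.nth Nat.Prime (s + j) - 1 ∧
    IndP (Nat.nth Nat.Prime (s + j)) (i j) (La (Nat.gcd (b - 1) f) (i j)) (a : ZMod (Nat.nth Nat.Prime (s + j))) ∧
    ∀ Br ∈ Bs, ∀ q : ℕ, q.Prime → q ∣ (Nat.nth Nat.Prime (s + j) - 1) / Nat.gcd (b - 1) f →
      ((Br.1 * (a : ℤ) ^ Br.2 : ℤ) : ZMod (Nat.nth Nat.Prime (s + j))) ^ ((Nat.nth Nat.Prime (s + j) - 1) / q) ≠ 1

lemma LC_of_GnI {k H f b : ℕ} {i : Fin k → ℕ} {Bs : Finset (ℤ × ℕ)} {n a : ℕ}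
    (h : GnI k H f b (fun l => if h : l < k then i ⟨l, h⟩ else 1) Bs n a) :
    LC k H f b i Bs a (Nat.count Nat.Prime (n + 1)) := by
  intro j
  obtain ⟨h1, h2⟩ := h
  have hj : (j : ℕ) ≤ k := j.2.le
  obtain ⟨h3, h4⟩ := nth_mem h1 hj
  obtain ⟨h5, -⟩ := nth_mem h1 (Nat.zero_le k)
  rw [add_zero] at h5
  obtain ⟨s, hs⟩ : ∃ s, s = Nat.count Nat.Prime (n + 1) := ⟨_, rfl⟩
  rw [← hs] at h3 h4 h5 ⊢
  have hp : (Nat.nth Nat.Prime (s + j)).Prime := Nat.prime_nth_prime _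
  have h6 := h2 _ h3 hp
  rw [h4] at h6
  beta_reduce at h6
  rw [dif_pos j.2] at h6
  rw [mem_Ioc] at h3 h5
  exact ⟨by omega, h6⟩

open Classical in
theorem final (k : ℕ) : ∃ θ c : ℝ, θ < 1 ∧ 0 < c ∧ ∃ κ : ℕ, ∀ f b : ℕ, 0 < f → 2 ∣ f → b.Coprime f → 1 ≤ b →
    ∀ R J : ℕ, ∃ H N₀ : ℕ, ∀ N : ℕ, N₀ ≤ N → ∀ Bs : Finset (ℤ × ℕ), #Bs ≤ J →
      (∀ Br ∈ Bs, 1 ≤ Br.2 ∧ Br.2 ≤ R ∧ ∀ p : ℕ, p.Prime → N < p → ¬ (p : ℤ) ∣ Br.1) →
      ∃ Z ⊆ Icc 1 N, (#Z : ℝ) ≤ (N : ℝ) ^ θ ∧ ∀ a ∈ Icc 1 N, a ∉ Z →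
        ∀ i : Fin k → ℕ, (∀ j, i j ∣ Nat.gcd (b - 1) f) → ∀ x : ℕ, N ≤ x → Real.log x ≤ (Real.log N) ^ (1 + c) →
          ∀ P : ℕ → Prop, (∀ s, x < Nat.nth Nat.Prime s → LC k H f b i Bs a s → P s) →
          (x : ℝ) / Real.log x ^ κ ≤
            (#((range (7 * x)).filter (fun s => x < Nat.nth Nat.Prime s ∧ Nat.nth Nat.Prime s ≤ 7 * x ∧ P s)) : ℝ) := by
  obtain ⟨θ, c, hθ, hc, κ, h⟩ := mainI k
  refine ⟨θ, c, hθ, hc, κ + 1, fun f b hf hf2 hbf hb1 R J => ?_⟩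
  obtain ⟨H, N₀, h⟩ := h f b hf hf2 hbf hb1 R J
  have tN : Filter.Tendsto (fun N : ℕ => (N : ℝ)) Filter.atTop Filter.atTop := tendsto_natCast_atTop_atTop
  have tL : Filter.Tendsto (fun N : ℕ => Real.log (N : ℝ)) Filter.atTop Filter.atTop := Real.tendsto_log_atTop.comp tN
  obtain ⟨N₁, hN₁⟩ := Filter.eventually_atTop.1 (tL.eventually_ge_atTop ((H : ℝ) + 1))
  refine ⟨H, max N₀ (max N₁ (H + 1)), fun N hN Bs hJ hBs => ?_⟩
  have hN0 : N₀ ≤ N := (le_max_left _ _).trans hN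
  have hN1 : N₁ ≤ N := (le_max_left _ _).trans ((le_max_right _ _).trans hN)
  have hNH : H + 1 ≤ N := (le_max_right _ _).trans ((le_max_right _ _).trans hN)
  obtain ⟨Z, hZN, hZ, h⟩ := h N hN0 Bs hJ hBs
  refine ⟨Z, hZN, hZ, fun a ha haZ i hi x hx1 hx2 P hP => ?_⟩
  have h1 := h a ha haZ i hi x hx1 hx2
  have h2 := to_nth k H x (by omega) (fun n => GnI k H f b (fun l => if h : l < k then i ⟨l, h⟩ else 1) Bs n a)
    (fun s => LC k H f b i Bs a s) (fun n hn => hn.1) (fun n hn => LC_of_GnI hn)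
  have h3 : #((range (7 * x)).filter (fun s => x < Nat.nth Nat.Prime s ∧ Nat.nth Nat.Prime s ≤ 7 * x ∧ LC k H f b i Bs a s)) ≤
      #((range (7 * x)).filter (fun s => x < Nat.nth Nat.Prime s ∧ Nat.nth Nat.Prime s ≤ 7 * x ∧ P s)) := by
    apply card_le_card
    intro s hs
    rw [mem_filter] at hs ⊢
    exact ⟨hs.1, hs.2.1, hs.2.2.1, hP s hs.2.1 hs.2.2.2⟩
  have h4 : (#((Ioc x (6 * x)).filter (fun n => GnI k H f b (fun l => if h : l < k then i ⟨l, h⟩ else 1) Bs n a)) : ℝ) ≤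
      H * #((range (7 * x)).filter (fun s => x < Nat.nth Nat.Prime s ∧ Nat.nth Nat.Prime s ≤ 7 * x ∧ P s)) := by
    exact_mod_cast h2.trans (Nat.mul_le_mul_left H h3)
  have hlx : (H : ℝ) + 1 ≤ Real.log x := by
    refine (hN₁ N hN1).trans ?_
    apply Real.log_le_log (by exact_mod_cast (by omega : 0 < N))
    exact_mod_cast hx1
  have hH0 : (0:ℝ) ≤ H := Nat.cast_nonneg H
  have hlx0 : 0 < Real.log x := by linarith
  obtain ⟨T, hT⟩ : ∃ T : ℝ, T = (#((range (7 * x)).filter (fun s => x < Nat.nth Nat.Prime s ∧ Nat.nth Nat.Prime s ≤ 7 * x ∧ P s)) : ℝ) := ⟨_, rfl⟩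
  rw [← hT] at h4 ⊢
  have hT0 : 0 ≤ T := by rw [hT]; exact Nat.cast_nonneg _
  have h5 := h1.trans h4
  rw [div_le_iff₀ (by positivity)] at h5 ⊢
  calc (x : ℝ) ≤ H * T * Real.log x ^ κ := h5
    _ ≤ Real.log x * T * Real.log x ^ κ := by
        apply mul_le_mul_of_nonneg_right _ (by positivity)
        apply mul_le_mul_of_nonneg_right _ hT0
        linarith
    _ = T * Real.log x ^ (κ + 1) := by ring

/-- the order from the local conditions -/
theorem order_of_LC {p g e a : ℕ} (hp : p.Prime) (hg0 : 0 < g) (hg : g ∣ p - 1) (he : e ∣ g) (h1 : IndP p e (La g e) (a : ZMod p))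
    (h2 : ∀ q : ℕ, q.Prime → q ∣ (p - 1) / g → (a : ZMod p) ^ ((p - 1) / q) ≠ 1) :
    p - 1 = e * orderOf (a : ZMod p) := by
  have hp1 : 0 < p - 1 := by have := hp.two_le; omega
  have he0 : 0 < e := Nat.pos_of_dvd_of_pos he hg0
  have hep : e ∣ p - 1 := he.trans hg
  have hn : 0 < (p - 1) / e := Nat.div_pos (Nat.le_of_dvd hp1 hep) he0
  have h3 : orderOf (a : ZMod p) = (p - 1) / e := by
    apply orderOf_eq_of_pow_and_pow_div_prime hn h1.1
    intro l hl hld h4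
    obtain ⟨v, hv⟩ := hg
    obtain ⟨u, hu⟩ := he
    have hu0 : 0 < u := by
      rcases Nat.eq_zero_or_pos u with h0 | h0
      · rw [h0, mul_zero] at hu; omega
      · exact h0
    have e1 : (p - 1) / e = u * v := by
      rw [hv, hu, mul_assoc]
      exact Nat.mul_div_cancel_left _ he0
    have e2 : (p - 1) / g = v := by rw [hv]; exact Nat.mul_div_cancel_left _ hg0
    have e3 : g / e = u := by rw [hu]; exact Nat.mul_div_cancel_left _ he0
    rw [e1] at hld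
    rcases hl.dvd_mul.1 hld with h5 | h5
    · apply h1.2 l (by unfold La; rw [e3]; exact Nat.mem_primeFactors.2 ⟨hl, h5, hu0.ne'⟩)
      rw [← Nat.div_div_eq_div_mul]
      exact h4
    · apply h2 l hl (by rw [e2]; exact h5)
      obtain ⟨w, hw⟩ := h5
      have e4 : (p - 1) / e / l = u * w := by
        rw [e1, hw]
        rw [show u * (l * w) = l * (u * w) by ring]
        exact Nat.mul_div_cancel_left _ hl.pos
      have e5 : (p - 1) / l = (u * w) * e := by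
        rw [hv, hu, hw]
        rw [show e * u * (l * w) = l * (u * w * e) by ring]
        exact Nat.mul_div_cancel_left _ hl.pos
      rw [e4] at h4
      rw [e5, pow_mul, h4, one_pow]
  rw [h3]
  exact (Nat.mul_div_cancel' hep).symm

end Pool.Agent.TH891.PI
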