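import Pool.Agent.TH891.PI.M8

set_option autoImplicit false

/-! # The class for a set of prescribed indices -/

namespace Pool.Agent.TH891.PI

open Finset

lemma gcd_lcm_right (a b c : ℕ) (ha : a ≠ 0) (hb : b ≠ 0) (hc : c ≠ 0) :
    Nat.gcd (Nat.lcm a b) c = Nat.lcm (Nat.gcd a c) (Nat.gcd b c) := by
  have h1 : Nat.lcm a b ≠ 0 := Nat.lcm_ne_zero ha hb
  have h2 : Nat.gcd a c ≠ 0 := Nat.gcd_ne_zero_right hc
  have h3 : Nat.gcd b c ≠ 0 := Nat.gcd_ne_zero_right hc
  apply Nat.eq_of_factorization_eq (Nat.gcd_ne_zero_right hc) (Nat.lcm_ne_zero h2 h3)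
  intro p
  rw [Nat.factorization_gcd h1 hc, Nat.factorization_lcm ha hb, Nat.factorization_lcm h2 h3,
    Nat.factorization_gcd ha hc, Nat.factorization_gcd hb hc]
  simp only [Finsupp.inf_apply, Finsupp.sup_apply]
  exact inf_sup_right _ _ _

/-- `S` a set of allowed indices: there is a class `b'` modulo a common multiple -/
theorem class_for (f b : ℕ) (hf : 0 < f) (hbf : b.Coprime f) (S : Finset ℕ) (hS0 : ∀ e ∈ S, 0 < e)
    (hS : ∀ e ∈ S, b ≡ 1 [MOD Nat.gcd e f]) :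
    ∃ f' b' : ℕ, 0 < f' ∧ f ∣ f' ∧ 2 ∣ f' ∧ b'.Coprime f' ∧ 1 ≤ b' ∧ b' ≡ b [MOD f] ∧ ∀ e ∈ S, e ∣ Nat.gcd (b' - 1) f' := by
  -- reduce to the case `2 ∈ S`
  obtain ⟨T, hT⟩ : ∃ T : Finset ℕ, T = insert 2 S := ⟨_, rfl⟩
  have hT0 : ∀ e ∈ T, 0 < e := by
    intro e he
    rw [hT, mem_insert] at he
    rcases he with rfl | he
    · norm_num
    · exact hS0 e he
  have hT1 : ∀ e ∈ T, b ≡ 1 [MOD Nat.gcd e f] := by
    intro e he
    rw [hT, mem_insert] at he
    rcases he with rfl | he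
    · rcases Nat.even_or_odd f with h | h
      · have h2 : Nat.gcd 2 f = 2 := Nat.gcd_eq_left h.two_dvd
        rw [h2]
        have h3 : Odd b := by
          rw [← Nat.not_even_iff_odd]
          intro h4
          have h5 := Nat.dvd_gcd h4.two_dvd h.two_dvd
          rw [hbf] at h5
          norm_num at h5
        unfold Nat.ModEq
        rw [Nat.odd_iff.1 h3]
      · have h2 : Nat.gcd 2 f = 1 := by
          rw [← Nat.coprime_iff_gcd_eq_one]
          exact (Nat.coprime_two_left).2 h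
        rw [h2]
        exact Nat.modEq_one
    · exact hS e he
  -- induction for the lcm
  have key : ∀ U ⊆ T, U.lcm id ≠ 0 ∧ b ≡ 1 [MOD Nat.gcd (U.lcm id) f] := by
    intro U
    induction U using Finset.induction_on with
    | empty =>
      intro _
      refine ⟨by simp, ?_⟩
      simp [Nat.modEq_one]
    | insert e U he ih =>
      intro hU
      obtain ⟨h1, h2⟩ := ih ((subset_insert _ _).trans hU)
      have heT : e ∈ T := hU (mem_insert_self _ _)
      have he0 : e ≠ 0 := (hT0 e heT).ne'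
      have h3 : (insert e U).lcm id = Nat.lcm e (U.lcm id) := by
        rw [Finset.lcm_insert]
        rfl
      rw [h3]
      refine ⟨Nat.lcm_ne_zero he0 h1, ?_⟩
      rw [gcd_lcm_right _ _ _ he0 h1 hf.ne']
      have h4 := hT1 e heT
      rw [Nat.modEq_iff_dvd] at h4 h2 ⊢
      have h5 : ((Nat.lcm (e.gcd f) ((U.lcm id).gcd f) : ℕ) : ℤ) = ((Int.lcm (e.gcd f : ℕ) ((U.lcm id).gcd f : ℕ) : ℕ) : ℤ) := by
        rw [Int.lcm_natCast_natCast]
      rw [h5]
      exact Int.coe_lcm_dvd h4 h2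
  obtain ⟨hL0, hL1⟩ := key T (Subset.refl _)
  obtain ⟨L, hL⟩ : ∃ L : ℕ, L = T.lcm id := ⟨_, rfl⟩
  rw [← hL] at hL0 hL1
  have hdvd : ∀ e ∈ T, e ∣ L := by
    intro e he
    rw [hL]
    exact Finset.dvd_lcm (f := id) he
  obtain ⟨b', hb1, hb2⟩ := Nat.chineseRemainder' (n := f) (m := L) (a := b) (b := 1) (by rw [Nat.gcd_comm]; exact hL1)
  have h2L : 2 ∣ L := hdvd 2 (by rw [hT]; exact mem_insert_self _ _)
  have hcop : b'.Coprime (Nat.lcm f L) := by
    have h1 : b'.Coprime f := by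
      rw [Nat.coprime_iff_gcd_eq_one, Nat.ModEq.gcd_eq hb1]
      exact hbf
    have h2 : b'.Coprime L := by
      rw [Nat.coprime_iff_gcd_eq_one, Nat.ModEq.gcd_eq hb2]
      exact Nat.gcd_one_left _
    exact Nat.Coprime.coprime_dvd_right (Nat.lcm_dvd_mul f L) (Nat.Coprime.mul_right h1 h2)
  have h2f : 2 ∣ Nat.lcm f L := h2L.trans (Nat.dvd_lcm_right _ _)
  have hb0 : 1 ≤ b' := by
    rcases Nat.eq_zero_or_pos b' with h | h
    · exfalso
      rw [h] at hcop
      have h1 : Nat.lcm f L = 1 := by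
        have := (Nat.coprime_zero_left _).1 hcop
        exact this
      rw [h1] at h2f
      norm_num at h2f
    · exact h
  refine ⟨Nat.lcm f L, b', Nat.pos_of_ne_zero (Nat.lcm_ne_zero hf.ne' hL0), Nat.dvd_lcm_left _ _, h2f, hcop, hb0, hb1, ?_⟩
  intro e he
  have heT : e ∈ T := by rw [hT]; exact mem_insert_of_mem he
  apply Nat.dvd_gcd
  · have h1 : b' ≡ 1 [MOD e] := hb2.of_dvd (hdvd e heT)
    exact (Nat.modEq_iff_dvd' hb0).1 h1.symm
  · exact (hdvd e heT).trans (Nat.dvd_lcm_right _ _)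

end Pool.Agent.TH891.PI
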